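import Pool.Agent.Y476.ZB.Cox

/-!
Buildings as `W`-metric spaces (Abramenko-Brown, Definition 5.1), regular of finite thickness.
-/

set_option autoImplicit false
set_option linter.unusedSectionVars false

namespace Pool.Agent.Y476.ZB

open CoxeterSystem Pool.Agent.TH5.BD

variable {B : Type*} {M : CoxeterMatrix B} {W : Type*} [Group W]

/-- A building of type `(W, S)`: a set `C` of chambers with a Weyl distance `δ : C × C → W`
satisfying (WD1), (WD2) and (WD3); it is regular and locally finite: for every simple reflection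
`s` the number of chambers at distance `s` from a given chamber is a fixed positive
integer `q s`. -/
structure Building (cs : CoxeterSystem M W) (C : Type*) where
  /-- the Weyl distance -/
  δ : C → C → W
  δ_eq_one_iff : ∀ x y, δ x y = 1 ↔ x = y
  δ_mem : ∀ (s : B) (x' x y : C), δ x' x = cs.simple s →
    δ x' y = cs.simple s * δ x y ∨ δ x' y = δ x y
  δ_eq : ∀ (s : B) (x' x y : C), δ x' x = cs.simple s →
    cs.length (cs.simple s * δ x y) = cs.length (δ x y) + 1 → δ x' y = cs.simple s * δ x y
  exists_δ : ∀ (s : B) (x y : C), ∃ x', δ x' x = cs.simple s ∧ δ x' y = cs.simple s * δ x y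
  /-- the thickness parameters -/
  q : B → ℕ
  q_pos : ∀ s, 0 < q s
  card_eq : ∀ (s : B) (x : C), Nat.card {y // δ x y = cs.simple s} = q s

variable {cs : CoxeterSystem M W} {C : Type*} (b : Building cs C)

namespace Building

lemma δ_self (x : C) : b.δ x x = 1 := (b.δ_eq_one_iff x x).2 rfl

lemma simple_ne_one (s : B) : cs.simple s ≠ 1 := by
  intro h
  have := cs.length_simple s
  rw [h, cs.length_one] at this
  omega

lemma symm_simple {s : B} {x y : C} (h : b.δ x y = cs.simple s) : b.δ y x = cs.simple s := by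
  have hne : x ≠ y := by
    rintro rfl
    rw [b.δ_self] at h
    exact simple_ne_one s h.symm
  have h2 : b.δ y x ≠ 1 := fun h => hne ((b.δ_eq_one_iff _ _).1 h).symm
  rcases b.δ_mem s x y x h with h1 | h1
  · rw [b.δ_self] at h1
    have := congrArg (fun w => cs.simple s * w) h1
    simpa using this.symm
  · rw [b.δ_self] at h1
    exact absurd h1.symm h2

/-- `δ a c = u v` if `δ a b = u`, `δ b c = v` and the lengths add -/
lemma prod : ∀ (n : ℕ) (a d c : C), cs.length (b.δ a d) = n →
    cs.length (b.δ a d * b.δ d c) = cs.length (b.δ a d) + cs.length (b.δ d c) →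
    b.δ a c = b.δ a d * b.δ d c := by
  intro n
  induction n with
  | zero =>
    intro a d c h0 _
    rw [cs.length_eq_zero_iff] at h0
    have := (b.δ_eq_one_iff _ _).1 h0
    subst this
    rw [h0, one_mul]
  | succ n ih =>
    intro a d c hn hl
    obtain ⟨s, hs⟩ : ∃ s, cs.length (cs.simple s * b.δ a d) < cs.length (b.δ a d) := by
      have h1 : b.δ a d ≠ 1 := by
        intro h
        rw [h, cs.length_one] at hn
        omega
      obtain ⟨s, hs⟩ := cs.exists_leftDescent_of_ne_one h1
      exact ⟨s, hs⟩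
    obtain ⟨a', h1, h2⟩ := b.exists_δ s a d
    have hl1 : cs.length (b.δ a' d) = n := by
      rw [h2]
      rcases cs.length_simple_mul (b.δ a d) s with h | h <;> omega
    have e1 : b.δ a d = cs.simple s * b.δ a' d := by
      rw [h2, cs.simple_mul_simple_cancel_left]
    have h3 := cs.length_mul_le (b.δ a' d) (b.δ d c)
    have h4 : cs.length (cs.simple s * (b.δ a' d * b.δ d c)) ≤
        cs.length (b.δ a' d * b.δ d c) + 1 := by
      rcases cs.length_simple_mul (b.δ a' d * b.δ d c) s with h | h <;> omega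
    rw [← mul_assoc, ← e1] at h4
    have h5 := ih a' d c hl1 (by omega)
    have h6 := b.δ_eq s a a' c (b.symm_simple h1) (by
      rw [h5, ← mul_assoc, ← e1]
      omega)
    rw [h6, h5, ← mul_assoc, ← e1]

lemma δ_prod {a d c : C}
    (h : cs.length (b.δ a d * b.δ d c) = cs.length (b.δ a d) + cs.length (b.δ d c)) :
    b.δ a c = b.δ a d * b.δ d c := b.prod _ a d c rfl h

lemma symm_aux : ∀ (n : ℕ) (x y : C), cs.length (b.δ x y) = n → b.δ y x = (b.δ x y)⁻¹ := by
  intro n
  induction n with
  | zero =>
    intro x y h0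
    rw [cs.length_eq_zero_iff] at h0
    have := (b.δ_eq_one_iff _ _).1 h0
    subst this
    rw [h0, inv_one]
  | succ n ih =>
    intro x y hn
    obtain ⟨s, hs⟩ : ∃ s, cs.length (cs.simple s * b.δ x y) < cs.length (b.δ x y) := by
      have h1 : b.δ x y ≠ 1 := by
        intro h
        rw [h, cs.length_one] at hn
        omega
      obtain ⟨s, hs⟩ := cs.exists_leftDescent_of_ne_one h1
      exact ⟨s, hs⟩
    obtain ⟨x', h1, h2⟩ := b.exists_δ s x y
    have hl1 : cs.length (b.δ x' y) = n := by
      rw [h2]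
      rcases cs.length_simple_mul (b.δ x y) s with h | h <;> omega
    have h3 := ih x' y hl1
    have e1 : b.δ x y = cs.simple s * b.δ x' y := by
      rw [h2, cs.simple_mul_simple_cancel_left]
    have e2 : (b.δ x y)⁻¹ = b.δ y x' * b.δ x' x := by
      rw [h3, h1, e1, mul_inv_rev, cs.inv_simple]
    rw [e2]
    apply b.δ_prod
    rw [← e2, cs.length_inv, h3, cs.length_inv, h1, cs.length_simple]
    omega

lemma symm (x y : C) : b.δ y x = (b.δ x y)⁻¹ := b.symm_aux _ x y rfl

lemma mem_right {s : B} {a x y : C} (h : b.δ x y = cs.simple s) :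
    b.δ a y = b.δ a x * cs.simple s ∨ b.δ a y = b.δ a x := by
  rcases b.δ_mem s y x a (b.symm_simple h) with h1 | h1
  · left
    rw [b.symm y a, h1, mul_inv_rev, cs.inv_simple, ← b.symm]
  · right
    rw [b.symm y a, h1, ← b.symm]

lemma eq_right {s : B} {a x y : C} (h : b.δ x y = cs.simple s)
    (hl : cs.length (b.δ a x * cs.simple s) = cs.length (b.δ a x) + 1) :
    b.δ a y = b.δ a x * cs.simple s := by
  rw [← h]
  apply b.δ_prod
  rw [h, hl, cs.length_simple]

lemma exists_right (s : B) (a x : C) : ∃ y, b.δ x y = cs.simple s ∧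
    b.δ a y = b.δ a x * cs.simple s := by
  obtain ⟨y, h1, h2⟩ := b.exists_δ s x a
  refine ⟨y, b.symm_simple h1, ?_⟩
  rw [b.symm y a, h2, mul_inv_rev, cs.inv_simple, ← b.symm]

/-! ### panels -/

lemma nb_finite (s : B) (x : C) : {y | b.δ x y = cs.simple s}.Finite := by
  have h := b.card_eq s x
  have h2 := b.q_pos s
  have : Finite {y // b.δ x y = cs.simple s} := Nat.finite_of_card_ne_zero (by omega)
  exact this

/-- the chambers `s`-adjacent to `x` -/
noncomputable def nb (s : B) (x : C) : Finset C := (b.nb_finite s x).toFinset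

@[simp] lemma mem_nb {s : B} {x y : C} : y ∈ b.nb s x ↔ b.δ x y = cs.simple s := by
  simp [nb]

lemma card_nb (s : B) (x : C) : (b.nb s x).card = b.q s := by
  rw [← b.card_eq s x]
  exact (Nat.subtype_card (b.nb s x) (fun y => b.mem_nb)).symm

lemma not_mem_nb (s : B) (x : C) : x ∉ b.nb s x := by
  rw [mem_nb, b.δ_self]
  exact fun h => simple_ne_one s h.symm

open Classical in
/-- the `s`-panel of `x` -/
noncomputable def pan (s : B) (x : C) : Finset C := insert x (b.nb s x)

lemma mem_pan {s : B} {x y : C} : y ∈ b.pan s x ↔ y = x ∨ b.δ x y = cs.simple s := by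
  simp [pan]

lemma self_mem_pan (s : B) (x : C) : x ∈ b.pan s x := b.mem_pan.2 (Or.inl rfl)

lemma pan_trans {s : B} {x y z : C} (h1 : y ∈ b.pan s x) (h2 : z ∈ b.pan s y) :
    z ∈ b.pan s x := by
  rw [mem_pan] at *
  rcases h1 with rfl | h1
  · exact h2
  rcases h2 with rfl | h2
  · exact Or.inr h1
  rcases b.mem_right (a := x) h2 with h3 | h3
  · left
    rw [h1, cs.simple_mul_simple_self] at h3
    exact ((b.δ_eq_one_iff _ _).1 h3).symm
  · right
    rw [h3, h1]

lemma pan_symm {s : B} {x y : C} (h : y ∈ b.pan s x) : x ∈ b.pan s y := by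
  rw [mem_pan] at *
  rcases h with rfl | h
  · exact Or.inl rfl
  · exact Or.inr (b.symm_simple h)

lemma pan_eq {s : B} {x y : C} (h : y ∈ b.pan s x) : b.pan s y = b.pan s x := by
  ext z
  exact ⟨fun hz => b.pan_trans h hz, fun hz => b.pan_trans (b.pan_symm h) hz⟩

/-- the vanishing of all sums over `s`-panels -/
def PS (s : B) (f : C → ℂ) : Prop := ∀ x, ∑ y ∈ b.pan s x, f y = 0

lemma sum_pan (s : B) (x : C) (f : C → ℂ) :
    ∑ y ∈ b.pan s x, f y = f x + ∑ y ∈ b.nb s x, f y := by
  classical
  rw [pan, Finset.sum_insert (b.not_mem_nb s x)]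

/-- the chamber of a panel nearest to `a` -/
lemma exists_near (s : B) (a x : C) : ∃ x₀ ∈ b.pan s x,
    cs.length (b.δ a x₀ * cs.simple s) = cs.length (b.δ a x₀) + 1 := by
  rcases cs.length_mul_simple (b.δ a x) s with h | h
  · exact ⟨x, b.self_mem_pan s x, h⟩
  · obtain ⟨y, h1, h2⟩ := b.exists_right s a x
    refine ⟨y, b.mem_pan.2 (Or.inr h1), ?_⟩
    rw [h2, cs.simple_mul_simple_cancel_right]
    omega

/-! ### spheres -/

lemma sph_finite (a : C) : ∀ (n : ℕ) (w : W), cs.length w = n → {x | b.δ a x = w}.Finite := by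
  intro n
  induction n with
  | zero =>
    intro w hw
    rw [cs.length_eq_zero_iff] at hw
    subst hw
    refine (Set.finite_singleton a).subset fun x hx => ?_
    exact ((b.δ_eq_one_iff _ _).1 hx).symm
  | succ n ih =>
    intro w hw
    obtain ⟨s, hs⟩ : ∃ s, cs.length (w * cs.simple s) < cs.length w := by
      have h1 : w ≠ 1 := by
        intro h
        rw [h, cs.length_one] at hw
        omega
      obtain ⟨s, hs⟩ := cs.exists_rightDescent_of_ne_one h1
      exact ⟨s, hs⟩
    have hl : cs.length (w * cs.simple s) = n := by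
      rcases cs.length_mul_simple w s with h | h <;> omega
    refine Set.Finite.subset (Set.Finite.biUnion (ih _ hl)
      (t := fun x => {y | b.δ x y = cs.simple s}) fun x _ => b.nb_finite s x) ?_
    intro y hy
    obtain ⟨x, h1, h2⟩ := b.exists_right s a y
    rw [Set.mem_iUnion₂]
    refine ⟨x, ?_, b.symm_simple h1⟩
    change b.δ a x = _
    rw [h2]
    rw [show b.δ a y = w from hy]

/-- the sphere of chambers at distance `w` from `a` -/
noncomputable def sph (a : C) (w : W) : Finset C := (b.sph_finite a _ w rfl).toFinset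

@[simp] lemma mem_sph {a x : C} {w : W} : x ∈ b.sph a w ↔ b.δ a x = w := by
  simp [sph]

lemma sph_one (a : C) : b.sph a 1 = {a} := by
  ext x
  rw [mem_sph, b.δ_eq_one_iff, Finset.mem_singleton, eq_comm]

lemma sum_sph {A : Type*} [AddCommMonoid A] {a : C} {w : W} {s : B}
    (h : cs.length (w * cs.simple s) = cs.length w + 1) (F : C → A) :
    ∑ y ∈ b.sph a (w * cs.simple s), F y = ∑ x ∈ b.sph a w, ∑ y ∈ b.nb s x, F y := by
  classical
  rw [← Finset.sum_biUnion]
  · refine Finset.sum_congr ?_ fun _ _ => rfl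
    ext y
    rw [Finset.mem_biUnion]
    constructor
    · intro hy
      rw [mem_sph] at hy
      obtain ⟨x, h1, h2⟩ := b.exists_right s a y
      refine ⟨x, ?_, ?_⟩
      · rw [mem_sph, h2, hy, cs.simple_mul_simple_cancel_right]
      · rw [mem_nb]; exact b.symm_simple h1
    · rintro ⟨x, hx, hy⟩
      rw [mem_sph] at hx ⊢
      rw [mem_nb] at hy
      rw [b.eq_right hy (by rw [hx]; exact h), hx]
  · intro x hx x' hx' hne
    rw [Finset.mem_coe, mem_sph] at hx hx'
    change Disjoint (b.nb s x) (b.nb s x')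
    rw [Finset.disjoint_left]
    intro y hy hy'
    rw [mem_nb] at hy hy'
    apply hne
    have h1 : y ∈ b.pan s x := b.mem_pan.2 (Or.inr hy)
    have h2 : y ∈ b.pan s x' := b.mem_pan.2 (Or.inr hy')
    have h3 : x' ∈ b.pan s x := b.pan_trans h1 (b.pan_symm h2)
    rcases b.mem_pan.1 h3 with h4 | h4
    · exact h4.symm
    · exfalso
      have h5 := b.eq_right (a := a) h4 (by rw [hx]; exact h)
      rw [hx', hx] at h5
      have : cs.length w = cs.length (w * cs.simple s) := by rw [← h5]
      omega

/-- the number of chambers at distance `w` from `a` -/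
noncomputable def qw (a : C) (w : W) : ℕ := (b.sph a w).card

lemma qw_one (a : C) : b.qw a 1 = 1 := by simp [qw, sph_one]

lemma qw_mul_simple {a : C} {w : W} {s : B}
    (h : cs.length (w * cs.simple s) = cs.length w + 1) :
    b.qw a (w * cs.simple s) = b.qw a w * b.q s := by
  have := b.sum_sph (A := ℕ) (a := a) h (fun _ => 1)
  simp only [Finset.sum_const, smul_eq_mul, mul_one] at this
  rw [qw, this]
  simp only [card_nb]
  rw [Finset.sum_const, smul_eq_mul, qw]

lemma qw_indep : ∀ (n : ℕ) (w : W), cs.length w = n → ∀ a a', b.qw a w = b.qw a' w := by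
  intro n
  induction n with
  | zero =>
    intro w hw a a'
    rw [cs.length_eq_zero_iff] at hw
    rw [hw, qw_one, qw_one]
  | succ n ih =>
    intro w hw a a'
    obtain ⟨s, hs⟩ : ∃ s, cs.length (w * cs.simple s) < cs.length w := by
      have h1 : w ≠ 1 := by
        intro h
        rw [h, cs.length_one] at hw
        omega
      obtain ⟨s, hs⟩ := cs.exists_rightDescent_of_ne_one h1
      exact ⟨s, hs⟩
    have hl : cs.length (w * cs.simple s) = n := by
      rcases cs.length_mul_simple w s with h | h <;> omega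
    obtain ⟨v, hv⟩ : ∃ v, v = w * cs.simple s := ⟨_, rfl⟩
    have e : w = v * cs.simple s := by rw [hv, cs.simple_mul_simple_cancel_right]
    rw [← hv] at hl
    have hl2 : cs.length (v * cs.simple s) = cs.length v + 1 := by rw [← e]; omega
    rw [e, b.qw_mul_simple hl2, b.qw_mul_simple hl2, ih v hl a a']

lemma qw_simple_mul {a : C} {w : W} {s : B}
    (h : cs.length (cs.simple s * w) = cs.length w + 1) :
    b.qw a (cs.simple s * w) = b.q s * b.qw a w := by
  classical
  have h1 : b.sph a (cs.simple s * w) = (b.nb s a).biUnion fun x => b.sph x w := by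
    ext y
    rw [Finset.mem_biUnion]
    constructor
    · intro hy
      rw [mem_sph] at hy
      obtain ⟨x, h1, h2⟩ := b.exists_δ s a y
      refine ⟨x, ?_, ?_⟩
      · rw [mem_nb]; exact b.symm_simple h1
      · rw [mem_sph, h2, hy, cs.simple_mul_simple_cancel_left]
    · rintro ⟨x, hx, hy⟩
      rw [mem_sph] at hy ⊢
      rw [mem_nb] at hx
      rw [b.δ_eq s a x y hx (by rw [hy]; exact h), hy]
  rw [qw, h1, Finset.card_biUnion]
  · have h2 : ∀ x ∈ b.nb s a, (b.sph x w).card = b.qw a w := fun x _ => b.qw_indep _ w rfl x a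
    rw [Finset.sum_congr rfl h2, Finset.sum_const, card_nb, smul_eq_mul]
  · intro x hx x' hx' hne
    change Disjoint (b.sph x w) (b.sph x' w)
    rw [Finset.disjoint_left]
    intro y hy hy'
    rw [mem_sph] at hy hy'
    apply hne
    rw [Finset.mem_coe, mem_nb] at hx hx'
    have h1 : x ∈ b.pan s a := b.mem_pan.2 (Or.inr hx)
    have h2 : x' ∈ b.pan s a := b.mem_pan.2 (Or.inr hx')
    have h3 : x' ∈ b.pan s x := b.pan_trans (b.pan_symm h1) h2
    rcases b.mem_pan.1 h3 with h4 | h4
    · exact h4.symm
    · exfalso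
      have h5 := b.δ_eq s x x' y h4 (by rw [hy']; exact h)
      rw [hy, hy'] at h5
      have : cs.length w = cs.length (cs.simple s * w) := by rw [← h5]
      omega

lemma qw_pos (a : C) : ∀ (n : ℕ) (w : W), cs.length w = n → 0 < b.qw a w := by
  intro n
  induction n with
  | zero =>
    intro w hw
    rw [cs.length_eq_zero_iff] at hw
    rw [hw, qw_one]
    exact one_pos
  | succ n ih =>
    intro w hw
    obtain ⟨s, hs⟩ : ∃ s, cs.length (w * cs.simple s) < cs.length w := by
      have h1 : w ≠ 1 := by
        intro h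
        rw [h, cs.length_one] at hw
        omega
      obtain ⟨s, hs⟩ := cs.exists_rightDescent_of_ne_one h1
      exact ⟨s, hs⟩
    have hl : cs.length (w * cs.simple s) = n := by
      rcases cs.length_mul_simple w s with h | h <;> omega
    obtain ⟨v, hv⟩ : ∃ v, v = w * cs.simple s := ⟨_, rfl⟩
    have e : w = v * cs.simple s := by rw [hv, cs.simple_mul_simple_cancel_right]
    rw [← hv] at hl
    have hl2 : cs.length (v * cs.simple s) = cs.length v + 1 := by rw [← e]; omega
    rw [e, b.qw_mul_simple hl2]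
    exact Nat.mul_pos (ih v hl) (b.q_pos s)

/-- for a function whose `s`-panel sums vanish the sums over the spheres change sign -/
lemma PS.sum_sph {s : B} {f : C → ℂ} (hf : b.PS s f) {a : C} {w : W}
    (h : cs.length (w * cs.simple s) = cs.length w + 1) :
    ∑ y ∈ b.sph a (w * cs.simple s), f y = - ∑ y ∈ b.sph a w, f y := by
  rw [b.sum_sph h, ← Finset.sum_neg_distrib]
  refine Finset.sum_congr rfl fun x _ => ?_
  have h1 := hf x
  rw [b.sum_pan] at h1
  rw [eq_neg_iff_add_eq_zero, add_comm]
  exact h1

end Building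

end Pool.Agent.Y476.ZB
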