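import Pool.Agent.Y476.ZB.HomP

/-!
Comparison of a finite free resolution with a resolution by summands of permutation modules on a
free `G`-set.
-/

set_option autoImplicit false
set_option linter.unusedSectionVars false

open scoped Matrix

namespace Pool.Agent.Y476.ZB

open Pool.Agent.H919R4.ZS Pool.Agent.TH38.ZT

/-- a resolution of the trivial module by summands of a permutation module -/
structure KData (G : Type*) [Group G] (Ω : Type*) [MulAction G Ω] where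
  /-- the modules -/
  K : ℕ → Submodule ℂ (Ω →₀ ℂ)
  /-- the projections -/
  π : ℕ → (Ω →₀ ℂ) →ₗ[ℂ] (Ω →₀ ℂ)
  /-- the differential -/
  bd : (Ω →₀ ℂ) →ₗ[ℂ] (Ω →₀ ℂ)
  /-- the augmentation -/
  eps : (Ω →₀ ℂ) →ₗ[ℂ] ℂ
  free : ∀ (g : G) (x : Ω), g • x = x → g = 1
  stable : ∀ k (g : G) x, x ∈ K k → pm g x ∈ K k
  π_eqv : ∀ k, Eqv (G := G) pm pm (π k)
  π_mem : ∀ k x, π k x ∈ K k
  π_id : ∀ k, ∀ x ∈ K k, π k x = x
  bd_eqv : Eqv (G := G) pm pm bd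
  bd_mem : ∀ k, ∀ x ∈ K (k + 1), bd x ∈ K k
  bd_bd : ∀ k, ∀ x ∈ K (k + 2), bd (bd x) = 0
  eps_eqv : Eqv (G := G) pm 1 eps
  eps_bd : ∀ x ∈ K 1, eps (bd x) = 0
  eps_surj : ∃ x ∈ K 0, eps x = 1
  exact_zero : ∀ x ∈ K 0, eps x = 0 → ∃ y ∈ K 1, bd y = x
  exact_succ : ∀ k, ∀ x ∈ K (k + 1), bd x = 0 → ∃ y ∈ K (k + 2), bd y = x

variable {G : Type*} [Group G] {Ω : Type*} [MulAction G Ω] (D : KData G Ω) (X : FinRes G)

lemma Eqv.comp {U V W : Type*} [AddCommGroup U] [Module ℂ U] [AddCommGroup V] [Module ℂ V]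
    [AddCommGroup W] [Module ℂ W] {ρ : G →* Module.End ℂ U} {σ : G →* Module.End ℂ V}
    {τ : G →* Module.End ℂ W} {f : V →ₗ[ℂ] W} {g : U →ₗ[ℂ] V} (hf : Eqv σ τ f) (hg : Eqv ρ σ g) :
    Eqv ρ τ (f ∘ₗ g) := by
  intro a u
  rw [LinearMap.comp_apply, hg, hf]
  rfl

lemma Eqv.sub {U V : Type*} [AddCommGroup U] [Module ℂ U] [AddCommGroup V] [Module ℂ V]
    {ρ : G →* Module.End ℂ U} {σ : G →* Module.End ℂ V} {f g : U →ₗ[ℂ] V} (hf : Eqv ρ σ f)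
    (hg : Eqv ρ σ g) : Eqv ρ σ (f - g) := by
  intro a u
  rw [LinearMap.sub_apply, hf, hg, LinearMap.sub_apply, map_sub]

lemma Eqv.id {U : Type*} [AddCommGroup U] [Module ℂ U] {ρ : G →* Module.End ℂ U} :
    Eqv ρ ρ (LinearMap.id : U →ₗ[ℂ] U) := fun _ _ => rfl

/-- condition for continuing `K → P` -/
def GoodF : ∀ i, ((Ω →₀ ℂ) →ₗ[ℂ] (Fin (X.n i) → MonoidAlgebra ℂ G)) → Prop
  | 0 => fun f => ∀ x ∈ D.K 0, epC X (f x) = D.eps x
  | i + 1 => fun f => ∀ x ∈ D.K (i + 2), dC X i (f (D.bd x)) = 0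

theorem exists_f : ∃ f : ∀ i, (Ω →₀ ℂ) →ₗ[ℂ] (Fin (X.n i) → MonoidAlgebra ℂ G),
    (∀ i, Eqv pm (lm _) (f i)) ∧ (∀ x ∈ D.K 0, epC X (f 0 x) = D.eps x) ∧
    ∀ i, ∀ x ∈ D.K (i + 1), dC X i (f (i + 1) x) = f i (D.bd x) := by
  obtain ⟨u0, hu0⟩ := epC_surj X
  obtain ⟨f0, hf0, -, hf0'⟩ := lift_perm D.free (lm (X.n 0)) (1 : G →* Module.End ℂ ℂ) (epC X)
    (epC_eqv X) ⊤ (fun _ _ _ => trivial) (D.eps ∘ₗ D.π 0) (D.eps_eqv.comp (D.π_eqv 0))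
    (fun x => ⟨(D.eps (D.π 0 (Finsupp.single x 1))) • u0, trivial, by
      rw [map_smul, hu0]; simp⟩)
  obtain ⟨F, hF0, hF⟩ := dep_seq
    (α := fun i => {f : (Ω →₀ ℂ) →ₗ[ℂ] (Fin (X.n i) → MonoidAlgebra ℂ G) //
      Eqv pm (lm _) f ∧ GoodF D X i f})
    (fun i f f' => ∀ x ∈ D.K (i + 1), dC X i (f'.1 x) = f.1 (D.bd x))
    ⟨f0, hf0, fun x hx => by
      rw [hf0', LinearMap.comp_apply, D.π_id 0 x hx]⟩ (by
      rintro i ⟨f, hf, hg⟩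
      obtain ⟨f', hf', -, hf''⟩ := lift_perm D.free (lm (X.n (i + 1))) (lm (X.n i)) (dC X i)
        (dC_eqv X i) ⊤ (fun _ _ _ => trivial) (f ∘ₗ D.bd ∘ₗ D.π (i + 1))
        (hf.comp (D.bd_eqv.comp (D.π_eqv _))) (by
          intro x
          have hm := D.π_mem (i + 1) (Finsupp.single x 1)
          obtain ⟨y, hy⟩ : ∃ y, y ᵥ* (X.d i).map zc = f (D.bd (D.π (i + 1) (Finsupp.single x 1))) := by
            cases i with
            | zero =>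
              apply exC_zero
              rw [hg _ (D.bd_mem 0 _ hm)]
              exact D.eps_bd _ hm
            | succ i =>
              apply exC_succ
              rw [← dC_apply]
              exact hg _ hm
          exact ⟨y, trivial, by rw [dC_apply]; exact hy⟩)
      have key : ∀ x ∈ D.K (i + 1), dC X i (f' x) = f (D.bd x) := by
        intro x hx
        rw [hf'', LinearMap.comp_apply, LinearMap.comp_apply, D.π_id _ x hx]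
      refine ⟨⟨f', hf', ?_⟩, key⟩
      intro x hx
      rw [key _ (D.bd_mem _ _ hx), D.bd_bd _ x hx, map_zero])
  refine ⟨fun i => (F i).1, fun i => (F i).2.1, ?_, hF⟩
  exact (F 0).2.2

/-- condition for continuing `P → K` -/
def GoodG : ∀ i, ((Fin (X.n i) → MonoidAlgebra ℂ G) →ₗ[ℂ] (Ω →₀ ℂ)) → Prop
  | 0 => fun g => ∀ x, D.eps (g x) = epC X x
  | i + 1 => fun g => ∀ x, D.bd (g (dC X (i + 1) x)) = 0

theorem exists_g : ∃ g : ∀ i, (Fin (X.n i) → MonoidAlgebra ℂ G) →ₗ[ℂ] (Ω →₀ ℂ),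
    (∀ i, Eqv (lm _) pm (g i)) ∧ (∀ i x, g i x ∈ D.K i) ∧ (∀ x, D.eps (g 0 x) = epC X x) ∧
    ∀ i x, D.bd (g (i + 1) x) = g i (dC X i x) := by
  obtain ⟨u0, hu0, hu0'⟩ := D.eps_surj
  obtain ⟨g0, hg0, hg0m, hg0'⟩ := lift_free pm (1 : G →* Module.End ℂ ℂ) D.eps D.eps_eqv (D.K 0)
    (D.stable 0) (epC X) (epC_eqv X)
    (fun j => ⟨(epC X (Pi.single j 1)) • u0, (D.K 0).smul_mem _ hu0, by
      rw [map_smul, hu0']; simp⟩)
  obtain ⟨F, hF0, hF⟩ := dep_seq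
    (α := fun i => {g : (Fin (X.n i) → MonoidAlgebra ℂ G) →ₗ[ℂ] (Ω →₀ ℂ) //
      Eqv (lm _) pm g ∧ (∀ x, g x ∈ D.K i) ∧ GoodG D X i g})
    (fun i g g' => ∀ x, D.bd (g'.1 x) = g.1 (dC X i x))
    ⟨g0, hg0, hg0m, hg0'⟩ (by
      rintro i ⟨g, hg, hgm, hgg⟩
      obtain ⟨g', hg', hgm', hg''⟩ := lift_free pm pm D.bd D.bd_eqv (D.K (i + 1))
        (D.stable (i + 1)) (g ∘ₗ dC X i) (hg.comp (dC_eqv X i)) (by
          intro j
          rw [LinearMap.comp_apply]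
          cases i with
          | zero =>
            apply D.exact_zero _ (hgm _)
            rw [hgg]
            exact epC_dC X _
          | succ i =>
            exact D.exact_succ i _ (hgm _) (hgg _))
      refine ⟨⟨g', hg', hgm', ?_⟩, hg''⟩
      intro x
      rw [hg'', LinearMap.comp_apply, dC_dC, map_zero])
  exact ⟨fun i => (F i).1, fun i => (F i).2.1, fun i => (F i).2.2.1, (F 0).2.2.2, hF⟩

theorem exists_h (c : ℕ → (Ω →₀ ℂ) →ₗ[ℂ] (Ω →₀ ℂ)) (hc : ∀ i, Eqv (G := G) pm pm (c i))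
    (hcm : ∀ i, ∀ x ∈ D.K i, c i x ∈ D.K i) (hc0 : ∀ x ∈ D.K 0, D.eps (c 0 x) = D.eps x)
    (hcS : ∀ i, ∀ x ∈ D.K (i + 1), D.bd (c (i + 1) x) = c i (D.bd x)) :
    ∃ h : ℕ → (Ω →₀ ℂ) →ₗ[ℂ] (Ω →₀ ℂ), (∀ i, Eqv (G := G) pm pm (h i)) ∧
      (∀ i x, h i x ∈ D.K (i + 1)) ∧ (∀ x ∈ D.K 0, D.bd (h 0 x) = c 0 x - x) ∧
      ∀ i, ∀ x ∈ D.K (i + 1), D.bd (h (i + 1) x) = c (i + 1) x - x - h i (D.bd x) := by
  obtain ⟨h0, hh0, hh0m, hh0'⟩ := lift_perm D.free pm pm D.bd D.bd_eqv (D.K 1) (D.stable 1)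
    ((c 0 - LinearMap.id) ∘ₗ D.π 0) (((hc 0).sub Eqv.id).comp (D.π_eqv 0)) (by
      intro x
      have hm := D.π_mem 0 (Finsupp.single x 1)
      apply D.exact_zero
      · exact (D.K 0).sub_mem (hcm 0 _ hm) hm
      · simp only [LinearMap.comp_apply, LinearMap.sub_apply, LinearMap.id_apply, map_sub]
        rw [hc0 _ hm, sub_self])
  have h0key : ∀ x ∈ D.K 0, D.bd (h0 x) = c 0 x - x := by
    intro x hx
    rw [hh0', LinearMap.comp_apply, D.π_id 0 x hx]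
    rfl
  obtain ⟨F, hF0, hF⟩ := dep_seq
    (α := fun i => {h : (Ω →₀ ℂ) →ₗ[ℂ] (Ω →₀ ℂ) // Eqv (G := G) pm pm h ∧
      (∀ x, h x ∈ D.K (i + 1)) ∧
      ∀ x ∈ D.K (i + 1), D.bd (h (D.bd x)) = c i (D.bd x) - D.bd x})
    (fun i h h' => ∀ x ∈ D.K (i + 1), D.bd (h'.1 x) = c (i + 1) x - x - h.1 (D.bd x))
    ⟨h0, hh0, hh0m, fun x hx => h0key _ (D.bd_mem 0 x hx)⟩ (by
      rintro i ⟨h, hh, hhm, hhg⟩
      obtain ⟨h', hh', hhm', hh''⟩ := lift_perm D.free pm pm D.bd D.bd_eqv (D.K (i + 2))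
        (D.stable (i + 2)) ((c (i + 1) - LinearMap.id - h ∘ₗ D.bd) ∘ₗ D.π (i + 1))
        ((((hc (i + 1)).sub Eqv.id).sub (hh.comp D.bd_eqv)).comp (D.π_eqv _)) (by
          intro x
          have hm := D.π_mem (i + 1) (Finsupp.single x 1)
          apply D.exact_succ i
          · exact (D.K (i + 1)).sub_mem ((D.K (i + 1)).sub_mem (hcm _ _ hm) hm) (hhm _)
          · simp only [LinearMap.comp_apply, LinearMap.sub_apply, LinearMap.id_apply, map_sub]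
            rw [hcS _ _ hm, hhg _ hm, sub_self])
      have key : ∀ x ∈ D.K (i + 1), D.bd (h' x) = c (i + 1) x - x - h (D.bd x) := by
        intro x hx
        rw [hh'', LinearMap.comp_apply, D.π_id _ x hx]
        rfl
      refine ⟨⟨h', hh', hhm', ?_⟩, key⟩
      intro x hx
      rw [key _ (D.bd_mem _ _ hx), D.bd_bd _ x hx, map_zero, sub_zero])
  refine ⟨fun i => (F i).1, fun i => (F i).2.1, fun i => (F i).2.2.1, ?_, hF⟩
  intro x hx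
  change D.bd ((F 0).1 x) = _
  rw [hF0]
  exact h0key x hx

theorem homK_zero (hX : ∀ i, Subsingleton (X.homology (toRed G) i))
    (φ : (Ω →₀ ℂ) →ₗ[ℂ] L2 G) (hφ : Eqv pm lC φ) (h0 : ∀ x ∈ D.K 1, φ (D.bd x) = 0) :
    ∀ x ∈ D.K 0, φ x = 0 := by
  obtain ⟨f, hf, hf0, hfS⟩ := exists_f D X
  obtain ⟨g, hg, hgm, hg0, hgS⟩ := exists_g D X
  obtain ⟨h, hh, hhm, hh0, hhS⟩ := exists_h D (fun i => g i ∘ₗ f i) (fun i => (hg i).comp (hf i))
    (fun i x _ => hgm i _) (fun x hx => by rw [LinearMap.comp_apply, hg0, hf0 x hx])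
    (fun i x hx => by rw [LinearMap.comp_apply, hgS, hfS i x hx]; rfl)
  have h1 : φ ∘ₗ g 0 = 0 := by
    refine homP_zero X hX _ (hφ.comp (hg 0)) fun x => ?_
    rw [LinearMap.comp_apply, ← hgS]
    exact h0 _ (hgm 1 _)
  intro x hx
  have h2 := h0 (h 0 x) (hhm 0 x)
  rw [hh0 x hx, map_sub, LinearMap.comp_apply] at h2
  have h3 := LinearMap.congr_fun h1 (f 0 x)
  rw [LinearMap.comp_apply] at h3
  rw [h3, LinearMap.zero_apply, zero_sub, neg_eq_zero] at h2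
  exact h2

theorem homK_succ (hX : ∀ i, Subsingleton (X.homology (toRed G) i)) (k : ℕ)
    (φ : (Ω →₀ ℂ) →ₗ[ℂ] L2 G) (hφ : Eqv pm lC φ) (h0 : ∀ x ∈ D.K (k + 2), φ (D.bd x) = 0) :
    ∃ ψ : (Ω →₀ ℂ) →ₗ[ℂ] L2 G, Eqv pm lC ψ ∧ ∀ x ∈ D.K (k + 1), φ x = ψ (D.bd x) := by
  obtain ⟨f, hf, hf0, hfS⟩ := exists_f D X
  obtain ⟨g, hg, hgm, hg0, hgS⟩ := exists_g D X
  obtain ⟨h, hh, hhm, hh0, hhS⟩ := exists_h D (fun i => g i ∘ₗ f i) (fun i => (hg i).comp (hf i))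
    (fun i x _ => hgm i _) (fun x hx => by rw [LinearMap.comp_apply, hg0, hf0 x hx])
    (fun i x hx => by rw [LinearMap.comp_apply, hgS, hfS i x hx]; rfl)
  obtain ⟨ψ, hψ, hψ'⟩ := homP_succ X hX k (φ ∘ₗ g (k + 1)) (hφ.comp (hg _)) (fun x => by
    rw [LinearMap.comp_apply, ← hgS]
    exact h0 _ (hgm _ _))
  refine ⟨ψ ∘ₗ f k - φ ∘ₗ h k, (hψ.comp (hf k)).sub (hφ.comp (hh k)), fun x hx => ?_⟩
  have h2 := h0 (h (k + 1) x) (hhm _ x)
  rw [hhS k x hx, map_sub, map_sub, LinearMap.comp_apply] at h2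
  have h3 := hψ' (f (k + 1) x)
  rw [LinearMap.comp_apply] at h3
  rw [h3, hfS k x hx] at h2
  rw [LinearMap.sub_apply, LinearMap.comp_apply, LinearMap.comp_apply]
  have h4 := sub_eq_zero.1 h2
  rw [← h4]
  abel

end Pool.Agent.Y476.ZB
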