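import Pool.Agent.TH5.BD.Para

/-!
Facts on Coxeter groups: exchange for two-sided multiplication, elements with a given set of right
descents, finiteness.
-/

set_option autoImplicit false
set_option linter.unusedSectionVars false

namespace Pool.Agent.Y476.ZB

open CoxeterSystem Pool.Agent.Helper703.Cox Pool.Agent.TH5.BD

variable {B : Type*} {M : CoxeterMatrix B} {W : Type*} [Group W] (cs : CoxeterSystem M W)

/-- If `s w > w`, `w t > w` and `ℓ (s w t) = ℓ w` then `s w = w t`. -/
lemma exchange_eq (i j : B) (w : W)
    (h2 : cs.length w < cs.length (w * cs.simple j))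
    (h3 : cs.length (cs.simple i * w * cs.simple j) = cs.length w)
    (h1 : cs.length w < cs.length (cs.simple i * w)) :
    cs.simple i * w = w * cs.simple j := by
  obtain ⟨ω, hω, rfl⟩ := cs.exists_isReduced w
  have hl : cs.length (cs.wordProd ω) = ω.length := hω
  have e1 : cs.wordProd (ω ++ [j]) = cs.wordProd ω * cs.simple j := by
    rw [cs.wordProd_append]; simp
  have h4 : cs.length (cs.simple i * cs.wordProd (ω ++ [j]))
      < cs.length (cs.wordProd (ω ++ [j])) := by
    rw [e1, ← mul_assoc, h3]; exact h2
  obtain ⟨k, hk, hk2⟩ := exchange cs (ω ++ [j]) i h4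
  rw [e1, ← mul_assoc] at hk2
  rw [List.length_append, List.length_singleton] at hk
  rcases Nat.lt_or_ge k ω.length with h5 | h5
  · rw [List.eraseIdx_append_of_lt_length h5, cs.wordProd_append] at hk2
    have h6 : cs.wordProd [j] = cs.simple j := by simp
    rw [h6] at hk2
    have h7 := mul_right_cancel hk2
    have h8 := cs.length_wordProd_le (ω.eraseIdx k)
    rw [← h7, List.length_eraseIdx_of_lt h5] at h8
    omega
  · have h6 : k = ω.length := by omega
    subst h6
    rw [List.eraseIdx_append_of_length_le h5] at hk2
    simp only [Nat.sub_self, List.eraseIdx_cons_zero, List.append_nil] at hk2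
    have h7 := congrArg (fun x => x * cs.simple j) hk2
    simpa using h7

lemma finite_length_le [Finite B] (n : ℕ) : {w : W | cs.length w ≤ n}.Finite := by
  have h1 : {w : W | cs.length w ≤ n} ⊆ ⋃ k ∈ Finset.range (n + 1),
      cs.wordProd '' {l : List B | l.length = k} := by
    intro w hw
    obtain ⟨ω, hω, rfl⟩ := cs.exists_isReduced w
    have hl : cs.length (cs.wordProd ω) = ω.length := hω
    rw [Set.mem_setOf_eq, hl] at hw
    simp only [Finset.mem_range, Set.mem_iUnion, exists_prop]
    exact ⟨ω.length, by omega, ω, rfl, rfl⟩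
  refine Set.Finite.subset (Set.Finite.biUnion (Finset.finite_toSet _) fun k _ => ?_) h1
  exact (List.finite_length_eq B k).image _

variable {cs}

section
variable [Fintype B] [DecidableEq B]

/-- if all elements of `I` are right descents of `w`, then `ℓ(w u) = ℓ(w) - ℓ(u)` on `W_I` -/
lemma top_length {I : Set B} {w : W} (hw : ∀ i ∈ I, cs.length (w * cs.simple i) < cs.length w) :
    ∀ (n : ℕ) (u : W), cs.length u = n → u ∈ Par cs I →
      cs.length (w * u) + cs.length u = cs.length w := by
  intro n
  induction n with
  | zero =>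
    intro u hu _
    rw [cs.length_eq_zero_iff] at hu
    subst hu
    simp
  | succ n ih =>
    intro c hc hcJ
    have h1 : c ≠ 1 := by
      rintro rfl
      rw [cs.length_one] at hc
      omega
    obtain ⟨i, hi, h⟩ := par_rdescent hcJ h1
    obtain ⟨c', hc'⟩ : ∃ c', c' = c * cs.simple i := ⟨_, rfl⟩
    have e : c = c' * cs.simple i := by rw [hc', cs.simple_mul_simple_cancel_right]
    rw [← hc'] at h
    have hc'J : c' ∈ Par cs I := by
      rw [hc']; exact Subgroup.mul_mem _ hcJ (simple_mem_par hi)
    have hl : cs.length c = cs.length c' + 1 := by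
      rw [e] at h ⊢
      rcases cs.length_mul_simple c' i with h | h <;> omega
    have ih' := ih c' (by omega) hc'J
    have h2 : 0 ≤ geo cs c' (ee i) := by
      apply Pool.Agent.Helper703.Cox.geo_nonneg
      rw [← e]; exact h
    have h3 : ∀ j, j ∉ I → geo cs c' (ee i) j = 0 := by
      intro j hj
      rw [par_geo hc'J _ j hj]
      have : j ≠ i := by rintro rfl; exact hj hi
      simp [ee, this]
    have h4 : geo cs (w * c') (ee i) ≤ 0 := by
      rw [map_mul, Module.End.mul_apply]
      obtain ⟨v, hv⟩ : ∃ v, v = geo cs c' (ee i) := ⟨_, rfl⟩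
      rw [← hv] at h2 h3 ⊢
      have e2 : v = ∑ i, v i • (ee i : B → ℝ) := by
        funext j
        simp [ee, Finset.sum_apply, Pi.single_apply]
      rw [e2, map_sum]
      refine Finset.sum_nonpos fun k _ => ?_
      rw [map_smul]
      by_cases hk : k ∈ I
      · exact smul_nonpos_of_nonneg_of_nonpos (h2 k) (geo_nonpos cs w k (hw k hk))
      · rw [h3 k hk, zero_smul]
    have h5 := (geo_nonpos_iff cs (w * c') i).1 h4
    rw [e, ← mul_assoc]
    rw [e] at hl
    rcases cs.length_mul_simple (w * c') i with h | h <;> omega

lemma top_mul {I : Set B} {w : W} (hw : ∀ i ∈ I, cs.length (w * cs.simple i) < cs.length w)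
    {u : W} (hu : u ∈ Par cs I) : cs.length (w * u) + cs.length u = cs.length w :=
  top_length hw _ u rfl hu

lemma par_finite_of_top {I : Set B} {w : W}
    (hw : ∀ i ∈ I, cs.length (w * cs.simple i) < cs.length w) :
    ((Par cs I : Subgroup W) : Set W).Finite := by
  refine (finite_length_le cs (cs.length w)).subset fun u hu => ?_
  have := top_mul hw hu
  simp only [Set.mem_setOf_eq]
  omega

end

end Pool.Agent.Y476.ZB
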