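import Pool.Agent.Y476.ZB.Eul

/-!
Deformation of the weights.
-/

set_option autoImplicit false
set_option linter.unusedSectionVars false

namespace Pool.Agent.Y476.ZB

open CoxeterSystem Pool.Agent.TH5.BD
open scoped InnerProductSpace InnerProduct Topology

variable {B : Type*} {M : CoxeterMatrix B} {W : Type*} [Group W]
variable {cs : CoxeterSystem M W} (p : Wt cs)

namespace Wt

/-- the deformed weights -/
noncomputable def dfm (r : ℝ) (hr : 0 < r) : Wt cs where
  a s := p.a s / r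
  A w := p.A w / r ^ cs.length w
  A_one := by rw [p.A_one, cs.length_one, pow_zero, div_one]
  A_pos w := div_pos (p.A_pos w) (pow_pos hr _)
  a_pos s := div_pos (p.a_pos s) hr
  A_mul w s h := by
    rw [p.A_mul w s h, h, pow_succ, mul_div_mul_comm]
  A_mul' w s h := by
    rw [p.A_mul' w s h, h, pow_succ', mul_div_mul_comm]

/-- the length of the shortest element of a coset -/
noncomputable def ml (cs : CoxeterSystem M W) (T : Finset B) (w : W) : ℕ :=
  sInf ((fun u => cs.length (w * u)) '' (Par cs (T : Set B) : Set W))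

lemma ml_le (T : Finset B) (w : W) : ml cs T w ≤ cs.length w :=
  Nat.sInf_le ⟨1, Subgroup.one_mem _, by simp⟩

lemma ml_mul (T : Finset B) (w : W) {s : B} (hs : s ∈ T) : ml cs T (w * cs.simple s) = ml cs T w := by
  unfold ml
  congr 1
  ext n
  constructor
  · rintro ⟨u, hu, rfl⟩
    exact ⟨cs.simple s * u, Subgroup.mul_mem _ (simple_mem_par (by exact_mod_cast hs)) hu, by
      simp [mul_assoc]⟩
  · rintro ⟨u, hu, rfl⟩
    exact ⟨cs.simple s * u, Subgroup.mul_mem _ (simple_mem_par (by exact_mod_cast hs)) hu, by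
      simp [mul_assoc]⟩

lemma exists_ml (T : Finset B) (w : W) :
    ∃ u ∈ Par cs (T : Set B), cs.length (w * u) = ml cs T w := by
  have h : ((fun u => cs.length (w * u)) '' (Par cs (T : Set B) : Set W)).Nonempty :=
    ⟨_, 1, Subgroup.one_mem _, rfl⟩
  obtain ⟨u, hu, h⟩ := Nat.sInf_mem h
  exact ⟨u, hu, h⟩

/-- the maximal length of the elements of finite special subgroups -/
noncomputable def Lm [Fintype B] (cs : CoxeterSystem M W) : ℕ :=
  (Finset.univ : Finset (Finset B)).sup fun T => (parF cs T).sup cs.length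

lemma le_Lm [Fintype B] {T : Finset B} (hT : Sph cs T) {u : W} (hu : u ∈ Par cs (T : Set B)) :
    cs.length u ≤ Lm cs := by
  have h1 : cs.length u ≤ (parF cs T).sup cs.length := Finset.le_sup ((mem_parF hT).2 hu)
  exact h1.trans (Finset.le_sup (f := fun T => (parF cs T).sup cs.length) (Finset.mem_univ T))

open Classical in
/-- the exponent -/
noncomputable def ee (cs : CoxeterSystem M W) (x : Om B W) : ℕ :=
  if Sph cs x.T then cs.length x.c - ml cs x.T x.c else 0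

lemma ee_le [Fintype B] (x : Om B W) : ee cs x ≤ Lm cs := by
  unfold ee
  split_ifs with h
  · obtain ⟨u, hu, h1⟩ := exists_ml (cs := cs) x.T x.c
    have h2 := le_Lm h hu
    have h3 : cs.length x.c ≤ cs.length (x.c * u) + cs.length u := by
      have := cs.length_mul_le (x.c * u) u⁻¹
      rw [mul_inv_cancel_right, cs.length_inv] at this
      exact this
    omega
  · exact Nat.zero_le _

lemma ee_bound [Fintype B] (r : ℝ) (x : Om B W) :
    ‖((r : ℂ)) ^ ee cs x‖ ≤ (1 + |r|) ^ Lm cs := by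
  rw [norm_pow, Complex.norm_real, Real.norm_eq_abs]
  calc |r| ^ ee cs x ≤ (1 + |r|) ^ ee cs x :=
        pow_le_pow_left₀ (abs_nonneg r) (by linarith [abs_nonneg r]) _
    _ ≤ (1 + |r|) ^ Lm cs := pow_le_pow_right₀ (by linarith [abs_nonneg r]) (ee_le x)

/-- the multiplication operators -/
noncomputable def mu [Fintype B] (cs : CoxeterSystem M W) (r : ℝ) : EL (Om B W) →L[ℂ] EL (Om B W) :=
  mo (fun x => (r : ℂ) ^ ee cs x) ((1 + |r|) ^ Lm cs) (ee_bound r)

lemma mu_apply [Fintype B] (r : ℝ) (f : EL (Om B W)) (x : Om B W) :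
    mu cs r f x = (r : ℂ) ^ ee cs x * f x := rfl

lemma mu_mu [Fintype B] {r : ℝ} (hr : r ≠ 0) (f : EL (Om B W)) : mu cs r⁻¹ (mu cs r f) = f := by
  ext x
  rw [mu_apply, mu_apply, ← mul_assoc, ← mul_pow]
  have : (((r⁻¹ : ℝ) : ℂ)) * r = 1 := by
    have h : (r : ℂ) ≠ 0 := by exact_mod_cast hr
    push_cast
    field_simp
  rw [this, one_pow, one_mul]

lemma mu_mu' [Fintype B] {r : ℝ} (hr : r ≠ 0) (f : EL (Om B W)) : mu cs r (mu cs r⁻¹ f) = f := by
  have := mu_mu (cs := cs) (inv_ne_zero hr) f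
  rwa [inv_inv] at this

lemma mu_mem [Fintype B] {r : ℝ} (hr : 0 < r) {f : EL (Om B W)} (hf : f ∈ p.V) :
    mu cs r f ∈ (p.dfm r hr).V := by
  rw [mem_V] at hf ⊢
  constructor
  · intro T hT w
    rw [mu_apply, hf.1 T hT, mul_zero]
  · intro T s hs w
    rw [mu_apply, mu_apply]
    by_cases hT : Sph cs T
    · have h1 := hf.2 T s hs w
      have h2 : ∀ w : W, ee cs ⟨T, w⟩ + ml cs T w = cs.length w := by
        intro w
        unfold ee
        rw [if_pos hT]
        have := ml_le (cs := cs) T w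
        dsimp only
        omega
      have h3 : ∀ w : W, (((p.dfm r hr).A w : ℝ) : ℂ) * (r : ℂ) ^ ee cs ⟨T, w⟩ =
          p.A w * ((r : ℂ) ^ ml cs T w)⁻¹ := by
        intro w
        have hr' : (r : ℂ) ≠ 0 := by exact_mod_cast hr.ne'
        change ((p.A w / r ^ cs.length w : ℝ) : ℂ) * _ = _
        rw [← h2 w]
        push_cast
        rw [pow_add]
        field_simp
      rw [← mul_assoc, ← mul_assoc, h3, h3, ml_mul T w hs]
      linear_combination ((r : ℂ) ^ ml cs T w)⁻¹ * h1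
    · rw [hf.1 T hT, hf.1 T hT]
      simp

lemma mu_mem' [Fintype B] {r : ℝ} (hr : 0 < r) {f : EL (Om B W)} (hf : f ∈ (p.dfm r hr).V) :
    mu cs r⁻¹ f ∈ p.V := by
  rw [mem_V] at hf ⊢
  constructor
  · intro T hT w
    rw [mu_apply, hf.1 T hT, mul_zero]
  · intro T s hs w
    rw [mu_apply, mu_apply]
    by_cases hT : Sph cs T
    · have h1 := hf.2 T s hs w
      have h2 : ∀ w : W, ee cs ⟨T, w⟩ + ml cs T w = cs.length w := by
        intro w
        unfold ee
        rw [if_pos hT]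
        have := ml_le (cs := cs) T w
        dsimp only
        omega
      have h3 : ∀ w : W, (p.A w : ℂ) * ((r⁻¹ : ℝ) : ℂ) ^ ee cs ⟨T, w⟩ =
          (((p.dfm r hr).A w : ℝ) : ℂ) * ((r : ℂ) ^ ml cs T w) := by
        intro w
        have hr' : (r : ℂ) ≠ 0 := by exact_mod_cast hr.ne'
        change _ = ((p.A w / r ^ cs.length w : ℝ) : ℂ) * _
        rw [← h2 w]
        push_cast
        rw [pow_add, inv_pow]
        field_simp
      rw [← mul_assoc, ← mul_assoc, h3, h3, ml_mul T w hs]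
      linear_combination ((r : ℂ) ^ ml cs T w) * h1
    · rw [hf.1 T hT, hf.1 T hT]
      simp

lemma mu_tendsto [Fintype B] : Filter.Tendsto (mu cs) (𝓝 1) (𝓝 (1 : EL (Om B W) →L[ℂ] EL (Om B W))) := by
  obtain ⟨κ, hκ⟩ : ∃ κ : ℝ → ℝ, κ = fun r => ∑ e ∈ Finset.range (Lm cs + 1), |r ^ e - 1| :=
    ⟨_, rfl⟩
  have h0 : ∀ r, 0 ≤ κ r := by
    intro r
    rw [hκ]
    exact Finset.sum_nonneg fun _ _ => abs_nonneg _
  have h1 : ∀ r : ℝ, ∀ x : Om B W, ‖(r : ℂ) ^ ee cs x - 1‖ ≤ κ r := by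
    intro r x
    have e1 : ‖(r : ℂ) ^ ee cs x - 1‖ = |r ^ ee cs x - 1| := by
      have : (r : ℂ) ^ ee cs x - 1 = ((r ^ ee cs x - 1 : ℝ) : ℂ) := by push_cast; rfl
      rw [this, Complex.norm_real, Real.norm_eq_abs]
    rw [e1, hκ]
    refine Finset.single_le_sum (f := fun e => |r ^ e - 1|) (fun _ _ => abs_nonneg _) ?_
    rw [Finset.mem_range]
    have := ee_le (cs := cs) x
    omega
  have h2 : ∀ r, mu cs r - 1 = mo (fun x => (r : ℂ) ^ ee cs x - 1) (κ r) (h1 r) := by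
    intro r
    refine ContinuousLinearMap.ext fun f => ?_
    ext x
    rw [sub_apply, lp.coeFn_sub, Pi.sub_apply, mu_apply, mo_apply]
    change _ - f x = _
    ring
  have h3 : Filter.Tendsto κ (𝓝 1) (𝓝 0) := by
    have h4 : κ 1 = 0 := by rw [hκ]; simp
    rw [← h4]
    have h5 : Continuous κ := by
      rw [hκ]
      exact continuous_finsetSum _ fun _ _ => ((continuous_id.pow _).sub continuous_const).abs
    exact h5.tendsto 1
  rw [tendsto_iff_norm_sub_tendsto_zero]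
  refine squeeze_zero (fun _ => norm_nonneg _) (fun r => ?_) h3
  rw [h2]
  exact (mo_norm_le _ _ _).trans (le_of_eq (abs_of_nonneg (h0 r)))

section

variable [Fintype B] [LinearOrder B]

/-- the conjugated differential -/
noncomputable def Dr (r : ℝ) : p.V →L[ℂ] p.V :=
  p.V.orthogonalProjectionOnto ∘L ((mu cs r⁻¹ ∘L DL ∘L mu cs r) ∘L p.V.subtypeL)

lemma Dr_coe {r : ℝ} (hr : 0 < r) (f : p.V) :
    (p.Dr r f : EL (Om B W)) = mu cs r⁻¹ (DL (mu cs r (f : EL (Om B W)))) := by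
  have h1 : mu cs r⁻¹ (DL (mu cs r (f : EL (Om B W)))) ∈ p.V :=
    p.mu_mem' hr ((p.dfm r hr).DL_mem (p.mu_mem hr f.2))
  have h2 : p.Dr r f = p.V.orthogonalProjectionOnto
    (((⟨_, h1⟩ : p.V) : EL (Om B W))) := rfl
  rw [h2, proj_coe]

lemma Dr_tendsto : Filter.Tendsto p.Dr (𝓝 1) (𝓝 p.DB) := by
  have h1 : Filter.Tendsto (fun r => mu cs r⁻¹ ∘L DL ∘L mu cs r) (𝓝 1)
      (𝓝 ((1 : EL (Om B W) →L[ℂ] EL (Om B W)) ∘L DL ∘L 1)) := by
    have h2 : Filter.Tendsto (fun r : ℝ => mu cs r⁻¹) (𝓝 1)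
        (𝓝 (1 : EL (Om B W) →L[ℂ] EL (Om B W))) := by
      refine mu_tendsto.comp ?_
      have := tendsto_inv₀ (one_ne_zero (α := ℝ))
      rwa [inv_one] at this
    have h3 : Filter.Tendsto (fun r : ℝ => (DL : EL (Om B W) →L[ℂ] EL (Om B W)) * mu cs r) (𝓝 1)
        (𝓝 (DL * 1)) := tendsto_const_nhds.mul mu_tendsto
    exact h2.mul h3
  have h2 : p.DB = p.V.orthogonalProjectionOnto ∘L
      (((1 : EL (Om B W) →L[ℂ] EL (Om B W)) ∘L DL ∘L 1) ∘L p.V.subtypeL) := by
    refine ContinuousLinearMap.ext fun f => ?_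
    change _ = p.V.orthogonalProjectionOnto (DL (f : EL (Om B W)))
    rw [← DB_coe, proj_coe]
  rw [h2]
  have h3 : Continuous (fun F : EL (Om B W) →L[ℂ] EL (Om B W) =>
      p.V.orthogonalProjectionOnto ∘L (F ∘L p.V.subtypeL)) := by fun_prop
  exact (h3.tendsto _).comp h1

theorem exact_near (hex : ∀ x : p.V, p.DB x = 0 → ∃ y, p.DB y = x) :
    ∀ᶠ r in 𝓝 (1 : ℝ), ∃ hr : 0 < r,
      ∀ x : (p.dfm r hr).V, (p.dfm r hr).DB x = 0 → ∃ y, (p.dfm r hr).DB y = x := by
  have hpos : ∀ᶠ r in 𝓝 (1 : ℝ), 0 < r := lt_mem_nhds one_pos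
  have h1 := eventually_exact p.Dr p.DB (l := 𝓝 1) (by
    filter_upwards [hpos] with r hr x
    apply Subtype.ext
    rw [p.Dr_coe hr, p.Dr_coe hr, mu_mu' hr.ne', DL_DL, map_zero]
    rfl) p.DB_DB hex p.Dr_tendsto
  filter_upwards [hpos, h1] with r hr h2
  refine ⟨hr, fun x hx => ?_⟩
  obtain ⟨y, hy⟩ := h2 ⟨_, p.mu_mem' hr x.2⟩ (by
    apply Subtype.ext
    rw [p.Dr_coe hr]
    change mu cs r⁻¹ (DL (mu cs r (mu cs r⁻¹ (x : EL (Om B W))))) = 0
    rw [mu_mu' hr.ne', ← DB_coe, hx]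
    exact map_zero _)
  refine ⟨⟨_, p.mu_mem hr y.2⟩, ?_⟩
  have h3 := congrArg (fun z : p.V => mu cs r (z : EL (Om B W))) hy
  dsimp only at h3
  rw [p.Dr_coe hr, mu_mu' hr.ne', mu_mu' hr.ne'] at h3
  exact Subtype.ext h3

end

end Wt

end Pool.Agent.Y476.ZB
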