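import Mathlib

/-!
Operators on `ℓ²(Ω)`.
-/

set_option autoImplicit false
set_option linter.unusedSectionVars false

namespace Pool.Agent.Y476.ZB

open scoped InnerProductSpace

/-- `ℓ²(Ω)` -/
noncomputable abbrev EL (Ω : Type*) := lp (fun _ : Ω => ℂ) 2

variable {Ω : Type*}

lemma mem2_iff {f : Ω → ℂ} : Memℓp f 2 ↔ Summable fun x => ‖f x‖ ^ 2 := by
  rw [memℓp_gen_iff (by norm_num)]
  simp

lemma EL.sq (f : EL Ω) : ‖f‖ ^ 2 = ∑' x, ‖f x‖ ^ 2 := by
  have h := lp.norm_rpow_eq_tsum (p := 2) (by norm_num) f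
  simpa using h

lemma EL.summable (f : EL Ω) : Summable fun x => ‖f x‖ ^ 2 := mem2_iff.1 (lp.memℓp f)

/-- permutation operators -/
noncomputable def pu (σ : Equiv.Perm Ω) : EL Ω →L[ℂ] EL Ω :=
  LinearMap.mkContinuous
    { toFun := fun f => ⟨fun x => f (σ x), mem2_iff.2 ((EL.summable f).comp_injective σ.injective)⟩
      map_add' := fun f g => by ext x; rfl
      map_smul' := fun r f => by ext x; rfl } 1 (by
    intro f
    rw [one_mul]
    apply le_of_eq
    have h : ‖(⟨fun x => f (σ x), mem2_iff.2 ((EL.summable f).comp_injective σ.injective)⟩ :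
        EL Ω)‖ ^ 2 = ‖f‖ ^ 2 := by
      rw [EL.sq, EL.sq]
      exact Equiv.tsum_eq σ (fun x => ‖f x‖ ^ 2)
    exact (pow_left_inj₀ (norm_nonneg _) (norm_nonneg _) two_ne_zero).1 h)

@[simp] lemma pu_apply (σ : Equiv.Perm Ω) (f : EL Ω) (x : Ω) : pu σ f x = f (σ x) := rfl

lemma mo_aux (m : Ω → ℂ) (K : ℝ) (hm : ∀ x, ‖m x‖ ≤ K) (f : EL Ω) (x : Ω) :
    ‖m x * f x‖ ^ 2 ≤ K ^ 2 * ‖f x‖ ^ 2 := by
  rw [norm_mul, mul_pow]
  have h0 := norm_nonneg (m x)
  have h1 := hm x
  gcongr

/-- multiplication operators -/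
noncomputable def mo (m : Ω → ℂ) (K : ℝ) (hm : ∀ x, ‖m x‖ ≤ K) : EL Ω →L[ℂ] EL Ω :=
  LinearMap.mkContinuous
    { toFun := fun f => ⟨fun x => m x * f x, mem2_iff.2
        (Summable.of_nonneg_of_le (fun _ => by positivity) (mo_aux m K hm f)
          ((EL.summable f).mul_left _))⟩
      map_add' := fun f g => by
        ext x
        change m x * (f x + g x) = m x * f x + m x * g x
        ring
      map_smul' := fun r f => by
        ext x
        change m x * (r * f x) = r * (m x * f x)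
        ring } |K| (by
    intro f
    refine abs_le_of_sq_le_sq' ?_ (by positivity) |>.2
    rw [EL.sq, mul_pow, EL.sq, sq_abs, ← tsum_mul_left]
    exact Summable.tsum_le_tsum (mo_aux m K hm f)
      (Summable.of_nonneg_of_le (fun _ => by positivity) (mo_aux m K hm f)
          ((EL.summable f).mul_left _)) ((EL.summable f).mul_left _))

@[simp] lemma mo_apply (m : Ω → ℂ) (K : ℝ) (hm : ∀ x, ‖m x‖ ≤ K) (f : EL Ω) (x : Ω) :
    mo m K hm f x = m x * f x := rfl

lemma mo_norm_le (m : Ω → ℂ) (K : ℝ) (hm : ∀ x, ‖m x‖ ≤ K) : ‖mo m K hm‖ ≤ |K| :=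
  LinearMap.mkContinuous_norm_le _ (abs_nonneg K) _

open Classical in
/-- the basis vectors -/
noncomputable def eb (x : Ω) : EL Ω := lp.single 2 x 1

open Classical in
lemma eb_apply (x y : Ω) : eb x y = if y = x then 1 else 0 := by
  unfold eb
  rw [lp.single_apply, Pi.single_apply]

lemma eb_self (x : Ω) : eb x x = 1 := by
  classical
  rw [eb_apply, if_pos rfl]

lemma eb_ne {x y : Ω} (h : y ≠ x) : eb x y = 0 := by
  classical
  rw [eb_apply, if_neg h]

lemma inner_eb (x : Ω) (f : EL Ω) : ⟪eb x, f⟫_ℂ = f x := by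
  classical
  unfold eb
  rw [lp.inner_single_left]
  simp

lemma inner_eb' (x : Ω) (f : EL Ω) : ⟪f, eb x⟫_ℂ = star (f x) := by
  rw [← inner_conj_symm, inner_eb]
  rfl

/-- finitely supported functions as elements of `ℓ²` -/
noncomputable def io : (Ω →₀ ℂ) →ₗ[ℂ] EL Ω := Finsupp.linearCombination ℂ (fun x => eb x)

lemma io_single (x : Ω) (r : ℂ) : io (Finsupp.single x r) = r • eb x := by
  rw [io, Finsupp.linearCombination_single]

@[simp] lemma io_apply (h : Ω →₀ ℂ) (x : Ω) : io h x = h x := by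
  classical
  induction h using Finsupp.induction_linear with
  | zero => simp
  | add f g hf hg => rw [map_add, lp.coeFn_add, Pi.add_apply, hf, hg, Finsupp.add_apply]
  | single y r =>
    rw [io_single, lp.coeFn_smul, Pi.smul_apply, eb_apply, Finsupp.single_apply]
    by_cases h : x = y
    · rw [if_pos h, if_pos h.symm]; simp
    · rw [if_neg h, if_neg (fun h' => h h'.symm)]; simp

/-- the bilinear pairing -/
noncomputable def pair (β : Ω → ℂ) : (Ω →₀ ℂ) →ₗ[ℂ] ℂ := Finsupp.linearCombination ℂ β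

lemma pair_single (β : Ω → ℂ) (x : Ω) (r : ℂ) : pair β (Finsupp.single x r) = r * β x := by
  rw [pair, Finsupp.linearCombination_single, smul_eq_mul]

lemma inner_io (f : EL Ω) (h : Ω →₀ ℂ) : ⟪f, io h⟫_ℂ = pair (fun x => star (f x)) h := by
  induction h using Finsupp.induction_linear with
  | zero => simp
  | add f g hf hg => rw [map_add, inner_add_right, hf, hg, map_add]
  | single y r =>
    rw [io_single, inner_smul_right, inner_eb', pair_single]

lemma EL_sum_apply {ι : Type*} (s : Finset ι) (f : ι → EL Ω) (x : Ω) :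
    (∑ i ∈ s, f i) x = ∑ i ∈ s, f i x := by
  rw [lp.coeFn_sum, Finset.sum_apply]

end Pool.Agent.Y476.ZB
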