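import Pool.Agent.Y476.ZB.Comp
import Pool.Agent.Y476.ZB.Ell

/-!
Transfer of the vanishing of the homology to square summable cochains.
-/

set_option autoImplicit false
set_option linter.unusedSectionVars false

namespace Pool.Agent.Y476.ZB

open Pool.Agent.H919R4.ZS Pool.Agent.TH38.ZT

variable {G : Type*} [Group G] {Ω : Type*} [MulAction G Ω] (D : KData G Ω) (X : FinRes G)

/-- the equivariant map of a cochain -/
noncomputable def Psi (β : Ω → ℂ) (hβ : ∀ y, Memℓp (fun g : G => β (g⁻¹ • y)) 2) :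
    (Ω →₀ ℂ) →ₗ[ℂ] L2 G :=
  Finsupp.linearCombination ℂ (fun y => (⟨fun g => β (g⁻¹ • y), hβ y⟩ : L2 G))

lemma Psi_single (β : Ω → ℂ) (hβ : ∀ y, Memℓp (fun g : G => β (g⁻¹ • y)) 2) (y : Ω) (r : ℂ)
    (g : G) : Psi β hβ (Finsupp.single y r) g = r * β (g⁻¹ • y) := by
  rw [Psi, Finsupp.linearCombination_single]
  rfl

lemma Psi_apply (β : Ω → ℂ) (hβ : ∀ y, Memℓp (fun g : G => β (g⁻¹ • y)) 2) (a : Ω →₀ ℂ) (g : G) :
    Psi β hβ a g = pair β (pm g⁻¹ a) := by
  induction a using Finsupp.induction_linear with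
  | zero => simp
  | add f h hf hh => rw [map_add, lp.coeFn_add, Pi.add_apply, hf, hh, map_add, map_add]
  | single y r => rw [Psi_single, pm_single, pair_single]

lemma Psi_eqv (β : Ω → ℂ) (hβ : ∀ y, Memℓp (fun g : G => β (g⁻¹ • y)) 2) :
    Eqv (G := G) pm lC (Psi β hβ) := by
  intro h a
  ext g
  rw [lC_apply, Psi_apply, Psi_apply, mul_inv_rev, inv_inv, map_mul]
  rfl

lemma free_mem {β : Ω → ℂ} (hfree : ∀ (g : G) (x : Ω), g • x = x → g = 1) (hβ : Memℓp β 2)
    (y : Ω) : Memℓp (fun g : G => β (g⁻¹ • y)) 2 := by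
  rw [mem2_iff] at hβ ⊢
  refine hβ.comp_injective (i := fun g : G => g⁻¹ • y) ?_
  intro g h hgh
  have h1 : (h * g⁻¹) • y = y := by
    rw [mul_smul]
    change h • g⁻¹ • y = y
    rw [show g⁻¹ • y = h⁻¹ • y from hgh, smul_inv_smul]
  have h2 := hfree _ _ h1
  exact (mul_inv_eq_one.1 h2).symm

theorem tr_zero (hX : ∀ i, Subsingleton (X.homology (toRed G) i)) (β : Ω → ℂ)
    (hβ : Memℓp β 2) (h0 : ∀ a ∈ D.K 1, pair β (D.bd a) = 0) : ∀ a ∈ D.K 0, pair β a = 0 := by
  intro a ha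
  have hβ' := free_mem D.free hβ
  have h1 := homK_zero D X hX (Psi β hβ') (Psi_eqv _ _) (by
    intro x hx
    ext g
    rw [Psi_apply, ← D.bd_eqv, h0 _ (D.stable 1 _ _ hx)]
    rfl) a ha
  have h2 := congrArg (fun v : L2 G => v 1) h1
  simp only [Psi_apply, inv_one, map_one] at h2
  exact h2

theorem tr_succ (hX : ∀ i, Subsingleton (X.homology (toRed G) i)) (k : ℕ) {R : Type*} [Finite R]
    (r : R → Ω) (hr : ∀ x : Ω, ∃ (g : G) (i : R), g • r i = x) (β : Ω → ℂ)
    (hβ : Memℓp β 2) (h0 : ∀ a ∈ D.K (k + 2), pair β (D.bd a) = 0) :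
    ∃ β' : Ω → ℂ, Memℓp β' 2 ∧ ∀ a ∈ D.K (k + 1), pair β' (D.bd a) = pair β a := by
  have hβ' := free_mem D.free hβ
  obtain ⟨ψ, hψ, hψ'⟩ := homK_succ D X hX k (Psi β hβ') (Psi_eqv _ _) (by
    intro x hx
    ext g
    rw [Psi_apply, ← D.bd_eqv, h0 _ (D.stable _ _ _ hx)]
    rfl)
  obtain ⟨β', hβ1⟩ : ∃ β' : Ω → ℂ, ∀ x, β' x = ψ (Finsupp.single x 1) 1 := ⟨_, fun _ => rfl⟩
  have hp : ∀ a, pair β' a = ψ a 1 := by
    intro a
    induction a using Finsupp.induction_linear with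
    | zero => simp
    | add f h hf hh => rw [map_add, hf, hh, map_add, lp.coeFn_add, Pi.add_apply]
    | single y s =>
      rw [pair_single, hβ1]
      have : Finsupp.single y s = s • Finsupp.single y (1 : ℂ) := by simp
      rw [this, map_smul]
      rfl
  refine ⟨β', ?_, ?_⟩
  · have h1 : ∀ (g : G) x, β' (g • x) = ψ (Finsupp.single x 1) g⁻¹ := by
      intro g x
      rw [hβ1, ← pm_single, hψ, lC_apply, mul_one]
    rw [mem2_iff]
    choose gg ii hgi using hr
    have h2 : Summable (fun p : Σ _ : R, G => ‖β' (p.2 • r p.1)‖ ^ 2) := by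
      rw [summable_sigma_of_nonneg (fun _ => by positivity)]
      refine ⟨fun i => ?_, Summable.of_finite⟩
      have h3 := (mem2_iff.1 (lp.memℓp (ψ (Finsupp.single (r i) 1)))).comp_injective
        (i := fun g : G => g⁻¹) inv_injective
      refine h3.congr fun g => ?_
      rw [h1]
      rfl
    have h3 := h2.comp_injective (i := fun x : Ω => (⟨ii x, gg x⟩ : Σ _ : R, G)) (by
      intro x y hxy
      have h4 := congrArg Sigma.fst hxy
      have h5 : gg x = gg y := by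
        simp only [Sigma.mk.injEq, heq_eq_eq] at hxy
        exact hxy.2
      rw [← hgi x, ← hgi y, h5]
      rw [show ii x = ii y from h4])
    refine h3.congr fun x => ?_
    change ‖β' (gg x • r (ii x))‖ ^ 2 = _
    rw [hgi]
  · intro a ha
    rw [hp, ← hψ' a ha, Psi_apply, inv_one, map_one]
    rfl

end Pool.Agent.Y476.ZB
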