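import Pool.Agent.Y476.ZB.Eul
import Pool.Agent.Y476.ZB.Fun

/-!
Transfer of exactness from a building to its Coxeter group.
-/

set_option autoImplicit false
set_option linter.unusedSectionVars false

namespace Pool.Agent.Y476.ZB

open CoxeterSystem Pool.Agent.TH5.BD Pool.Agent.H919R4.ZS Pool.Agent.TH38.ZT
open scoped InnerProductSpace InnerProduct

variable {B : Type*} {M : CoxeterMatrix B} {W : Type*} [Group W]
variable {cs : CoxeterSystem M W}

namespace Wt

section gr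

variable (p : Wt cs) [Fintype B] [LinearOrder B]

/-- the homogeneous components -/
noncomputable def gr (k : ℕ) : EL (Om B W) →L[ℂ] EL (Om B W) :=
  mo (fun x : Om B W => if x.T.card = k then 1 else 0) 1 (by
    intro x
    split_ifs <;> simp)

lemma gr_apply (k : ℕ) (f : EL (Om B W)) (T : Finset B) (w : W) :
    gr k f ⟨T, w⟩ = (if T.card = k then 1 else 0) * f ⟨T, w⟩ := rfl

lemma gr_symm (k : ℕ) (f g : EL (Om B W)) : ⟪gr k f, g⟫_ℂ = ⟪f, gr k g⟫_ℂ := by
  unfold gr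
  refine inner_mo _ _ _ (fun x => ?_) _ _
  split_ifs <;> simp

lemma gr_DL (k : ℕ) (f : EL (Om B W)) : gr k (DL f) = DL (gr (k + 1) f) := by
  ext ⟨T, w⟩
  rw [gr_apply, DL_apply, DL_apply]
  unfold dd
  rw [Finset.mul_sum]
  refine Finset.sum_congr rfl fun i _ => ?_
  by_cases h : i ∉ T
  · rw [if_pos h, if_pos h]
    change _ * (sgn i T * f ⟨insert i T, w⟩) = sgn i T *
      ((if (insert i T).card = k + 1 then 1 else 0) * f ⟨insert i T, w⟩)
    rw [Finset.card_insert_of_notMem h]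
    simp only [Nat.add_right_cancel_iff]
    ring
  · rw [if_neg h, if_neg h, mul_zero]

lemma gr_mem (k : ℕ) {f : EL (Om B W)} (hf : f ∈ p.V) : gr k f ∈ p.V := by
  rw [p.mem_V] at hf ⊢
  constructor
  · intro T hT w
    rw [gr_apply, hf.1 T hT, mul_zero]
  · intro T s hs w
    rw [gr_apply, gr_apply]
    linear_combination (if T.card = k then 1 else 0) * hf.2 T s hs w

/-- the homogeneous components -/
noncomputable def gk (k : ℕ) : p.V →L[ℂ] p.V :=
  (gr k ∘L p.V.subtypeL).codRestrict p.V (fun f => p.gr_mem k f.2)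

lemma gk_coe (k : ℕ) (f : p.V) : (p.gk k f : EL (Om B W)) = gr k (f : EL (Om B W)) := rfl

lemma gk_symm (k : ℕ) (f g : p.V) : ⟪p.gk k f, g⟫_ℂ = ⟪f, p.gk k g⟫_ℂ := gr_symm _ _ _

lemma gk_DB (k : ℕ) (f : p.V) : p.gk k (p.DB f) = p.DB (p.gk (k + 1) f) :=
  Subtype.ext (gr_DL _ _)

lemma gk_DBa (k : ℕ) (f : p.V) : (p.DB†) (p.gk k f) = p.gk (k + 1) ((p.DB†) f) := by
  refine ext_inner_right ℂ fun g => ?_
  rw [ContinuousLinearMap.adjoint_inner_left, gk_symm, gk_symm, gk_DB,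
    ContinuousLinearMap.adjoint_inner_left]

lemma sum_gk (f : p.V) : f = ∑ k ∈ Finset.range (Fintype.card B + 1), p.gk k f := by
  apply Subtype.ext
  rw [AddSubmonoidClass.coe_finsetSum]
  ext ⟨T, w⟩
  rw [EL_sum_apply, Finset.sum_eq_single T.card]
  · rw [gk_coe, gr_apply, if_pos rfl, one_mul]
  · intro k _ hk
    rw [gk_coe, gr_apply, if_neg hk.symm, zero_mul]
  · intro h
    exfalso
    apply h
    rw [Finset.mem_range]
    have := Finset.card_le_univ T
    omega

lemma V_ext {f g : p.V} (h : ∀ T : Finset B, Sph cs T → ∀ w, (f : EL (Om B W)) ⟨T, w⟩ =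
    (g : EL (Om B W)) ⟨T, w⟩) : f = g := by
  apply Subtype.ext
  ext ⟨T, w⟩
  by_cases hT : Sph cs T
  · exact h T hT w
  · rw [(p.mem_V.1 f.2).1 T hT, (p.mem_V.1 g.2).1 T hT]

end gr

end Wt

section building

variable {C : Type*} (b : Building cs C) [Nonempty C]

namespace Building

/-- the weights of a building -/
noncomputable def wt : Wt cs where
  a s := √(b.q s)
  A w := √(b.qq w)
  A_one := by rw [b.qq_one]; simp
  A_pos w := Real.sqrt_pos.2 (by exact_mod_cast b.qq_pos w)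
  a_pos s := Real.sqrt_pos.2 (by exact_mod_cast b.q_pos s)
  A_mul w s h := by
    rw [b.qq_mul_simple h]
    push_cast
    rw [Real.sqrt_mul (by positivity)]
  A_mul' w s h := by
    rw [b.qq_simple_mul h]
    push_cast
    rw [Real.sqrt_mul (by positivity)]

lemma wt_sq (w : W) : (b.wt.A w : ℂ) * b.wt.A w = b.qq w := by
  have : b.wt.A w * b.wt.A w = b.qq w := Real.mul_self_sqrt (by positivity)
  exact_mod_cast this

lemma wt_ne (w : W) : (b.wt.A w : ℂ) ≠ 0 := by exact_mod_cast (b.wt.A_pos w).ne'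

/-- the base chamber -/
noncomputable def c₀ (_ : Building cs C) : C := Classical.arbitrary C

/-- pull back of functions on the Coxeter group -/
noncomputable def jf (f : Om B W → ℂ) (x : Om B C) : ℂ :=
  (b.wt.A (b.δ b.c₀ x.c) : ℂ)⁻¹ * f ⟨x.T, b.δ b.c₀ x.c⟩

/-- integration over the spheres -/
noncomputable def jt (β : Om B C → ℂ) (x : Om B W) : ℂ :=
  (b.wt.A x.c : ℂ)⁻¹ * ∑ c ∈ b.sph b.c₀ x.c, β ⟨x.T, c⟩

/-- pull back of finitely supported functions -/
noncomputable def JF : (Om B W →₀ ℂ) →ₗ[ℂ] (Om B C →₀ ℂ) :=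
  Finsupp.linearCombination ℂ (fun x : Om B W =>
    (b.wt.A x.c : ℂ)⁻¹ • ∑ c ∈ b.sph b.c₀ x.c, Finsupp.single (Om.mk x.T c) 1)

/-- integration of finitely supported functions -/
noncomputable def JT : (Om B C →₀ ℂ) →ₗ[ℂ] (Om B W →₀ ℂ) :=
  Finsupp.linearCombination ℂ (fun x : Om B C =>
    (b.wt.A (b.δ b.c₀ x.c) : ℂ)⁻¹ • Finsupp.single (Om.mk x.T (b.δ b.c₀ x.c)) 1)

lemma JF_apply (h : Om B W →₀ ℂ) (T : Finset B) (c : C) :
    b.JF h ⟨T, c⟩ = (b.wt.A (b.δ b.c₀ c) : ℂ)⁻¹ * h ⟨T, b.δ b.c₀ c⟩ := by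
  classical
  induction h using Finsupp.induction_linear with
  | zero => simp
  | add f g hf hg => rw [map_add, Finsupp.add_apply, hf, hg, Finsupp.add_apply]; ring
  | single x r =>
    obtain ⟨T', w⟩ := x
    rw [JF, Finsupp.linearCombination_single, Finsupp.smul_apply, Finsupp.smul_apply,
      Finsupp.finsetSum_apply]
    dsimp only
    by_cases h : T' = T ∧ w = b.δ b.c₀ c
    · obtain ⟨h1, h2⟩ := h
      subst h1 h2
      rw [Finset.sum_eq_single c]
      · rw [Finsupp.single_eq_same, Finsupp.single_eq_same]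
        simp [mul_comm]
      · intro d _ hd
        rw [Finsupp.single_eq_of_ne]
        exact fun h => hd (Om.mk.inj h).2.symm
      · intro h
        exact absurd (b.mem_sph.2 rfl) h
    · rw [Finsupp.single_eq_of_ne (a := Om.mk T' w) (a' := Om.mk T (b.δ b.c₀ c)) (fun h' => h
        ⟨(Om.mk.inj h').1.symm, (Om.mk.inj h').2.symm⟩), mul_zero, Finset.sum_eq_zero]
      · simp
      · intro d hd
        rw [Finsupp.single_eq_of_ne]
        intro h'
        obtain ⟨h1, h2⟩ := Om.mk.inj h'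
        apply h
        subst h1 h2
        exact ⟨rfl, (b.mem_sph.1 hd).symm⟩

lemma JT_apply (a : Om B C →₀ ℂ) (T : Finset B) (w : W) :
    b.JT a ⟨T, w⟩ = (b.wt.A w : ℂ)⁻¹ * ∑ c ∈ b.sph b.c₀ w, a ⟨T, c⟩ := by
  classical
  induction a using Finsupp.induction_linear with
  | zero => simp
  | add f g hf hg =>
    rw [map_add, Finsupp.add_apply, hf, hg]
    simp only [Finsupp.add_apply, Finset.sum_add_distrib]
    ring
  | single x r =>
    obtain ⟨T', d⟩ := x
    rw [JT, Finsupp.linearCombination_single, Finsupp.smul_apply, Finsupp.smul_apply]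
    dsimp only
    by_cases h : T' = T ∧ w = b.δ b.c₀ d
    · obtain ⟨h1, h2⟩ := h
      subst h1 h2
      rw [Finset.sum_eq_single d]
      · rw [Finsupp.single_eq_same, Finsupp.single_eq_same]
        simp [mul_comm]
      · intro c _ hd
        rw [Finsupp.single_eq_of_ne]
        exact fun h => hd (Om.mk.inj h).2
      · intro h
        exact absurd (b.mem_sph.2 rfl) h
    · rw [Finsupp.single_eq_of_ne (a := Om.mk T' (b.δ b.c₀ d)) (a' := Om.mk T w) (fun h' => h
        ⟨(Om.mk.inj h').1.symm, (Om.mk.inj h').2⟩), Finset.sum_eq_zero]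
      · simp
      · intro c hc
        rw [Finsupp.single_eq_of_ne]
        intro h'
        obtain ⟨h1, h2⟩ := Om.mk.inj h'
        apply h
        subst h1 h2
        exact ⟨rfl, (b.mem_sph.1 hc).symm⟩

lemma pair_jf (f : Om B W → ℂ) (a : Om B C →₀ ℂ) : pair (b.jf f) a = pair f (b.JT a) := by
  induction a using Finsupp.induction_linear with
  | zero => simp
  | add f g hf hg => rw [map_add, hf, hg, map_add, map_add]
  | single x r =>
    rw [pair_single, JT, Finsupp.linearCombination_single, map_smul, map_smul, pair_single,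
      smul_eq_mul, smul_eq_mul, one_mul]
    rfl

lemma pair_jt (β : Om B C → ℂ) (h : Om B W →₀ ℂ) : pair (b.jt β) h = pair β (b.JF h) := by
  induction h using Finsupp.induction_linear with
  | zero => simp
  | add f g hf hg => rw [map_add, hf, hg, map_add, map_add]
  | single x r =>
    rw [pair_single, JF, Finsupp.linearCombination_single, map_smul, map_smul, map_sum,
      smul_eq_mul, smul_eq_mul]
    simp only [pair_single, one_mul]
    rfl

lemma jt_jf (f : Om B W → ℂ) : b.jt (b.jf f) = f := by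
  funext x
  obtain ⟨T, w⟩ := x
  unfold jt jf
  have h1 : ∀ c ∈ b.sph b.c₀ w, (b.wt.A (b.δ b.c₀ c) : ℂ)⁻¹ * f ⟨T, b.δ b.c₀ c⟩ =
      (b.wt.A w : ℂ)⁻¹ * f ⟨T, w⟩ := by
    intro c hc
    rw [b.mem_sph.1 hc]
  dsimp only
  rw [Finset.sum_congr rfl h1, Finset.sum_const, nsmul_eq_mul]
  have h2 : ((b.sph b.c₀ w).card : ℂ) = b.wt.A w * b.wt.A w := by
    rw [wt_sq]
    norm_cast
  rw [h2]
  have h3 := b.wt_ne w
  field_simp

lemma jf_mem {f : Om B W → ℂ} (hf : Memℓp f 2) : Memℓp (b.jf f) 2 := by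
  classical
  rw [mem2_iff] at hf ⊢
  refine summable_of_sum_le (c := ∑' x, ‖f x‖ ^ 2) (fun _ => by positivity) fun S => ?_
  let e : Om B C → Om B W := fun x => ⟨x.T, b.δ b.c₀ x.c⟩
  rw [← Finset.sum_fiberwise_of_maps_to (g := e) (t := S.image e)
    (fun x hx => Finset.mem_image_of_mem e hx)]
  refine le_trans (Finset.sum_le_sum fun y _ => ?_) (hf.sum_le_tsum (S.image e)
    (fun _ _ => by positivity))
  obtain ⟨T, w⟩ := y
  have h1 : ∀ x ∈ S.filter (fun x => e x = ⟨T, w⟩), ‖b.jf f x‖ ^ 2 =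
      ((b.qq w : ℝ))⁻¹ * ‖f ⟨T, w⟩‖ ^ 2 := by
    intro x hx
    obtain ⟨h2, h3⟩ := Om.mk.inj (Finset.mem_filter.1 hx).2
    unfold jf
    rw [h2, h3, norm_mul, mul_pow, norm_inv, Complex.norm_real, Real.norm_of_nonneg
      (b.wt.A_pos w).le]
    congr 1
    rw [inv_pow]
    congr 1
    exact Real.sq_sqrt (by positivity)
  rw [Finset.sum_congr rfl h1, Finset.sum_const, nsmul_eq_mul, ← mul_assoc]
  have h2 : ((S.filter (fun x => e x = ⟨T, w⟩)).card : ℝ) ≤ b.qq w := by
    have h3 : (S.filter (fun x => e x = ⟨T, w⟩)).card ≤ (b.sph b.c₀ w).card := by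
      refine Finset.card_le_card_of_injOn (fun x => x.c) ?_ ?_
      · intro x hx
        have hx' := (Finset.mem_filter.1 hx).2
        exact b.mem_sph.2 (Om.mk.inj hx').2
      · intro x hx y hy hxy
        have hx' := (Om.mk.inj (Finset.mem_filter.1 hx).2).1
        have hy' := (Om.mk.inj (Finset.mem_filter.1 hy).2).1
        exact Om.ext (hx'.trans hy'.symm) hxy
    exact_mod_cast h3
  have h4 : (0 : ℝ) < b.qq w := by exact_mod_cast b.qq_pos w
  have h5 : ((S.filter (fun x => e x = ⟨T, w⟩)).card : ℝ) * ((b.qq w : ℝ))⁻¹ ≤ 1 := by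
    rw [← div_eq_mul_inv, div_le_one h4]
    exact h2
  have h6 : (0 : ℝ) ≤ ‖f ⟨T, w⟩‖ ^ 2 := by positivity
  nlinarith

lemma jt_mem {β : Om B C → ℂ} (hβ : Memℓp β 2) : Memℓp (b.jt β) 2 := by
  classical
  rw [mem2_iff] at hβ ⊢
  have h0 : ∀ x : Om B W, ‖b.jt β x‖ ^ 2 ≤ ∑ c ∈ b.sph b.c₀ x.c, ‖β ⟨x.T, c⟩‖ ^ 2 := by
    intro x
    unfold jt
    rw [norm_mul, mul_pow, norm_inv, Complex.norm_real, Real.norm_of_nonneg
      (b.wt.A_pos x.c).le, inv_pow]
    have h1 : b.wt.A x.c ^ 2 = b.qq x.c := Real.sq_sqrt (by positivity)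
    rw [h1]
    have h2 : ‖∑ c ∈ b.sph b.c₀ x.c, β ⟨x.T, c⟩‖ ^ 2 ≤
        b.qq x.c * ∑ c ∈ b.sph b.c₀ x.c, ‖β ⟨x.T, c⟩‖ ^ 2 := by
      have h3 := norm_sum_le (b.sph b.c₀ x.c) (fun c => β ⟨x.T, c⟩)
      have h4 := sq_sum_le_card_mul_sum_sq (s := b.sph b.c₀ x.c) (f := fun c => ‖β ⟨x.T, c⟩‖)
      refine le_trans (pow_le_pow_left₀ (norm_nonneg _) h3 2) (h4.trans (le_of_eq ?_))
      rfl
    have h4 : (0 : ℝ) < b.qq x.c := by exact_mod_cast b.qq_pos x.c
    rw [inv_mul_le_iff₀ h4]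
    exact h2
  refine summable_of_sum_le (c := ∑' x, ‖β x‖ ^ 2) (fun _ => by positivity) fun S => ?_
  refine (Finset.sum_le_sum fun x _ => h0 x).trans ?_
  have h1 : ∑ x ∈ S, ∑ c ∈ b.sph b.c₀ x.c, ‖β ⟨x.T, c⟩‖ ^ 2 =
      ∑ y ∈ S.biUnion (fun x => (b.sph b.c₀ x.c).image (fun c => Om.mk x.T c)), ‖β y‖ ^ 2 := by
    rw [Finset.sum_biUnion]
    · refine Finset.sum_congr rfl fun x _ => ?_
      rw [Finset.sum_image]
      intro c _ d _ h
      exact (Om.mk.inj h).2
    · intro x _ y _ hxy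
      change Disjoint ((b.sph b.c₀ x.c).image (fun c => Om.mk x.T c))
        ((b.sph b.c₀ y.c).image (fun c => Om.mk y.T c))
      rw [Finset.disjoint_left]
      intro z hz hz'
      rw [Finset.mem_image] at hz hz'
      obtain ⟨c, hc, rfl⟩ := hz
      obtain ⟨d, hd, h2⟩ := hz'
      obtain ⟨h3, h4⟩ := Om.mk.inj h2
      apply hxy
      subst h4
      exact Om.ext h3.symm ((b.mem_sph.1 hc).symm.trans (b.mem_sph.1 hd))
  rw [h1]
  exact hβ.sum_le_tsum _ (fun _ _ => by positivity)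

variable [Fintype B] [LinearOrder B]

lemma bd_JF (h : Om B W →₀ ℂ) : bd (b.JF h) = b.JF (bd h) := by
  ext ⟨T, c⟩
  rw [bd_apply, JF_apply, bd_apply]
  simp only [JF_apply]
  unfold dd
  rw [Finset.mul_sum]
  refine Finset.sum_congr rfl fun i _ => ?_
  split_ifs
  · rw [mul_zero]
  · ring

lemma bd_JT (a : Om B C →₀ ℂ) : bd (b.JT a) = b.JT (bd a) := by
  ext ⟨T, w⟩
  rw [bd_apply, JT_apply]
  simp only [bd_apply, JT_apply]
  unfold dd
  rw [Finset.sum_comm, Finset.mul_sum]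
  refine Finset.sum_congr rfl fun i _ => ?_
  by_cases h : i ∉ T
  · simp only [if_pos h]
    rw [← Finset.mul_sum]
    ring
  · simp only [if_neg h]
    simp

lemma JT_mem {k : ℕ} {a : Om B C →₀ ℂ} (ha : a ∈ b.KK k) : io (b.JT a) ∈ b.wt.V := by
  rw [b.mem_KK] at ha
  rw [Wt.mem_V]
  constructor
  · intro T hT w
    rw [io_apply, JT_apply, Finset.sum_eq_zero, mul_zero]
    intro c _
    by_contra h
    exact hT (ha.1 T c h).2
  · intro T s hs w
    rw [io_apply, io_apply, JT_apply, JT_apply]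
    have h1 := b.wt_ne w
    have h2 := b.wt_ne (w * cs.simple s)
    rw [← mul_assoc, ← mul_assoc, mul_inv_cancel₀ h1, mul_inv_cancel₀ h2, one_mul, one_mul]
    rcases cs.length_mul_simple w s with h | h
    · exact PS.sum_sph b (ha.2 T s hs) h
    · have h3 := PS.sum_sph b (ha.2 T s hs) (a := b.c₀) (w := w * cs.simple s) (s := s) (by
        rw [cs.simple_mul_simple_cancel_right]; exact h.symm)
      rw [cs.simple_mul_simple_cancel_right] at h3
      rw [h3, neg_neg]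

lemma gr_JT {k : ℕ} {a : Om B C →₀ ℂ} (ha : a ∈ b.KK k) :
    Wt.gr k (io (b.JT a)) = io (b.JT a) := by
  ext ⟨T, w⟩
  rw [Wt.gr_apply]
  split_ifs with h
  · rw [one_mul]
  · rw [zero_mul, io_apply, JT_apply, Finset.sum_eq_zero, mul_zero]
    intro c _
    by_contra h1
    exact h ((b.mem_KK.1 ha).1 T c h1).1

lemma JF_mem {T : Finset B} (hT : Sph cs T) (w : W) :
    b.JF (emb T (b.wt.kF T w)) ∈ b.KK T.card := by
  rw [b.mem_KK]
  constructor
  · intro T' c h
    rw [JF_apply] at h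
    have h1 : emb T (b.wt.kF T w) ⟨T', b.δ b.c₀ c⟩ ≠ 0 := fun h1 => h (by rw [h1, mul_zero])
    rw [emb_apply] at h1
    split_ifs at h1 with h2
    · rw [← h2]
      exact ⟨rfl, hT⟩
    · exact absurd rfl h1
  · intro T' s hs x
    have hV := b.wt.ker_mem T w
    obtain ⟨x₀, hx₀, hl⟩ := b.exists_near s b.c₀ x
    rw [← b.pan_eq hx₀, b.sum_pan]
    have h1 : ∀ y ∈ b.nb s x₀, b.JF (emb T (b.wt.kF T w)) ⟨T', y⟩ =
        (b.wt.A (b.δ b.c₀ x₀ * cs.simple s) : ℂ)⁻¹ *
          emb T (b.wt.kF T w) ⟨T', b.δ b.c₀ x₀ * cs.simple s⟩ := by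
      intro y hy
      rw [JF_apply, b.eq_right (b.mem_nb.1 hy) hl]
    rw [Finset.sum_congr rfl h1, Finset.sum_const, card_nb, nsmul_eq_mul, JF_apply]
    have h2 := b.wt.V_rel hV hs hl
    rw [io_apply, io_apply] at h2
    rw [b.wt.A_mul _ _ hl]
    have h3 := b.wt_ne (b.δ b.c₀ x₀)
    have h4 : (b.wt.a s : ℂ) ≠ 0 := by exact_mod_cast (b.wt.a_pos s).ne'
    have h5 : (b.q s : ℂ) = b.wt.a s * b.wt.a s := by
      have : b.wt.a s * b.wt.a s = b.q s := Real.mul_self_sqrt (by positivity)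
      exact_mod_cast this.symm
    rw [h5]
    push_cast
    field_simp
    linear_combination h2

variable {b}
variable {G : Type*} [Group G] [MulAction G C] (X : FinRes G)

lemma DBa_inner (x : b.wt.V) (h : Om B W →₀ ℂ) (hh : io h ∈ b.wt.V) :
    ⟪(b.wt.DB†) x, (⟨io h, hh⟩ : b.wt.V)⟫_ℂ = pair (fun y => star ((x : EL (Om B W)) y)) (bd h) := by
  rw [ContinuousLinearMap.adjoint_inner_left]
  change ⟪(x : EL (Om B W)), DL (io h)⟫_ℂ = _
  rw [DL_io, inner_io]

lemma val_eq (p : Wt cs) (z : p.V) {T : Finset B} (hT : Sph cs T) (w : W) :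
    (z : EL (Om B W)) ⟨T, w⟩ = star ⟪(z : EL (Om B W)), io (emb T (p.kF T w))⟫_ℂ := by
  rw [← p.ker_inner z.2 hT w]
  exact (inner_conj_symm _ _).symm

theorem radial_exact (hX : ∀ i, Subsingleton (X.homology (toRed G) i))
    (hfree : ∀ (g : G) (x : C), g • x = x → g = 1)
    (hG : ∀ (g : G) x y, b.δ (g • x) (g • y) = b.δ x y) {R : Type*} [Finite R]
    (r : R → C) (hr : ∀ x : C, ∃ (g : G) (i : R), g • r i = x) :
    ∀ x : b.wt.V, (b.wt.DB†) x = 0 → ∃ y, (b.wt.DB†) y = x := by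
  intro x hx
  have key : ∀ k, ∃ y, (b.wt.DB†) y = b.wt.gk k x := by
    intro k
    obtain ⟨f, hf⟩ : ∃ f : Om B W → ℂ, f = fun y => star ((b.wt.gk k x : EL (Om B W)) y) :=
      ⟨_, rfl⟩
    have hf2 : Memℓp f 2 := by
      rw [hf, mem2_iff]
      have := EL.summable (b.wt.gk k x : EL (Om B W))
      simpa using this
    obtain ⟨β, hβ⟩ : ∃ β, β = b.jf f := ⟨_, rfl⟩
    have hβ2 : Memℓp β 2 := by rw [hβ]; exact b.jf_mem hf2
    have h0 : ∀ a ∈ b.KK (k + 1), pair β (bd a) = 0 := by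
      intro a ha
      rw [hβ, pair_jf, hf, ← inner_io, Wt.gk_coe, Wt.gr_symm, b.gr_JT (bd_mem_KK ha), inner_io,
        ← b.bd_JT, ← DBa_inner x (b.JT a) (b.JT_mem ha), hx, inner_zero_left]
    have hpf : ∀ h, pair β (b.JF h) = pair f h := by
      intro h
      rw [← pair_jt, hβ, jt_jf]
    have hv : ∀ {T : Finset B} (_ : Sph cs T) (w : W), (b.wt.gk k x : EL (Om B W)) ⟨T, w⟩ =
        star (pair β (b.JF (emb T (b.wt.kF T w)))) := by
      intro T hT w
      rw [val_eq b.wt (b.wt.gk k x) hT w, inner_io, hpf, hf]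
    cases k with
    | zero =>
      have h1 := tr_zero (b.data hfree hG) X hX β hβ2 h0
      refine ⟨0, ?_⟩
      rw [map_zero]
      refine b.wt.V_ext fun T hT w => ?_
      rw [hv hT]
      by_cases hc : T.card = 0
      · rw [h1 _ (by have := b.JF_mem hT w; rwa [hc] at this), star_zero]
        rfl
      · rw [← hv hT, Wt.gk_coe, Wt.gr_apply, if_neg hc, zero_mul]
        rfl
    | succ k =>
      obtain ⟨β', hβ', h1⟩ := tr_succ (b.data hfree hG) X hX k
        (fun i : Finset B × R => Om.mk i.1 (r i.2)) (by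
          rintro ⟨T, c⟩
          obtain ⟨g, i, hi⟩ := hr c
          exact ⟨g, (T, i), by rw [smul_Om, hi]⟩) β hβ2 h0
      have hη : Memℓp (fun x => star (b.jt β' x)) 2 := by
        have := mem2_iff.1 (b.jt_mem hβ')
        rw [mem2_iff]
        simpa using this
      obtain ⟨η, hη'⟩ : ∃ η : EL (Om B W), ∀ x, η x = star (b.jt β' x) := ⟨⟨_, hη⟩, fun _ => rfl⟩
      obtain ⟨y, hy⟩ : ∃ y : b.wt.V, y = b.wt.V.orthogonalProjectionOnto η := ⟨_, rfl⟩
      refine ⟨b.wt.gk k y, ?_⟩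
      rw [Wt.gk_DBa]
      refine b.wt.V_ext fun T hT w => ?_
      by_cases hc : T.card = k + 1
      · rw [hv hT, Wt.gk_coe, Wt.gr_apply, if_pos hc, one_mul, val_eq b.wt ((b.wt.DB†) y) hT w]
        congr 1
        have e1 := DBa_inner (b := b) y (emb T (b.wt.kF T w)) (b.wt.ker_mem T w)
        have e2 : ⟪((b.wt.DB†) y : EL (Om B W)), io (emb T (b.wt.kF T w))⟫_ℂ =
            ⟪(b.wt.DB†) y, (⟨io (emb T (b.wt.kF T w)), b.wt.ker_mem T w⟩ : b.wt.V)⟫_ℂ := rfl
        rw [e2, ContinuousLinearMap.adjoint_inner_left, hy,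
          Submodule.inner_orthogonalProjectionOnto_eq_of_mem_right, Wt.DB_coe]
        change ⟪η, DL (io (emb T (b.wt.kF T w)))⟫_ℂ = _
        rw [DL_io, inner_io]
        have e3 : (fun x => star (η x)) = b.jt β' := by
          funext x
          rw [hη', star_star]
        rw [e3, pair_jt, ← bd_JF]
        have h2 := b.JF_mem hT w
        rw [hc] at h2
        exact h1 _ h2
      · rw [Wt.gk_coe, Wt.gk_coe, Wt.gr_apply, Wt.gr_apply, if_neg hc, zero_mul, zero_mul]
  choose y hy using key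
  refine ⟨∑ k ∈ Finset.range (Fintype.card B + 1), y k, ?_⟩
  rw [map_sum, Finset.sum_congr rfl fun k _ => hy k]
  exact (b.wt.sum_gk x).symm

end Building

end building

end Pool.Agent.Y476.ZB
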