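import Pool.Agent.Y476.ZB.Dfm
import Pool.Agent.Y476.ZB.Rad

/-!
The weighted complexes are never exact.
-/

set_option autoImplicit false
set_option linter.unusedSectionVars false

namespace Pool.Agent.Y476.ZB

open CoxeterSystem Pool.Agent.TH5.BD Pool.Agent.H919R4.ZS Pool.Agent.TH38.ZT
open scoped InnerProductSpace InnerProduct Topology

variable {B : Type*} {M : CoxeterMatrix B} {W : Type*} [Group W]
variable {cs : CoxeterSystem M W} (p : Wt cs)

namespace Wt

open Polynomial in
/-- the weight of a finite special subgroup as a polynomial -/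
noncomputable def Np (T : Finset B) : ℝ[X] :=
  ∑ u ∈ parF cs T, C (((p.A u)⁻¹) ^ 2) * X ^ (2 * cs.length u)

lemma Np_eval (T : Finset B) (r : ℝ) :
    (p.Np T).eval r = ∑ u ∈ parF cs T, ((p.A u)⁻¹) ^ 2 * r ^ (2 * cs.length u) := by
  rw [Np, Polynomial.eval_finsetSum]
  simp

lemma Np_pos {T : Finset B} (hT : Sph cs T) (r : ℝ) : 0 < (p.Np T).eval r := by
  classical
  rw [Np_eval]
  refine Finset.sum_pos' (fun u _ => ?_) ⟨1, one_mem_parF hT, ?_⟩
  · rw [pow_mul]; positivity
  · rw [cs.length_one, mul_zero, pow_zero, p.A_one]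
    norm_num

lemma Np_ge {T : Finset B} (hT : Sph cs T) {s : B} (hs : s ∈ T) (r : ℝ) :
    ((p.A (cs.simple s))⁻¹) ^ 2 * r ^ 2 ≤ (p.Np T).eval r := by
  rw [Np_eval]
  have h1 : cs.simple s ∈ parF cs T := (mem_parF hT).2 (simple_mem_par (by exact_mod_cast hs))
  have h2 := Finset.single_le_sum (s := parF cs T)
    (f := fun u => ((p.A u)⁻¹) ^ 2 * r ^ (2 * cs.length u))
    (fun u _ => by rw [pow_mul]; positivity) h1
  rw [cs.length_simple, mul_one] at h2
  exact h2

lemma Np_empty (r : ℝ) : (p.Np (∅ : Finset B)).eval r = 1 := by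
  have h1 : parF cs (∅ : Finset B) = {1} := by
    ext u
    rw [mem_parF (sph_empty cs), Finset.mem_singleton]
    simp [Par]
  rw [Np_eval, h1, Finset.sum_singleton, cs.length_one, p.A_one]
  simp

lemma N_dfm (T : Finset B) {r : ℝ} (hr : 0 < r) : (p.dfm r hr).N T 1 = (p.Np T).eval r := by
  rw [Np_eval, N]
  refine Finset.sum_congr rfl fun u _ => ?_
  rw [(p.dfm r hr).A_one, one_mul]
  change (1 / (p.A u / r ^ cs.length u)) ^ 2 = _
  have h1 := (p.A_pos u).ne'
  have h2 := hr.ne'
  rw [pow_mul']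
  field_simp

open Classical in
/-- the Euler characteristic -/
noncomputable def eul [Fintype B] (r : ℝ) : ℝ :=
  ∑ T : Finset B, if Sph cs T then (-1) ^ T.card * ((p.Np T).eval r)⁻¹ else 0

lemma eul_tendsto [Fintype B] : Filter.Tendsto p.eul Filter.atTop (𝓝 1) := by
  classical
  have h1 : (1 : ℝ) = ∑ T : Finset B, if T = ∅ then 1 else 0 := by simp
  rw [h1]
  refine tendsto_finsetSum _ fun T _ => ?_
  by_cases hT : Sph cs T
  · simp only [if_pos hT]
    by_cases hT0 : T = ∅
    · subst hT0
      rw [if_pos rfl]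
      simp only [Np_empty, Finset.card_empty, pow_zero, inv_one, one_mul]
      exact tendsto_const_nhds
    · rw [if_neg hT0]
      obtain ⟨s, hs⟩ := Finset.nonempty_iff_ne_empty.2 hT0
      have h2 : Filter.Tendsto (fun r => (p.Np T).eval r) Filter.atTop Filter.atTop := by
        refine Filter.tendsto_atTop_mono (fun r => p.Np_ge hT hs r) ?_
        have h3 : 0 < ((p.A (cs.simple s))⁻¹) ^ 2 := by
          have := p.A_pos (cs.simple s)
          positivity
        exact (Filter.tendsto_pow_atTop two_ne_zero).const_mul_atTop h3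
      have h3 := (tendsto_inv_atTop_zero.comp h2).const_mul ((-1 : ℝ) ^ T.card)
      rw [mul_zero] at h3
      exact h3
  · simp only [if_neg hT]
    rw [if_neg]
    · exact tendsto_const_nhds
    · rintro rfl
      exact hT (sph_empty cs)

lemma eul_zero [Fintype B] (h : ∀ᶠ r in 𝓝 (1 : ℝ), p.eul r = 0) (r : ℝ) : p.eul r = 0 := by
  classical
  obtain ⟨S, hS⟩ : ∃ S : Finset (Finset B), S = Finset.univ.filter (fun T => Sph cs T) := ⟨_, rfl⟩
  have hSm : ∀ T ∈ S, Sph cs T := by
    intro T hT
    rw [hS] at hT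
    exact (Finset.mem_filter.1 hT).2
  have e1 : ∀ r, p.eul r = ∑ T ∈ S, (-1) ^ T.card * ((p.Np T).eval r)⁻¹ := by
    intro r
    rw [eul, hS, Finset.sum_filter]
  obtain ⟨P, hP⟩ : ∃ P : Polynomial ℝ, P = ∑ T ∈ S, (-1) ^ T.card * ∏ T' ∈ S.erase T, p.Np T' :=
    ⟨_, rfl⟩
  have e2 : ∀ r, P.eval r = p.eul r * ∏ T ∈ S, (p.Np T).eval r := by
    intro r
    rw [e1, hP, Polynomial.eval_finsetSum, Finset.sum_mul]
    refine Finset.sum_congr rfl fun T hT => ?_
    rw [Polynomial.eval_mul, Polynomial.eval_prod, ← Finset.mul_prod_erase S _ hT]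
    have h1 := (p.Np_pos (hSm T hT) r).ne'
    simp only [Polynomial.eval_pow, Polynomial.eval_neg, Polynomial.eval_one]
    field_simp
  have e3 : P = 0 := by
    apply Polynomial.eq_zero_of_infinite_isRoot
    have h1 : {r | p.eul r = 0} ∈ 𝓝 (1 : ℝ) := h
    refine (infinite_of_mem_nhds 1 h1).mono ?_
    intro r hr
    change P.eval r = 0
    rw [e2, show p.eul r = 0 from hr, zero_mul]
  have e4 := e2 r
  rw [e3, Polynomial.eval_zero] at e4
  rcases mul_eq_zero.1 e4.symm with h1 | h1
  · exact h1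
  · exfalso
    rw [Finset.prod_eq_zero_iff] at h1
    obtain ⟨T, hT, h2⟩ := h1
    exact (p.Np_pos (hSm T hT) r).ne' h2

theorem not_exact [Fintype B] [LinearOrder B] :
    ¬ ∀ x : p.V, p.DB x = 0 → ∃ y, p.DB y = x := by
  classical
  intro hex
  have h1 : ∀ᶠ r in 𝓝 (1 : ℝ), p.eul r = 0 := by
    filter_upwards [p.exact_near hex] with r hr
    obtain ⟨hr, h2⟩ := hr
    have h3 := (p.dfm r hr).euler h2
    have h4 : ((p.eul r : ℝ) : ℂ) = 0 := by
      rw [← h3, eul]
      push_cast
      refine Finset.sum_congr rfl fun T _ => ?_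
      split_ifs with h
      · rw [N_dfm]
        push_cast
        rfl
      · rfl
    exact_mod_cast h4
  have h2 := p.eul_zero h1
  have h3 := p.eul_tendsto
  have h4 : p.eul = fun _ => 0 := funext h2
  rw [h4] at h3
  exact one_ne_zero (tendsto_nhds_unique h3 tendsto_const_nhds)

end Wt

open Building in
theorem building_zero_in_spectrum [Finite B] {C : Type*} (b : Building cs C) [Nonempty C]
    {G : Type*} [Group G] [MulAction G C] (hfree : ∀ (g : G) (x : C), g • x = x → g = 1)
    (hG : ∀ (g : G) x y, b.δ (g • x) (g • y) = b.δ x y)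
    (hfin : Finite (MulAction.orbitRel.Quotient G C)) (X : FinRes G) :
    ∃ i, Nontrivial (X.homology (toRed G) i) := by
  classical
  by_contra hcon
  push Not at hcon
  have hX : ∀ i, Subsingleton (X.homology (toRed G) i) := by
    intro i
    exact not_nontrivial_iff_subsingleton.1 (by
      intro h
      have := hcon i
      rw [← not_nontrivial_iff_subsingleton] at this
      exact this h)
  letI : Fintype B := Fintype.ofFinite B
  letI : LinearOrder B := LinearOrder.lift' (Fintype.equivFin B) (Fintype.equivFin B).injective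
  have h1 := radial_exact (b := b) X hX hfree hG
    (R := MulAction.orbitRel.Quotient G C) (fun q => q.out) (by
      intro x
      have h2 : (MulAction.orbitRel G C).r ((Quotient.mk (MulAction.orbitRel G C) x).out) x :=
        Quotient.exact (Quotient.out_eq _)
      have h3 : (Quotient.mk (MulAction.orbitRel G C) x).out ∈ MulAction.orbit G x := h2
      obtain ⟨g, hg⟩ := h3
      refine ⟨g⁻¹, Quotient.mk (MulAction.orbitRel G C) x, ?_⟩
      rw [← hg]
      simp)
  exact b.wt.not_exact (exact_of_adjoint b.wt.DB b.wt.DB_DB h1)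

end Pool.Agent.Y476.ZB
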