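import Pool.Agent.Y476.ZB.Tr

/-!
The Euler characteristic of an exact weighted complex vanishes.
-/

set_option autoImplicit false
set_option linter.unusedSectionVars false

namespace Pool.Agent.Y476.ZB

open CoxeterSystem Pool.Agent.TH5.BD
open scoped InnerProductSpace InnerProduct

variable {B : Type*} {M : CoxeterMatrix B} {W : Type*} [Group W]
variable {cs : CoxeterSystem M W} (p : Wt cs)

namespace Wt

variable [Fintype B] [LinearOrder B]

/-- the differential -/
noncomputable def DB : p.V →L[ℂ] p.V :=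
  (DL ∘L p.V.subtypeL).codRestrict p.V (fun f => p.DL_mem f.2)

lemma DB_coe (f : p.V) : (p.DB f : EL (Om B W)) = DL (f : EL (Om B W)) := rfl

/-- the Hecke operators -/
noncomputable def LB (s : B) : p.V →L[ℂ] p.V :=
  (p.Ls s ∘L p.V.subtypeL).codRestrict p.V (fun f => p.Ls_mem s f.2)

lemma LB_coe (s : B) (f : p.V) : (p.LB s f : EL (Om B W)) = p.Ls s (f : EL (Om B W)) := rfl

/-- the grading -/
noncomputable def gB : p.V →L[ℂ] p.V :=
  (gam ∘L p.V.subtypeL).codRestrict p.V (fun f => p.gam_mem f.2)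

lemma gB_coe (f : p.V) : (p.gB f : EL (Om B W)) = gam (f : EL (Om B W)) := rfl

lemma DB_DB (f : p.V) : p.DB (p.DB f) = 0 := Subtype.ext (DL_DL _)

lemma LB_symm (s : B) (f g : p.V) : ⟪p.LB s f, g⟫_ℂ = ⟪f, p.LB s g⟫_ℂ := p.Ls_symm s _ _

lemma gB_symm (f g : p.V) : ⟪p.gB f, g⟫_ℂ = ⟪f, p.gB g⟫_ℂ :=
  gam_symm _ _

lemma LB_DB (s : B) (f : p.V) : p.DB (p.LB s f) = p.LB s (p.DB f) := Subtype.ext (p.Ls_DL s _)

lemma LB_gB (s : B) (f : p.V) : p.gB (p.LB s f) = p.LB s (p.gB f) := Subtype.ext (p.Ls_gam s _)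

lemma gB_DB (f : p.V) : p.gB (p.DB f) = - p.DB (p.gB f) := Subtype.ext (gam_DL _)

lemma LB_DBa (s : B) (f : p.V) : (p.DB†) (p.LB s f) = p.LB s ((p.DB†) f) := by
  refine ext_inner_right ℂ fun g => ?_
  rw [ContinuousLinearMap.adjoint_inner_left, LB_symm, LB_symm, ← LB_DB,
    ContinuousLinearMap.adjoint_inner_left]

lemma gB_DBa (f : p.V) : p.gB ((p.DB†) f) = - (p.DB†) (p.gB f) := by
  refine ext_inner_right ℂ fun g => ?_
  rw [gB_symm, ContinuousLinearMap.adjoint_inner_left, inner_neg_left,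
    ContinuousLinearMap.adjoint_inner_left, gB_symm, gB_DB, inner_neg_right, neg_neg]

variable {p} in
/-- the extension of an operator by zero -/
noncomputable def ex (X : p.V →L[ℂ] p.V) : EL (Om B W) →L[ℂ] EL (Om B W) :=
  p.V.subtypeL ∘L X ∘L p.V.orthogonalProjectionOnto

lemma ex_apply (X : p.V →L[ℂ] p.V) (f : EL (Om B W)) :
    ex X f = X (p.V.orthogonalProjectionOnto f) := rfl

lemma proj_coe (f : p.V) : p.V.orthogonalProjectionOnto (f : EL (Om B W)) = f := by
  refine ext_inner_right ℂ fun g => ?_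
  rw [Submodule.inner_orthogonalProjectionOnto_eq_of_mem_right]
  rfl

lemma ex_comp (X Y : p.V →L[ℂ] p.V) : ex X ∘L ex Y = ex (X ∘L Y) := by
  refine ContinuousLinearMap.ext fun f => ?_
  rw [ContinuousLinearMap.comp_apply, ex_apply, ex_apply, ex_apply, proj_coe]
  rfl

lemma proj_Ls (s : B) (f : EL (Om B W)) :
    p.V.orthogonalProjectionOnto (p.Ls s f) = p.LB s (p.V.orthogonalProjectionOnto f) := by
  refine ext_inner_right ℂ fun g => ?_
  rw [Submodule.inner_orthogonalProjectionOnto_eq_of_mem_right, LB_symm,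
    Submodule.inner_orthogonalProjectionOnto_eq_of_mem_right, Ls_symm, LB_coe]

lemma ex_Cm {X : p.V →L[ℂ] p.V} (hX : ∀ s f, X (p.LB s f) = p.LB s (X f)) : p.Cm (ex X) := by
  intro s f
  rw [ex_apply, ex_apply, proj_Ls, hX]
  rfl

open Classical in
theorem euler (hex : ∀ x : p.V, p.DB x = 0 → ∃ y, p.DB y = x) :
    ∑ T : Finset B, (if Sph cs T then (-1 : ℂ) ^ T.card * (((p.N T 1)⁻¹ : ℝ) : ℂ) else 0) = 0 := by
  obtain ⟨S, hS⟩ : ∃ S, S = p.DB + p.DB† := ⟨_, rfl⟩
  obtain ⟨R, hSR, hRS⟩ := exists_inv (isUnit_of_exact p.DB p.DB_DB hex)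
  rw [← hS] at hSR hRS
  have hSL : ∀ s f, S (p.LB s f) = p.LB s (S f) := by
    intro s f
    rw [hS, add_apply, add_apply, LB_DB, LB_DBa, map_add]
  have hSg : ∀ f, S (p.gB f) = - p.gB (S f) := by
    intro f
    rw [hS, add_apply, add_apply, map_add, gB_DB, gB_DBa]
    abel
  have hRL : ∀ s f, R (p.LB s f) = p.LB s (R f) := by
    intro s f
    have h1 := hSL s (R f)
    rw [hSR] at h1
    rw [← h1, hRS]
  have h1 : tr (ex S ∘L ex (p.gB ∘L R)) =
      tr (ex (p.gB ∘L R) ∘L ex S) := by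
    refine tr_comm (p := p) (p.ex_Cm hSL) (p.ex_Cm ?_)
    intro s f
    rw [ContinuousLinearMap.comp_apply, ContinuousLinearMap.comp_apply, hRL, LB_gB]
  rw [ex_comp, ex_comp] at h1
  have h2 : S ∘L (p.gB ∘L R) = - p.gB := by
    refine ContinuousLinearMap.ext fun f => ?_
    rw [ContinuousLinearMap.comp_apply, ContinuousLinearMap.comp_apply, hSg, hSR]
    rfl
  have h3 : (p.gB ∘L R) ∘L S = p.gB := by
    refine ContinuousLinearMap.ext fun f => ?_
    rw [ContinuousLinearMap.comp_apply, ContinuousLinearMap.comp_apply, hRS]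
  rw [h2, h3] at h1
  have h4 : tr (ex (- p.gB)) = - tr (ex p.gB) := by
    unfold tr
    rw [← Finset.sum_neg_distrib]
    refine Finset.sum_congr rfl fun T _ => ?_
    rw [ex_apply, ex_apply]
    rfl
  rw [h4] at h1
  have h5 : tr (ex p.gB) = 0 := by
    have h6 : (2 : ℂ) * tr (ex p.gB) = 0 := by linear_combination -h1
    simpa using h6
  refine Eq.trans ?_ h5
  unfold tr
  refine Finset.sum_congr rfl fun T _ => ?_
  rw [ex_apply, gB_coe, gam_apply]
  split_ifs with h
  · rw [p.proj_eb h, io_apply, emb_apply_self, kF_apply]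
    unfold kw
    rw [inv_one, one_mul, if_pos ⟨Subgroup.one_mem _, h⟩, cs.length_one, pow_zero, one_mul,
      p.A_one, div_one, one_div]
  · rw [p.proj_eb' h]
    simp

end Wt

end Pool.Agent.Y476.ZB
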