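import Mathlib

/-!
Exact differentials on Hilbert spaces.
-/

set_option autoImplicit false
set_option linter.unusedSectionVars false

namespace Pool.Agent.Y476.ZB

open scoped InnerProductSpace InnerProduct

variable {H : Type*} [NormedAddCommGroup H] [InnerProductSpace ℂ H] [CompleteSpace H]

theorem isUnit_of_exact (D : H →L[ℂ] H) (h2 : ∀ x, D (D x) = 0)
    (hex : ∀ x, D x = 0 → ∃ y, D y = x) : IsUnit (D + D†) := by
  obtain ⟨K, hK⟩ : ∃ K : Submodule ℂ H, K = LinearMap.ker (D : H →ₗ[ℂ] H) := ⟨_, rfl⟩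
  have hKm : ∀ x, x ∈ K ↔ D x = 0 := by
    intro x
    rw [hK, LinearMap.mem_ker]
    rfl
  have hKc : IsClosed (K : Set H) := by
    have : (K : Set H) = {x | D x = 0} := by
      ext x; exact hKm x
    rw [this]
    exact isClosed_eq D.continuous continuous_const
  haveI : CompleteSpace K := hKc.completeSpace_coe
  have hmem : ∀ x, D x ∈ K := fun x => (hKm _).2 (h2 x)
  obtain ⟨C, hC, hpre⟩ := (D.codRestrict K hmem).exists_preimage_norm_le (by
    rintro ⟨y, hy⟩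
    obtain ⟨x, hx⟩ := hex y ((hKm y).1 hy)
    exact ⟨x, Subtype.ext hx⟩)
  have hpre' : ∀ y, D y = 0 → ∃ x, D x = y ∧ ‖x‖ ≤ C * ‖y‖ := by
    intro y hy
    obtain ⟨x, hx, hx2⟩ := hpre ⟨y, (hKm y).2 hy⟩
    exact ⟨x, congrArg Subtype.val hx, hx2⟩
  have hy : ∀ y, D y = 0 → ‖y‖ ≤ C * ‖(D†) y‖ := by
    intro y hy
    obtain ⟨x, hx, hx2⟩ := hpre' y hy
    have h3 : ‖y‖ ^ 2 ≤ ‖(D†) y‖ * ‖x‖ := by
      have h4 : ⟪y, y⟫_ℂ = ⟪(D†) y, x⟫_ℂ := by
        rw [ContinuousLinearMap.adjoint_inner_left, hx]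
      have h5 := norm_inner_le_norm (𝕜 := ℂ) ((D†) y) x
      rw [← h4, inner_self_eq_norm_sq_to_K] at h5
      simpa using h5
    rcases eq_or_lt_of_le (norm_nonneg y) with h6 | h6
    · rw [← h6]; positivity
    · have h7 : ‖y‖ * ‖y‖ ≤ ‖y‖ * (C * ‖(D†) y‖) := by
        nlinarith [norm_nonneg ((D†) y)]
      exact le_of_mul_le_mul_left h7 h6
  have hz : ∀ z, z ∈ Kᗮ → ‖z‖ ≤ C * ‖D z‖ := by
    intro z hz
    obtain ⟨x, hx, hx2⟩ := hpre' (D z) (h2 z)
    have h3 : ‖z‖ ^ 2 ≤ ‖z‖ * ‖x‖ := by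
      have h4 : ⟪z, z⟫_ℂ = ⟪z, x⟫_ℂ := by
        have h5 : ⟪z, z - x⟫_ℂ = 0 := by
          rw [Submodule.mem_orthogonal'] at hz
          exact hz _ ((hKm _).2 (by rw [map_sub, hx, sub_self]))
        rw [inner_sub_right, sub_eq_zero] at h5
        exact h5
      have h5 := norm_inner_le_norm (𝕜 := ℂ) z x
      rw [← h4, inner_self_eq_norm_sq_to_K] at h5
      simpa using h5
    rcases eq_or_lt_of_le (norm_nonneg z) with h6 | h6
    · rw [← h6]; positivity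
    · have h7 : ‖z‖ * ‖z‖ ≤ ‖z‖ * ‖x‖ := by nlinarith
      exact (le_of_mul_le_mul_left h7 h6).trans hx2
  have hDz : ∀ z, z ∈ Kᗮ → (D†) z = 0 := by
    intro z hz
    rw [← inner_self_eq_zero (𝕜 := ℂ), ContinuousLinearMap.adjoint_inner_left]
    rw [Submodule.mem_orthogonal'] at hz
    exact hz _ (hmem _)
  have hbd : ∀ x, ‖x‖ ≤ C * ‖(D + D†) x‖ := by
    intro x
    obtain ⟨y, hyK, z, hzK, rfl⟩ := Submodule.exists_add_mem_mem_orthogonal (K := K) x
    have h3 : D y = 0 := (hKm y).1 hyK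
    have h4 := hDz z hzK
    have h5 : (D + D†) (y + z) = D z + (D†) y := by
      rw [add_apply, map_add, map_add, h3, h4, zero_add, add_zero]
    have h6 : ‖D z + (D†) y‖ ^ 2 = ‖D z‖ ^ 2 + ‖(D†) y‖ ^ 2 := by
      have h7 : ⟪D z, (D†) y⟫_ℂ = 0 := by
        rw [ContinuousLinearMap.adjoint_inner_right, h2, inner_zero_left]
      have := norm_add_sq_eq_norm_sq_add_norm_sq_of_inner_eq_zero (𝕜 := ℂ) (D z) ((D†) y) h7
      simpa [sq] using this
    have h8 : ‖y + z‖ ^ 2 = ‖y‖ ^ 2 + ‖z‖ ^ 2 := by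
      have h7 : ⟪y, z⟫_ℂ = 0 := Submodule.inner_right_of_mem_orthogonal hyK hzK
      have := norm_add_sq_eq_norm_sq_add_norm_sq_of_inner_eq_zero (𝕜 := ℂ) y z h7
      simpa [sq] using this
    refine abs_le_of_sq_le_sq' ?_ (by positivity) |>.2
    rw [h5, mul_pow, h6, h8]
    have h9 := hy y h3
    have h10 := hz z hzK
    have h11 : ‖y‖ ^ 2 ≤ (C * ‖(D†) y‖) ^ 2 := by gcongr
    have h12 : ‖z‖ ^ 2 ≤ (C * ‖D z‖) ^ 2 := by gcongr
    nlinarith
  rw [ContinuousLinearMap.isUnit_iff_bijective,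
    ContinuousLinearMap.bijective_iff_dense_range_and_antilipschitz]
  constructor
  · rw [Submodule.topologicalClosure_eq_top_iff, Submodule.eq_bot_iff]
    intro x hx
    rw [Submodule.mem_orthogonal] at hx
    have h3 : (D + D†) x = 0 := by
      rw [← inner_self_eq_zero (𝕜 := ℂ)]
      have h4 := hx ((D + D†) ((D + D†) x)) ⟨_, rfl⟩
      have h5 : (D + D†)† = D + D† := by
        rw [map_add, ContinuousLinearMap.adjoint_adjoint, add_comm]
      rw [← h5, ContinuousLinearMap.adjoint_inner_left] at h4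
      rw [h5] at h4
      exact h4
    have h4 := hbd x
    rw [h3, norm_zero, mul_zero] at h4
    exact norm_le_zero_iff.1 h4
  · refine ⟨⟨C, hC.le⟩, ?_⟩
    exact AddMonoidHomClass.antilipschitz_of_bound (D + D†) hbd

theorem exists_inv {T : H →L[ℂ] H} (h : IsUnit T) :
    ∃ R : H →L[ℂ] H, (∀ f, T (R f) = f) ∧ ∀ f, R (T f) = f := by
  obtain ⟨S, rfl⟩ := h
  refine ⟨((S⁻¹ : (H →L[ℂ] H)ˣ) : H →L[ℂ] H), fun f => ?_, fun f => ?_⟩
  · exact congrArg (fun F : H →L[ℂ] H => F f) (Units.mul_inv S)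
  · exact congrArg (fun F : H →L[ℂ] H => F f) (Units.inv_mul S)

theorem exact_of_isUnit (D E : H →L[ℂ] H) (hD : D * D = 0) (hE : E * E = 0)
    (hS : IsUnit (D + E)) : ∀ x, D x = 0 → ∃ y, D y = x := by
  intro x hx
  obtain ⟨S, hS⟩ := hS
  have hc : Commute ((S * S : (H →L[ℂ] H)ˣ) : H →L[ℂ] H) D := by
    rw [Units.val_mul, hS]
    change (D + E) * (D + E) * D = D * ((D + E) * (D + E))
    have e2 : E * D * D = 0 := by rw [mul_assoc, hD, mul_zero]
    simp only [mul_add, add_mul, hD, hE, zero_add, add_zero, zero_mul, ← mul_assoc, e2]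
  have hc' : Commute (((S * S)⁻¹ : (H →L[ℂ] H)ˣ) : H →L[ℂ] H) D := hc.units_inv_left
  have h1 : ((S * S : (H →L[ℂ] H)ˣ) : H →L[ℂ] H) x = D (E x) := by
    rw [Units.val_mul, hS]
    have h2 : (D + E) * (D + E) = D * E + E * D := by
      simp only [mul_add, add_mul, hD, hE, zero_add, add_zero]
      rw [add_comm]
    rw [h2, add_apply, mul_apply_eq_comp,
      mul_apply_eq_comp, hx, map_zero, add_zero]
  refine ⟨(((S * S)⁻¹ : (H →L[ℂ] H)ˣ) : H →L[ℂ] H) (E x), ?_⟩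
  have h3 : D ((((S * S)⁻¹ : (H →L[ℂ] H)ˣ) : H →L[ℂ] H) (E x)) =
      (((S * S)⁻¹ : (H →L[ℂ] H)ˣ) : H →L[ℂ] H) (D (E x)) :=
    (congrArg (fun F : H →L[ℂ] H => F (E x)) hc'.eq).symm
  rw [h3, ← h1]
  have h4 := congrArg (fun F : H →L[ℂ] H => F x) (Units.inv_mul (S * S))
  exact h4

theorem eventually_exact {ι : Type*} {l : Filter ι} (D' : ι → H →L[ℂ] H) (D : H →L[ℂ] H)
    (h2 : ∀ᶠ r in l, ∀ x, D' r (D' r x) = 0) (h2' : ∀ x, D (D x) = 0)
    (hex : ∀ x, D x = 0 → ∃ y, D y = x) (hlim : Filter.Tendsto D' l (nhds D)) :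
    ∀ᶠ r in l, ∀ x, D' r x = 0 → ∃ y, D' r y = x := by
  have h1 := isUnit_of_exact D h2' hex
  have h3 : Filter.Tendsto (fun r => D' r + D†) l (nhds (D + D†)) :=
    hlim.add tendsto_const_nhds
  have h4 := h3.eventually (Units.isOpen.mem_nhds h1)
  filter_upwards [h4, h2] with r hr hr2
  refine exact_of_isUnit (D' r) (D†) (ContinuousLinearMap.ext fun x => hr2 x) ?_ hr
  have h5 : D * D = 0 := ContinuousLinearMap.ext fun x => h2' x
  have h6 := congrArg ContinuousLinearMap.adjoint h5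
  rw [map_zero] at h6
  have h7 : (D * D)† = D† * D† := ContinuousLinearMap.adjoint_comp D D
  rw [h7] at h6
  exact h6

/-- if `D†` is exact then so is `D` -/
theorem exact_of_adjoint (D : H →L[ℂ] H) (h2 : ∀ x, D (D x) = 0)
    (hex : ∀ x, (D†) x = 0 → ∃ y, (D†) y = x) : ∀ x, D x = 0 → ∃ y, D y = x := by
  have h5 : D * D = 0 := ContinuousLinearMap.ext fun x => h2 x
  have h6 := congrArg ContinuousLinearMap.adjoint h5
  rw [map_zero] at h6
  have h7 : (D * D)† = D† * D† := ContinuousLinearMap.adjoint_comp D D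
  rw [h7] at h6
  have h8 := isUnit_of_exact (D†) (fun x => congrArg (fun F : H →L[ℂ] H => F x) h6) hex
  rw [ContinuousLinearMap.adjoint_adjoint, add_comm] at h8
  exact exact_of_isUnit D (D†) h5 h6 h8

end Pool.Agent.Y476.ZB
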