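import Pool.Agent.Y476.ZB.TensC

/-!
If the homology of a finite free resolution with coefficients in `C*_r(G)` vanishes, then the
cochain complex of equivariant maps into `ℓ²(G)` is exact.
-/

set_option autoImplicit false
set_option linter.unusedSectionVars false

open scoped Matrix

namespace Pool.Agent.Y476.ZB

open Pool.Agent.H919R4.ZS Pool.Agent.TH38.ZT

variable {G : Type*} [Group G]

theorem van_zero (X : FinRes G) (h : ∀ i, Subsingleton (X.homology (toRed G) i))
    (v : Fin (X.n 0) → L2 G) (hv : act ((X.d 0).map L) v = 0) : v = 0 := by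
  obtain ⟨s, hs0, -⟩ := contraction' X (toRed G) 0 (fun i _ => (exAt_iff X (toRed G) i).2 (h i))
  have key : ((X.d 0).map (toRed G)).map (valR (G := G)) = (X.d 0).map (L (G := G)) := by
    refine funext fun j => funext fun k => ?_
    exact coe_toRed (X.d 0 j k)
  have f0 : (s 0).map (valR (G := G)) * (X.d 0).map L = 1 := by
    have := map_ident0 (valR (G := G)) _ _ hs0
    rwa [key] at this
  rw [← act_one v, ← f0, act_mul, hv, act_zero]

theorem van_succ (X : FinRes G) (h : ∀ i, Subsingleton (X.homology (toRed G) i)) (i : ℕ)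
    (v : Fin (X.n (i + 1)) → L2 G) (hv : act ((X.d (i + 1)).map L) v = 0) :
    ∃ w, act ((X.d i).map L) w = v := by
  obtain ⟨s, -, hs⟩ := contraction' X (toRed G) (i + 1)
    (fun i _ => (exAt_iff X (toRed G) i).2 (h i))
  have key : ∀ i, ((X.d i).map (toRed G)).map (valR (G := G)) = (X.d i).map (L (G := G)) := by
    intro i
    refine funext fun j => funext fun k => ?_
    exact coe_toRed (X.d i j k)
  have f1 : (X.d i).map L * (s i).map (valR (G := G)) +
      (s (i + 1)).map (valR (G := G)) * (X.d (i + 1)).map L = 1 := by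
    have := map_ident (valR (G := G)) _ _ _ _ (hs i le_rfl)
    rwa [key, key] at this
  refine ⟨act ((s i).map (valR (G := G))) v, ?_⟩
  conv_rhs => rw [← act_one v, ← f1, act_add, act_mul, act_mul, hv, act_zero, add_zero]

/-- left translations of `ℓ²(G)` as linear maps -/
noncomputable def lC : G →* Module.End ℂ (L2 G) where
  toFun g := (lregL g : L2 G →ₗ[ℂ] L2 G)
  map_one' := by
    refine LinearMap.ext fun f => ?_
    ext h
    change f (1⁻¹ * h) = f h
    simp
  map_mul' g k := by
    refine LinearMap.ext fun f => ?_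
    ext h
    change f ((g * k)⁻¹ * h) = f (k⁻¹ * (g⁻¹ * h))
    simp [mul_assoc]

@[simp] lemma lC_apply (g : G) (f : L2 G) (h : G) : lC g f h = f (g⁻¹ * h) := rfl

lemma la_lC (a : MonoidAlgebra ℤ G) (f : L2 G) : la lC (zc a) f = L a f := by
  refine MonoidAlgebra.induction_linear a ?_ ?_ ?_
  · simp
  · intro x y hx hy
    rw [map_add, map_add, LinearMap.add_apply, hx, hy, map_add, add_apply]
  · intro g r
    have h1 : zc (MonoidAlgebra.single g r) = MonoidAlgebra.single g (r : ℂ) := by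
      simp [zc]
    rw [h1, la_single, L_single]
    have e1 : (r • lregL g : L2 G →L[ℂ] L2 G) f = (r : ℂ) • lregL g f := by
      rw [Int.cast_smul_eq_zsmul]; simp
    rw [e1]
    rfl

lemma ev_dC (X : FinRes G) (i : ℕ) (v : Fin (X.n i) → L2 G) (x : Fin (X.n (i + 1)) → MonoidAlgebra ℂ G) :
    ev lC v (dC X i x) = ev lC (act ((X.d i).map L) v) x := by
  have h1 : Eqv (lm (X.n (i + 1))) lC (ev lC v ∘ₗ dC X i) := by
    intro g u
    rw [LinearMap.comp_apply, dC_eqv, ev_eqv]
    rfl
  have h2 := eq_ev h1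
  have h3 := LinearMap.congr_fun h2 x
  rw [LinearMap.comp_apply] at h3
  rw [h3]
  congr 2
  funext j
  rw [LinearMap.comp_apply, dC, ev_single, map_one]
  change ev lC v (fun l => zc (X.d i j l)) = _
  rw [ev_apply]
  simp only [act, Matrix.map_apply, la_lC]

theorem homP_zero (X : FinRes G) (h : ∀ i, Subsingleton (X.homology (toRed G) i))
    (φ : (Fin (X.n 0) → MonoidAlgebra ℂ G) →ₗ[ℂ] L2 G) (hφ : Eqv (lm _) lC φ)
    (h0 : ∀ x, φ (dC X 0 x) = 0) : φ = 0 := by
  have h1 := eq_ev hφ
  have h2 : act ((X.d 0).map L) (fun j => φ (Pi.single j 1)) = 0 := by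
    funext j
    have h3 := h0 (Pi.single j 1)
    rw [h1, ev_dC, ev_single, map_one] at h3
    exact h3
  have h3 := van_zero X h _ h2
  rw [h1, h3]
  refine LinearMap.ext fun x => ?_
  rw [ev_apply]
  simp

theorem homP_succ (X : FinRes G) (h : ∀ i, Subsingleton (X.homology (toRed G) i)) (i : ℕ)
    (φ : (Fin (X.n (i + 1)) → MonoidAlgebra ℂ G) →ₗ[ℂ] L2 G) (hφ : Eqv (lm _) lC φ)
    (h0 : ∀ x, φ (dC X (i + 1) x) = 0) :
    ∃ ψ : (Fin (X.n i) → MonoidAlgebra ℂ G) →ₗ[ℂ] L2 G, Eqv (lm _) lC ψ ∧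
      ∀ x, φ x = ψ (dC X i x) := by
  have h1 := eq_ev hφ
  have h2 : act ((X.d (i + 1)).map L) (fun j => φ (Pi.single j 1)) = 0 := by
    funext j
    have h3 := h0 (Pi.single j 1)
    rw [h1, ev_dC, ev_single, map_one] at h3
    exact h3
  obtain ⟨w, hw⟩ := van_succ X h i _ h2
  refine ⟨ev lC w, ev_eqv _ _, fun x => ?_⟩
  rw [ev_dC, hw]
  exact LinearMap.congr_fun h1 x

end Pool.Agent.Y476.ZB
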