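import Mathlib

/-!
Linear actions of a group on complex vector spaces, permutation modules on free `G`-sets, and
lifting of equivariant maps.
-/

set_option autoImplicit false
set_option linter.unusedSectionVars false

namespace Pool.Agent.Y476.ZB

variable {G : Type*} [Group G]

/-- equivariant linear maps -/
def Eqv {U V : Type*} [AddCommGroup U] [Module ℂ U] [AddCommGroup V] [Module ℂ V]
    (σ : G →* Module.End ℂ U) (τ : G →* Module.End ℂ V) (f : U →ₗ[ℂ] V) : Prop :=
  ∀ g u, f (σ g u) = τ g (f u)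

section perm

variable {Ω : Type*} [MulAction G Ω]

/-- the permutation module of a `G`-set -/
noncomputable def pm : G →* Module.End ℂ (Ω →₀ ℂ) where
  toFun g := Finsupp.lmapDomain ℂ ℂ (fun x => g • x)
  map_one' := by
    refine LinearMap.ext fun f => ?_
    simp only [one_smul]
    exact Finsupp.mapDomain_id
  map_mul' g h := by
    refine LinearMap.ext fun f => ?_
    simp only [mul_smul]
    exact Finsupp.mapDomain_comp (f := fun x : Ω => h • x) (g := fun x : Ω => g • x)

@[simp] lemma pm_single (g : G) (x : Ω) (c : ℂ) :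
    pm g (Finsupp.single x c) = Finsupp.single (g • x) c := by
  simp [pm]

lemma pm_apply (g : G) (f : Ω →₀ ℂ) (x : Ω) : pm g f x = f (g⁻¹ • x) := by
  have : x = g • (g⁻¹ • x) := by simp
  conv_lhs => rw [this]
  exact Finsupp.mapDomain_apply (MulAction.injective g) f _

variable {U V : Type*} [AddCommGroup U] [Module ℂ U] [AddCommGroup V] [Module ℂ V]

theorem lift_perm (hfree : ∀ (g : G) (x : Ω), g • x = x → g = 1)
    (σ : G →* Module.End ℂ U) (τ : G →* Module.End ℂ V) (α : U →ₗ[ℂ] V) (hα : Eqv σ τ α)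
    (UU : Submodule ℂ U) (hUU : ∀ g u, u ∈ UU → σ g u ∈ UU)
    (f : (Ω →₀ ℂ) →ₗ[ℂ] V) (hf : Eqv pm τ f)
    (h : ∀ x, ∃ u ∈ UU, α u = f (Finsupp.single x 1)) :
    ∃ f' : (Ω →₀ ℂ) →ₗ[ℂ] U, Eqv pm σ f' ∧ (∀ x, f' x ∈ UU) ∧ ∀ x, α (f' x) = f x := by
  classical
  let rep : Ω → Ω := fun x => (Quotient.mk (MulAction.orbitRel G Ω) x).out
  have hrep : ∀ x, ∃ g : G, g • rep x = x := by
    intro x
    have h1 : (MulAction.orbitRel G Ω).r (rep x) x := Quotient.exact (Quotient.out_eq _)
    have h2 : rep x ∈ MulAction.orbit G x := h1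
    obtain ⟨g, hg⟩ := h2
    refine ⟨g⁻¹, ?_⟩
    rw [← hg]
    simp
  choose gx hgx using hrep
  have hrep2 : ∀ (g : G) x, rep (g • x) = rep x := by
    intro g x
    have : (Quotient.mk (MulAction.orbitRel G Ω) (g • x)) = Quotient.mk _ x :=
      Quotient.sound (MulAction.mem_orbit x g)
    simp only [rep, this]
  have hg2 : ∀ (g : G) x, gx (g • x) = g * gx x := by
    intro g x
    have h1 : gx (g • x) • rep x = g • x := by rw [← hrep2 g x, hgx]
    have h2 : (g * gx x) • rep x = g • x := by rw [mul_smul, hgx]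
    have h3 : ((g * gx x)⁻¹ * gx (g • x)) • rep x = rep x := by
      rw [mul_smul, h1, ← h2, inv_smul_smul]
    have h4 := hfree _ _ h3
    exact (inv_mul_eq_one.1 h4).symm
  choose u hu hαu using h
  refine ⟨Finsupp.linearCombination ℂ (fun x => σ (gx x) (u (rep x))), ?_, ?_, ?_⟩
  · intro g v
    have key : (Finsupp.linearCombination ℂ fun x => σ (gx x) (u (rep x))) ∘ₗ (pm g) =
        (σ g : U →ₗ[ℂ] U) ∘ₗ Finsupp.linearCombination ℂ (fun x => σ (gx x) (u (rep x))) := by
      ext x
      simp [hg2, hrep2]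
    exact LinearMap.congr_fun key v
  · intro x
    rw [Finsupp.linearCombination_apply]
    exact Submodule.sum_mem _ fun i _ => Submodule.smul_mem _ _ (hUU _ _ (hu _))
  · intro x
    have key : α ∘ₗ (Finsupp.linearCombination ℂ fun x => σ (gx x) (u (rep x))) = f := by
      ext x
      simp only [LinearMap.comp_apply, Finsupp.lsingle_apply, Finsupp.linearCombination_single,
        one_smul]
      rw [hα, hαu, ← hf, pm_single, hgx]
    exact LinearMap.congr_fun key x

end perm

section free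

/-- left multiplication on the free module `ℂ[G]^n` -/
noncomputable def lm (n : ℕ) : G →* Module.End ℂ (Fin n → MonoidAlgebra ℂ G) where
  toFun g := LinearMap.pi fun j => (LinearMap.mulLeft ℂ (MonoidAlgebra.single g 1)) ∘ₗ
    LinearMap.proj j
  map_one' := by
    refine LinearMap.ext fun x => funext fun j => ?_
    change MonoidAlgebra.single 1 1 * x j = x j
    rw [← MonoidAlgebra.one_def, one_mul]
  map_mul' g h := by
    refine LinearMap.ext fun x => funext fun j => ?_
    change MonoidAlgebra.single (g * h) 1 * x j =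
      MonoidAlgebra.single g 1 * (MonoidAlgebra.single h 1 * x j)
    rw [← mul_assoc, MonoidAlgebra.single_mul_single, one_mul]

@[simp] lemma lm_apply (n : ℕ) (g : G) (x : Fin n → MonoidAlgebra ℂ G) (j : Fin n) :
    lm n g x j = MonoidAlgebra.single g 1 * x j := rfl

variable {U V : Type*} [AddCommGroup U] [Module ℂ U] [AddCommGroup V] [Module ℂ V]

/-- the action of the group algebra -/
noncomputable def la (σ : G →* Module.End ℂ U) : MonoidAlgebra ℂ G →ₐ[ℂ] Module.End ℂ U :=
  MonoidAlgebra.lift ℂ (Module.End ℂ U) G σ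

lemma la_single (σ : G →* Module.End ℂ U) (g : G) (c : ℂ) :
    la σ (MonoidAlgebra.single g c) = c • σ g := by
  simp [la]

/-- the equivariant map `ℂ[G]^n → U` with given values at the basis -/
noncomputable def ev (σ : G →* Module.End ℂ U) {n : ℕ} (v : Fin n → U) :
    (Fin n → MonoidAlgebra ℂ G) →ₗ[ℂ] U :=
  ∑ j, (LinearMap.applyₗ (v j)) ∘ₗ (la σ).toLinearMap ∘ₗ LinearMap.proj j

lemma ev_apply (σ : G →* Module.End ℂ U) {n : ℕ} (v : Fin n → U)
    (x : Fin n → MonoidAlgebra ℂ G) : ev σ v x = ∑ j, la σ (x j) (v j) := by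
  simp [ev, LinearMap.sum_apply]

lemma ev_eqv (σ : G →* Module.End ℂ U) {n : ℕ} (v : Fin n → U) : Eqv (lm n) σ (ev σ v) := by
  intro g x
  rw [ev_apply, ev_apply, map_sum]
  refine Finset.sum_congr rfl fun j _ => ?_
  rw [lm_apply, map_mul, la_single, one_smul]
  rfl

lemma ev_single (σ : G →* Module.End ℂ U) {n : ℕ} (v : Fin n → U) (j : Fin n)
    (a : MonoidAlgebra ℂ G) : ev σ v (Pi.single j a) = la σ a (v j) := by
  rw [ev_apply, Finset.sum_eq_single j]
  · simp
  · intro i _ hi
    rw [Pi.single_eq_of_ne hi, map_zero, LinearMap.zero_apply]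
  · simp

lemma eqv_la {σ : G →* Module.End ℂ U} {τ : G →* Module.End ℂ V} {f : U →ₗ[ℂ] V}
    (hf : Eqv σ τ f) (a : MonoidAlgebra ℂ G) (u : U) : f (la σ a u) = la τ a (f u) := by
  refine MonoidAlgebra.induction_linear a ?_ ?_ ?_
  · simp
  · intro x y hx hy
    rw [map_add, map_add, LinearMap.add_apply, LinearMap.add_apply, map_add, hx, hy]
  · intro g c
    rw [la_single, la_single, LinearMap.smul_apply, LinearMap.smul_apply, map_smul, hf]

lemma la_lm (n : ℕ) (a : MonoidAlgebra ℂ G) (x : Fin n → MonoidAlgebra ℂ G) :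
    la (lm n) a x = fun j => a * x j := by
  refine MonoidAlgebra.induction_linear a ?_ ?_ ?_
  · simp; rfl
  · intro x y hx hy
    rw [map_add, LinearMap.add_apply, hx, hy]
    funext j
    simp [add_mul]
  · intro g c
    rw [la_single]
    funext j
    rw [LinearMap.smul_apply, Pi.smul_apply, lm_apply]
    rw [← smul_mul_assoc]
    congr 1
    rw [MonoidAlgebra.smul_single, smul_eq_mul, mul_one]

lemma eq_ev {τ : G →* Module.End ℂ V} {n : ℕ} {f : (Fin n → MonoidAlgebra ℂ G) →ₗ[ℂ] V}
    (hf : Eqv (lm n) τ f) : f = ev τ (fun j => f (Pi.single j 1)) := by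
  refine LinearMap.ext fun x => ?_
  rw [ev_apply]
  have h1 : x = ∑ j, la (lm n) (x j) (Pi.single j 1) := by
    funext k
    rw [Finset.sum_apply, Finset.sum_eq_single k]
    · simp [la_lm]
    · intro i _ hi
      simp [la_lm, Pi.single_eq_of_ne hi.symm]
    · simp
  conv_lhs => rw [h1]
  rw [map_sum]
  exact Finset.sum_congr rfl fun j _ => eqv_la hf _ _

theorem lift_free {n : ℕ} (σ : G →* Module.End ℂ U) (τ : G →* Module.End ℂ V) (α : U →ₗ[ℂ] V)
    (hα : Eqv σ τ α) (UU : Submodule ℂ U) (hUU : ∀ g u, u ∈ UU → σ g u ∈ UU)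
    (f : (Fin n → MonoidAlgebra ℂ G) →ₗ[ℂ] V) (hf : Eqv (lm n) τ f)
    (h : ∀ j, ∃ u ∈ UU, α u = f (Pi.single j 1)) :
    ∃ f' : (Fin n → MonoidAlgebra ℂ G) →ₗ[ℂ] U, Eqv (lm n) σ f' ∧ (∀ x, f' x ∈ UU) ∧
      ∀ x, α (f' x) = f x := by
  choose u hu hαu using h
  refine ⟨ev σ u, ev_eqv σ u, ?_, ?_⟩
  · intro x
    rw [ev_apply]
    refine Submodule.sum_mem _ fun j _ => ?_
    have key : ∀ a : MonoidAlgebra ℂ G, ∀ v ∈ UU, la σ a v ∈ UU := by
      intro a v hv
      refine MonoidAlgebra.induction_linear a ?_ ?_ ?_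
      · rw [map_zero]; exact UU.zero_mem
      · intro x y hx hy
        rw [map_add]; exact UU.add_mem hx hy
      · intro g c
        rw [la_single]; exact UU.smul_mem _ (hUU _ _ hv)
    exact key _ _ (hu j)
  · intro x
    rw [eq_ev hf, ev_apply, ev_apply, map_sum]
    refine Finset.sum_congr rfl fun j _ => ?_
    rw [eqv_la hα, hαu]

end free

end Pool.Agent.Y476.ZB
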