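import Mathlib

/-!
The signs of the augmented chain complex of a full simplex.
-/

set_option autoImplicit false
set_option linter.unusedSectionVars false

namespace Pool.Agent.Y476.ZB

variable {B : Type*} [Fintype B] [LinearOrder B]

/-- the sign of `i` with respect to `T` -/
def sgn (i : B) (T : Finset B) : ℂ := (-1) ^ (T.filter (· < i)).card

lemma sgn_mul_self (i : B) (T : Finset B) : sgn i T * sgn i T = 1 := by
  rw [sgn, ← mul_pow]
  norm_num

lemma sgn_insert {i j : B} {U : Finset B} (hj : j ∉ U) :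
    sgn i (insert j U) = if j < i then - sgn i U else sgn i U := by
  rw [sgn, sgn, Finset.filter_insert]
  split_ifs with h
  · rw [Finset.card_insert_of_notMem (by simp [hj]), pow_succ]
    ring
  · rfl

lemma sgn_anti {i j : B} {U : Finset B} (hij : i ≠ j) (hi : i ∉ U) (hj : j ∉ U) :
    sgn i (insert j U) * sgn j U = - (sgn j (insert i U) * sgn i U) := by
  rw [sgn_insert hj, sgn_insert hi]
  rcases lt_or_gt_of_ne hij with h | h
  · rw [if_neg (not_lt.2 h.le), if_pos h]
    ring
  · rw [if_pos h, if_neg (not_lt.2 h.le)]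
    ring

lemma star_sgn (i : B) (T : Finset B) : star (sgn i T) = sgn i T := by
  simp [sgn]

lemma norm_sgn (i : B) (T : Finset B) : ‖sgn i T‖ = 1 := by
  simp [sgn]

/-- the differential -/
def dd (α : Finset B → ℂ) (T : Finset B) : ℂ :=
  ∑ i, if i ∉ T then sgn i T * α (insert i T) else 0

/-- the contraction -/
def hh (i₀ : B) (α : Finset B → ℂ) (T : Finset B) : ℂ :=
  if i₀ ∈ T then sgn i₀ (T.erase i₀) * α (T.erase i₀) else 0

lemma dd_dd (α : Finset B → ℂ) (T : Finset B) : dd (dd α) T = 0 := by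
  have h1 : dd (dd α) T = ∑ i, ∑ j, if i ∉ T ∧ j ∉ T ∧ i ≠ j then
      sgn i T * (sgn j (insert i T) * α (insert j (insert i T))) else 0 := by
    unfold dd
    refine Finset.sum_congr rfl fun i _ => ?_
    by_cases hi : i ∉ T
    · rw [if_pos hi, Finset.mul_sum]
      refine Finset.sum_congr rfl fun j _ => ?_
      by_cases hj : j ∉ insert i T
      · have h2 : i ≠ j ∧ j ∉ T := by
          rw [Finset.mem_insert, not_or] at hj
          exact ⟨fun h => hj.1 h.symm, hj.2⟩
        rw [if_pos hj, if_pos ⟨hi, h2.2, h2.1⟩]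
      · rw [if_neg hj, mul_zero, if_neg]
        rintro ⟨-, h2, h3⟩
        apply hj
        rw [Finset.mem_insert, not_or]
        exact ⟨fun h => h3 h.symm, h2⟩
    · rw [if_neg hi]
      symm
      refine Finset.sum_eq_zero fun j _ => ?_
      rw [if_neg]
      exact fun h => hi h.1
  have h2 : dd (dd α) T = - dd (dd α) T := by
    conv_rhs => rw [h1, Finset.sum_comm]
    rw [h1, ← Finset.sum_neg_distrib]
    refine Finset.sum_congr rfl fun i _ => ?_
    rw [← Finset.sum_neg_distrib]
    refine Finset.sum_congr rfl fun j _ => ?_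
    by_cases h : i ∉ T ∧ j ∉ T ∧ i ≠ j
    · rw [if_pos h, if_pos ⟨h.2.1, h.1, h.2.2.symm⟩]
      have h3 := sgn_anti h.2.2 h.1 h.2.1
      rw [Finset.insert_comm j i T]
      rw [← mul_assoc, ← mul_assoc, mul_comm (sgn i T), mul_comm (sgn j T), h3]
      ring
    · rw [if_neg h, if_neg, neg_zero]
      rintro ⟨h1, h2, h3⟩
      exact h ⟨h2, h1, h3.symm⟩
  have h3 : (2 : ℂ) * dd (dd α) T = 0 := by
    rw [two_mul]
    nth_rewrite 1 [h2]
    ring
  simpa using h3

lemma sgn_anti' {i j : B} {U : Finset B} (hij : i ≠ j) (hi : i ∉ U) (hj : j ∉ U) :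
    sgn i (insert j U) * sgn j (insert i U) = - (sgn j U * sgn i U) := by
  have h := sgn_anti hij hi hj
  have h1 := sgn_mul_self j U
  have h2 := sgn_mul_self j (insert i U)
  calc sgn i (insert j U) * sgn j (insert i U)
      = (sgn i (insert j U) * sgn j U) * sgn j (insert i U) * sgn j U := by
        linear_combination (-(sgn i (insert j U) * sgn j (insert i U))) * h1
    _ = - (sgn j U * sgn i U) := by
        rw [h]
        linear_combination (-(sgn i U * sgn j U)) * h2

lemma hh_pos {i₀ : B} {T : Finset B} (α : Finset B → ℂ) (h : i₀ ∉ T) :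
    hh i₀ α (insert i₀ T) = sgn i₀ T * α T := by
  unfold hh
  rw [if_pos (Finset.mem_insert_self _ _), Finset.erase_insert h]

lemma hh_neg {i₀ : B} {T : Finset B} (α : Finset B → ℂ) (h : i₀ ∉ T) : hh i₀ α T = 0 := by
  unfold hh
  rw [if_neg h]

lemma dd_hh (i₀ : B) (α : Finset B → ℂ) (T : Finset B) :
    dd (hh i₀ α) T + hh i₀ (dd α) T = α T := by
  by_cases h0 : i₀ ∈ T
  · obtain ⟨U, hU⟩ : ∃ U, U = T.erase i₀ := ⟨_, rfl⟩
    have hiU : i₀ ∉ U := by rw [hU]; simp
    have e1 : T = insert i₀ U := by rw [hU, Finset.insert_erase h0]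
    subst e1
    rw [hh_pos _ hiU]
    unfold dd
    rw [Finset.mul_sum, ← Finset.sum_add_distrib, Finset.sum_eq_single i₀]
    · rw [if_neg (by simp), if_pos hiU, zero_add, ← mul_assoc, sgn_mul_self, one_mul]
    · intro i _ hi
      by_cases h1 : i ∉ U
      · have h2 : i ∉ insert i₀ U := by
          rw [Finset.mem_insert, not_or]
          exact ⟨hi, h1⟩
        have h3 : i₀ ∉ insert i U := by
          rw [Finset.mem_insert, not_or]
          exact ⟨hi.symm, hiU⟩
        rw [if_pos h2, if_pos h1, Finset.insert_comm, hh_pos _ h3]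
        have h4 := sgn_anti' hi h1 hiU
        linear_combination (α (insert i U)) * h4
      · rw [if_neg h1, if_neg (fun h => h1 (fun h' => h (Finset.mem_insert_of_mem h'))), mul_zero,
          add_zero]
    · simp
  · rw [hh_neg _ h0, add_zero]
    unfold dd
    rw [Finset.sum_eq_single i₀]
    · rw [if_pos h0, hh_pos _ h0, ← mul_assoc, sgn_mul_self, one_mul]
    · intro i _ hi
      split_ifs with h1
      · rfl
      · rw [hh_neg, mul_zero]
        rw [Finset.mem_insert, not_or]
        exact ⟨hi.symm, h0⟩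
    · simp

end Pool.Agent.Y476.ZB
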