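import Pool.Agent.Y476.ZB.Bld
import Pool.Agent.Y476.ZB.Sgn
import Pool.Agent.Y476.ZB.Lift

/-!
The complex of finitely supported functions on the chambers with vanishing panel sums.
-/

set_option autoImplicit false
set_option linter.unusedSectionVars false

namespace Pool.Agent.Y476.ZB

open CoxeterSystem Pool.Agent.TH5.BD

/-- pairs of a type and a chamber -/
@[ext] structure Om (B C : Type*) where
  /-- the type -/
  T : Finset B
  /-- the chamber -/
  c : C

instance instActOm {G B C : Type*} [Monoid G] [MulAction G C] : MulAction G (Om B C) where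
  smul g x := ⟨x.T, g • x.c⟩
  one_smul x := by
    change Om.mk x.T ((1 : G) • x.c) = x
    rw [one_smul]
  mul_smul g h x := by
    change Om.mk x.T ((g * h) • x.c) = Om.mk x.T (g • h • x.c)
    rw [mul_smul]

lemma smul_Om {G B C : Type*} [Monoid G] [MulAction G C] (g : G) (T : Finset B) (c : C) :
    g • (Om.mk T c) = Om.mk T (g • c) := rfl

variable {B : Type*} {M : CoxeterMatrix B} {W : Type*} [Group W]

/-- spherical types -/
def Sph (cs : CoxeterSystem M W) (T : Finset B) : Prop :=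
  ((Par cs (T : Set B) : Subgroup W) : Set W).Finite

lemma Sph.mono {cs : CoxeterSystem M W} {T T' : Finset B} (h : Sph cs T') (hT : T ⊆ T') :
    Sph cs T :=
  Set.Finite.subset h (par_mono (by exact_mod_cast hT))

lemma sph_empty (cs : CoxeterSystem M W) : Sph cs (∅ : Finset B) := by
  unfold Sph Par
  simp

variable {cs : CoxeterSystem M W} {C : Type*} (b : Building cs C)

namespace Building

lemma PS.add {s : B} {f g : C → ℂ} (hf : b.PS s f) (hg : b.PS s g) : b.PS s (fun c => f c + g c) := by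
  intro x
  rw [Finset.sum_add_distrib, hf, hg, add_zero]

lemma PS.smul {s : B} {f : C → ℂ} (a : ℂ) (hf : b.PS s f) : b.PS s (fun c => a * f c) := by
  intro x
  rw [← Finset.mul_sum, hf, mul_zero]

lemma PS.zero {s : B} : b.PS s (fun _ => 0) := by
  intro x
  simp

lemma PS.sum {ι : Type*} {t : Finset ι} {s : B} {f : ι → C → ℂ} (h : ∀ i ∈ t, b.PS s (f i)) :
    b.PS s (fun c => ∑ i ∈ t, f i c) := by
  intro x
  rw [Finset.sum_comm]
  exact Finset.sum_eq_zero fun i hi => h i hi x

lemma card_pan (s : B) (x : C) : (b.pan s x).card = b.q s + 1 := by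
  classical
  rw [pan, Finset.card_insert_of_notMem (b.not_mem_nb s x), card_nb]

lemma PS.total {s : B} (f : C →₀ ℂ) (h : b.PS s f) : (f.sum fun _ a => a) = 0 := by
  classical
  obtain ⟨U, hU⟩ : ∃ U, U = f.support.biUnion (b.pan s) := ⟨_, rfl⟩
  have hcl : ∀ x ∈ U, b.pan s x ⊆ U := by
    intro x hx y hy
    rw [hU, Finset.mem_biUnion] at hx ⊢
    obtain ⟨z, hz, hzx⟩ := hx
    exact ⟨z, hz, b.pan_trans hzx hy⟩
  have h1 : (f.sum fun _ a => a) = ∑ x ∈ U, f x := by
    rw [Finsupp.sum]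
    refine Finset.sum_subset ?_ fun x _ hx => Finsupp.notMem_support_iff.1 hx
    intro x hx
    rw [hU, Finset.mem_biUnion]
    exact ⟨x, hx, b.self_mem_pan s x⟩
  have h2 : ∑ x ∈ U, ∑ y ∈ b.pan s x, f y = 0 := Finset.sum_eq_zero fun x _ => h x
  have h3 : ∑ x ∈ U, ∑ y ∈ b.pan s x, f y = ∑ y ∈ U, ((b.q s + 1 : ℕ) : ℂ) * f y := by
    have h4 : ∀ x ∈ U, ∑ y ∈ b.pan s x, f y = ∑ y ∈ U, if y ∈ b.pan s x then f y else 0 := by
      intro x hx
      rw [← Finset.sum_filter]
      refine Finset.sum_congr ?_ fun _ _ => rfl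
      ext y
      rw [Finset.mem_filter]
      exact ⟨fun hy => ⟨hcl x hx hy, hy⟩, fun hy => hy.2⟩
    rw [Finset.sum_congr rfl h4, Finset.sum_comm]
    refine Finset.sum_congr rfl fun y hy => ?_
    rw [← Finset.sum_filter, Finset.sum_const, nsmul_eq_mul]
    congr 2
    rw [← b.card_pan s y]
    congr 1
    ext x
    rw [Finset.mem_filter]
    exact ⟨fun hx => b.pan_symm hx.2, fun hx => ⟨hcl y hy hx, b.pan_symm hx⟩⟩
  rw [h3, ← Finset.mul_sum] at h2
  rw [h1]
  rcases mul_eq_zero.1 h2 with h5 | h5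
  · exfalso
    have : ((b.q s + 1 : ℕ) : ℂ) ≠ 0 := by exact_mod_cast Nat.succ_ne_zero (b.q s)
    exact this h5
  · exact h5

/-- functions of degree `k` with spherical types and vanishing panel sums -/
def KK (k : ℕ) : Submodule ℂ (Om B C →₀ ℂ) where
  carrier := {a | (∀ T c, a ⟨T, c⟩ ≠ 0 → T.card = k ∧ Sph cs T) ∧
    ∀ T, ∀ s ∈ T, b.PS s (fun c => a ⟨T, c⟩)}
  zero_mem' := ⟨fun T c h => absurd rfl h, fun T s _ => PS.zero b⟩
  add_mem' := by
    rintro x y ⟨hx, hx'⟩ ⟨hy, hy'⟩
    refine ⟨fun T c h => ?_, fun T s hs => (hx' T s hs).add b (hy' T s hs)⟩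
    by_cases h1 : x ⟨T, c⟩ = 0
    · apply hy T c
      intro h2
      apply h
      rw [Finsupp.add_apply, h1, h2, add_zero]
    · exact hx T c h1
  smul_mem' := by
    rintro a x ⟨hx, hx'⟩
    refine ⟨fun T c h => hx T c fun h1 => h ?_, fun T s hs => (hx' T s hs).smul b a⟩
    rw [Finsupp.smul_apply, h1, smul_zero]

lemma mem_KK {k : ℕ} {a : Om B C →₀ ℂ} : a ∈ b.KK k ↔
    (∀ T c, a ⟨T, c⟩ ≠ 0 → T.card = k ∧ Sph cs T) ∧ ∀ T, ∀ s ∈ T, b.PS s (fun c => a ⟨T, c⟩) :=
  Iff.rfl

end Building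

section bd

variable [Fintype B] [LinearOrder B]

/-- the differential -/
noncomputable def bd : (Om B C →₀ ℂ) →ₗ[ℂ] (Om B C →₀ ℂ) :=
  Finsupp.linearCombination ℂ (fun x : Om B C =>
    ∑ i : B, if i ∈ x.T then sgn i (x.T.erase i) • Finsupp.single (Om.mk (x.T.erase i) x.c) 1
      else 0)

lemma bd_apply (a : Om B C →₀ ℂ) (T : Finset B) (c : C) :
    bd a ⟨T, c⟩ = dd (fun T => a ⟨T, c⟩) T := by
  classical
  induction a using Finsupp.induction_linear with
  | zero => simp [dd]
  | add f g hf hg =>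
    rw [map_add, Finsupp.add_apply, hf, hg]
    unfold dd
    rw [← Finset.sum_add_distrib]
    refine Finset.sum_congr rfl fun i _ => ?_
    split_ifs
    · simp
    · change sgn i T * f _ + sgn i T * g _ = sgn i T * (f _ + g _)
      ring
  | single x r =>
    obtain ⟨T', c'⟩ := x
    rw [bd, Finsupp.linearCombination_single, Finsupp.smul_apply, Finsupp.finsetSum_apply]
    unfold dd
    rw [Finset.smul_sum]
    refine Finset.sum_congr rfl fun i _ => ?_
    by_cases h1 : i ∈ T' ∧ T'.erase i = T ∧ c' = c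
    · obtain ⟨h1, h2, h3⟩ := h1
      subst h2 h3
      have e : insert i (T'.erase i) = T' := Finset.insert_erase h1
      rw [if_pos h1, if_pos (by simp), e]
      simp [mul_comm]
    · have h2 : ∀ h : i ∈ T', (Om.mk (T'.erase i) c') ≠ ⟨T, c⟩ := by
        intro h h'
        have h3 := Om.mk.inj h'
        exact h1 ⟨h, h3.1, h3.2⟩
      have h3 : ∀ h : i ∉ T, (Om.mk T' c') ≠ ⟨insert i T, c⟩ := by
        intro h h'
        have h3 := Om.mk.inj h'
        apply h1
        rw [h3.1]
        exact ⟨by simp, Finset.erase_insert h, h3.2⟩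
      have e1 : (if i ∈ T' then sgn i (T'.erase i) •
          Finsupp.single (Om.mk (T'.erase i) c') (1 : ℂ) else 0) ⟨T, c⟩ = 0 := by
        split_ifs with h
        · rw [Finsupp.smul_apply, Finsupp.single_eq_of_ne (h2 h).symm, smul_zero]
        · rfl
      rw [e1, smul_zero]
      split_ifs with h
      · rfl
      · change 0 = sgn i T * (Finsupp.single (Om.mk T' c') r) (Om.mk (insert i T) c)
        rw [Finsupp.single_eq_of_ne (h3 h).symm, mul_zero]

/-- the augmentation -/
noncomputable def epsK : (Om B C →₀ ℂ) →ₗ[ℂ] ℂ :=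
  Finsupp.linearCombination ℂ (fun x : Om B C => if x.T = ∅ then (1 : ℂ) else 0)

lemma bd_bd (a : Om B C →₀ ℂ) : bd (bd a) = 0 := by
  ext ⟨T, c⟩
  rw [bd_apply]
  simp only [bd_apply]
  exact dd_dd _ T

/-- the rows of a function -/
noncomputable def row (T : Finset B) : (Om B C →₀ ℂ) →ₗ[ℂ] (C →₀ ℂ) where
  toFun a := Finsupp.comapDomain (fun c => (Om.mk T c)) a
    (fun x _ y _ h => (Om.mk.inj h).2)
  map_add' a a' := by ext; rfl
  map_smul' r a := by ext; rfl

@[simp] lemma row_apply (T : Finset B) (a : Om B C →₀ ℂ) (c : C) : row T a c = a ⟨T, c⟩ := rfl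

/-- the sum of the values -/
noncomputable def tot : (C →₀ ℂ) →ₗ[ℂ] ℂ := Finsupp.linearCombination ℂ (fun _ => (1 : ℂ))

lemma tot_apply (f : C →₀ ℂ) : tot f = f.sum fun _ a => a := by
  simp [tot, Finsupp.linearCombination_apply]

lemma epsK_eq (a : Om B C →₀ ℂ) : epsK a = tot (row ∅ a) := by
  have : (epsK : (Om B C →₀ ℂ) →ₗ[ℂ] ℂ) = tot ∘ₗ row ∅ := by
    ext ⟨T, c⟩
    simp only [epsK, LinearMap.comp_apply, Finsupp.lsingle_apply,
      Finsupp.linearCombination_single, one_smul]
    by_cases h : T = ∅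
    · subst h
      have e : row ∅ (Finsupp.single (Om.mk (∅ : Finset B) c) (1 : ℂ)) = Finsupp.single c 1 := by
        classical
        ext c'
        rw [row_apply, Finsupp.single_apply, Finsupp.single_apply]
        have : (Om.mk (∅ : Finset B) c) = ⟨∅, c'⟩ ↔ c = c' :=
          ⟨fun h => (Om.mk.inj h).2, fun h => by rw [h]⟩
        simp only [this]
      rw [e]
      simp [tot]
    · have e : row ∅ (Finsupp.single (Om.mk T c) (1 : ℂ)) = 0 := by
        ext c'
        rw [row_apply, Finsupp.single_eq_of_ne, Finsupp.zero_apply]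
        intro h'
        exact h (Om.mk.inj h').1.symm
      rw [e, map_zero]
      simp [h]
  rw [this]
  rfl

end bd

end Pool.Agent.Y476.ZB
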