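import Pool.Agent.Y476.ZB.KCxA

/-!
Exactness of the complex of finitely supported functions on the chambers with vanishing panel sums.
-/

set_option autoImplicit false
set_option linter.unusedSectionVars false

namespace Pool.Agent.Y476.ZB

open CoxeterSystem Pool.Agent.TH5.BD

variable {B : Type*} {M : CoxeterMatrix B} {W : Type*} [Group W]
variable {cs : CoxeterSystem M W} {C : Type*} (b : Building cs C)

namespace Building

open Classical in
/-- the alternating function on an apartment of the residue of type `I` of `c`, as seen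
from `a` -/
noncomputable def phi (a c : C) (I : Set B) (y : C) : ℂ :=
  if b.δ c y ∈ Par cs I ∧ b.δ a y = b.δ a c * b.δ c y then (-1) ^ cs.length (b.δ c y) else 0

lemma phi_self (a c : C) (I : Set B) : b.phi a c I c = 1 := by
  unfold phi
  rw [if_pos]
  · rw [b.δ_self, cs.length_one, pow_zero]
  · rw [b.δ_self, mul_one]
    exact ⟨Subgroup.one_mem _, rfl⟩

section
variable [Fintype B] [DecidableEq B]

variable {b} in
lemma phi_len {a c : C} {I : Set B}
    (hI : ∀ i ∈ I, cs.length (b.δ a c * cs.simple i) < cs.length (b.δ a c)) {y : C}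
    (h : b.phi a c I y ≠ 0) :
    cs.length (b.δ a y) + cs.length (b.δ c y) = cs.length (b.δ a c) := by
  unfold phi at h
  by_cases h1 : b.δ c y ∈ Par cs I ∧ b.δ a y = b.δ a c * b.δ c y
  · rw [h1.2]
    exact top_mul hI h1.1
  · rw [if_neg h1] at h
    exact absurd rfl h

/-- the partner of a chamber of the apartment -/
lemma phi_partner {a c : C} {I : Set B}
    (hI : ∀ i ∈ I, cs.length (b.δ a c * cs.simple i) < cs.length (b.δ a c)) {s : B} (hs : s ∈ I)
    {x : C} (h1 : b.δ c x ∈ Par cs I) (h2 : b.δ a x = b.δ a c * b.δ c x) :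
    ∃ x', b.δ x x' = cs.simple s ∧ b.δ c x' = b.δ c x * cs.simple s ∧
      b.δ a x' = b.δ a c * b.δ c x' ∧
      ∀ y ∈ b.pan s x, b.δ a y = b.δ a c * b.δ c y → y = x ∨ y = x' := by
  have h3 : b.δ c x * cs.simple s ∈ Par cs I := Subgroup.mul_mem _ h1 (simple_mem_par hs)
  have t1 := top_mul hI h1
  have t2 := top_mul hI h3
  rw [← mul_assoc, ← h2] at t2
  rw [← h2] at t1
  rcases cs.length_mul_simple (b.δ c x) s with h | h
  · -- `u s > u`
    obtain ⟨x', e1, e2⟩ := b.exists_right s a x
    have e3 := b.eq_right (a := c) e1 h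
    refine ⟨x', e1, e3, by rw [e2, e3, h2, mul_assoc], ?_⟩
    intro y hy hy2
    rcases b.mem_pan.1 hy with rfl | hy1
    · exact Or.inl rfl
    right
    have e4 := b.eq_right (a := c) hy1 h
    have h5 : y ∈ b.pan s x' := b.pan_trans (b.pan_symm (b.mem_pan.2 (Or.inr e1))) hy
    rcases b.mem_pan.1 h5 with rfl | h6
    · rfl
    exfalso
    have h7 := b.eq_right (a := a) h6 (by
      rw [e2, cs.simple_mul_simple_cancel_right]
      omega)
    rw [e2, cs.simple_mul_simple_cancel_right, hy2, e4, ← mul_assoc, ← h2] at h7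
    have : cs.length (b.δ a x * cs.simple s) = cs.length (b.δ a x) := by rw [h7]
    omega
  · obtain ⟨x', e1, e2⟩ := b.exists_right s c x
    have e3 := b.eq_right (a := a) e1 (by omega)
    refine ⟨x', e1, e2, by rw [e2, e3, h2, mul_assoc], ?_⟩
    intro y hy hy2
    rcases b.mem_pan.1 hy with rfl | hy1
    · exact Or.inl rfl
    right
    have e4 := b.eq_right (a := a) hy1 (by omega)
    have h5 : y ∈ b.pan s x' := b.pan_trans (b.pan_symm (b.mem_pan.2 (Or.inr e1))) hy
    rcases b.mem_pan.1 h5 with rfl | h6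
    · rfl
    exfalso
    have h7 := b.eq_right (a := c) h6 (by
      rw [e2, cs.simple_mul_simple_cancel_right]
      omega)
    rw [e2, cs.simple_mul_simple_cancel_right] at h7
    rw [e4, h7, ← h2] at hy2
    have : cs.length (b.δ a x * cs.simple s) = cs.length (b.δ a x) := by rw [hy2]
    omega

lemma phi_PS {a c : C} {I : Set B}
    (hI : ∀ i ∈ I, cs.length (b.δ a c * cs.simple i) < cs.length (b.δ a c)) {s : B}
    (hs : s ∈ I) : b.PS s (b.phi a c I) := by
  classical
  intro d
  by_cases hd : ∃ x ∈ b.pan s d, b.δ c x ∈ Par cs I ∧ b.δ a x = b.δ a c * b.δ c x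
  · obtain ⟨x, hx, h1, h2⟩ := hd
    rw [← b.pan_eq hx]
    obtain ⟨x', e1, e2, e3, e4⟩ := b.phi_partner hI hs h1 h2
    have h3 : b.δ c x' ∈ Par cs I := by
      rw [e2]; exact Subgroup.mul_mem _ h1 (simple_mem_par hs)
    have hne : x ≠ x' := by
      rintro rfl
      rw [b.δ_self] at e1
      exact simple_ne_one s e1.symm
    rw [Finset.sum_eq_add_of_mem x x' (b.self_mem_pan s x) (b.mem_pan.2 (Or.inr e1)) hne]
    · unfold phi
      rw [if_pos ⟨h1, h2⟩, if_pos ⟨h3, e3⟩, e2]
      rcases cs.length_mul_simple (b.δ c x) s with h | h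
      · rw [h, pow_succ]; ring
      · rw [← h, pow_succ]; ring
    · intro y hy hy2
      unfold phi
      rw [if_neg]
      rintro ⟨-, h5⟩
      rcases e4 y hy h5 with h6 | h6
      · exact hy2.1 h6
      · exact hy2.2 h6
  · refine Finset.sum_eq_zero fun x hx => ?_
    unfold phi
    rw [if_neg]
    exact fun h => hd ⟨x, hx, h⟩

lemma phi_support_finite {a c : C} {I : Set B}
    (hI : ∀ i ∈ I, cs.length (b.δ a c * cs.simple i) < cs.length (b.δ a c)) :
    (Function.support (b.phi a c I)).Finite := by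
  refine Set.Finite.subset (Set.Finite.biUnion (par_finite_of_top hI)
    (t := fun u => {y | b.δ c y = u}) fun u _ => b.sph_finite c _ u rfl) ?_
  intro y hy
  rw [Set.mem_iUnion₂]
  refine ⟨b.δ c y, ?_, rfl⟩
  by_contra h
  apply hy
  unfold phi
  rw [if_neg]
  exact fun h' => h h'.1

end

end Building

/-- the function `f` placed in the row `T` -/
noncomputable def emb (T : Finset B) : (C →₀ ℂ) →ₗ[ℂ] (Om B C →₀ ℂ) :=
  Finsupp.lmapDomain ℂ ℂ (fun c => Om.mk T c)

lemma emb_apply_self (T : Finset B) (f : C →₀ ℂ) (c : C) : emb T f ⟨T, c⟩ = f c := by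
  have : Function.Injective (fun c : C => Om.mk T c) := fun x y h => (Om.mk.inj h).2
  exact Finsupp.mapDomain_apply this f c

lemma emb_apply_ne {T T' : Finset B} (h : T ≠ T') (f : C →₀ ℂ) (c : C) : emb T f ⟨T', c⟩ = 0 := by
  apply Finsupp.mapDomain_of_notMem_range
  rintro ⟨c', h'⟩
  exact h (Om.mk.inj h').1

open Classical in
lemma emb_apply (T T' : Finset B) (f : C →₀ ℂ) (c : C) :
    emb T f ⟨T', c⟩ = if T = T' then f c else 0 := by
  split_ifs with h
  · subst h; exact emb_apply_self T f c
  · exact emb_apply_ne h f c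

lemma emb_mem {k : ℕ} {T : Finset B} (hk : T.card = k) (hT : Sph cs T) {f : C →₀ ℂ}
    (hf : ∀ s ∈ T, b.PS s f) : emb T f ∈ b.KK k := by
  classical
  rw [Building.mem_KK]
  constructor
  · intro T' c h
    rw [emb_apply] at h
    split_ifs at h with h1
    · rw [← h1]
      exact ⟨hk, hT⟩
    · exact absurd rfl h
  · intro T' s hs
    by_cases h1 : T = T'
    · subst h1
      intro x
      simp only [emb_apply_self]
      exact hf s hs x
    · intro x
      exact Finset.sum_eq_zero fun y _ => emb_apply_ne h1 f y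

section exact

variable [Fintype B] [LinearOrder B]

/-- bound for the distance of the support from `a` -/
def Bd (a : C) (n : ℕ) (f : Om B C →₀ ℂ) : Prop :=
  ∀ T c, f ⟨T, c⟩ ≠ 0 → cs.length (b.δ a c) ≤ n

variable {b}

lemma top_sub {a : C} {k : ℕ} {f : Om B C →₀ ℂ} (hf : f ∈ b.KK k)
    {T : Finset B} {c : C} (h : f ⟨T, c⟩ ≠ 0)
    (hn : Bd b a (cs.length (b.δ a c)) f) : ∀ s ∈ T,
      cs.length (b.δ a c * cs.simple s) < cs.length (b.δ a c) := by
  intro s hs
  by_contra hcon
  have h1 : cs.length (b.δ a c * cs.simple s) = cs.length (b.δ a c) + 1 := by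
    rcases cs.length_mul_simple (b.δ a c) s with h | h <;> omega
  have h2 := (b.mem_KK.1 hf).2 T s hs c
  rw [b.sum_pan] at h2
  rw [Finset.sum_eq_zero, add_zero] at h2
  · exact h h2
  · intro y hy
    rw [b.mem_nb] at hy
    by_contra h3
    have h4 := hn T y h3
    rw [b.eq_right hy h1, h1] at h4
    omega

lemma bd_mem_KK {k : ℕ} {f : Om B C →₀ ℂ} (hf : f ∈ b.KK (k + 1)) : bd f ∈ b.KK k := by
  rw [b.mem_KK] at hf ⊢
  constructor
  · intro T c h
    rw [bd_apply] at h
    unfold dd at h
    obtain ⟨i, -, hi⟩ := Finset.exists_ne_zero_of_sum_ne_zero h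
    split_ifs at hi with h1
    · exact absurd rfl hi
    · have h2 := hf.1 (insert i T) c (fun h => hi (by
        change sgn i T * f ⟨insert i T, c⟩ = 0
        rw [h, mul_zero]))
      rw [Finset.card_insert_of_notMem h1] at h2
      exact ⟨by omega, h2.2.mono (Finset.subset_insert _ _)⟩
  · intro T s hs
    have : (fun c => bd f ⟨T, c⟩) = fun c => ∑ i, (if i ∉ T then sgn i T * f ⟨insert i T, c⟩ else 0) := by
      funext c
      rw [bd_apply]
      rfl
    rw [this]
    refine Building.PS.sum b fun i _ => ?_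
    by_cases hi : i ∉ T
    · simp only [if_pos hi]
      exact (hf.2 (insert i T) s (Finset.mem_insert_of_mem hs)).smul b _
    · simp only [if_neg hi]
      exact Building.PS.zero b

lemma epsK_bd {f : Om B C →₀ ℂ} (hf : f ∈ b.KK 1) : epsK (bd f) = 0 := by
  have h1 : row ∅ (bd f) = ∑ i : B, sgn i ∅ • row {i} f := by
    ext c
    rw [row_apply, bd_apply, Finsupp.finsetSum_apply]
    unfold dd
    refine Finset.sum_congr rfl fun i _ => ?_
    rw [if_pos (by simp), Finsupp.smul_apply, row_apply]
    rfl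
  rw [epsK_eq, h1, map_sum]
  refine Finset.sum_eq_zero fun i _ => ?_
  rw [map_smul, tot_apply, Building.PS.total b (s := i) _ ((b.mem_KK.1 hf).2 {i} i (by simp)),
    smul_zero]

/-- the lowering step -/
lemma lower {a : C} {k n : ℕ} {f : Om B C →₀ ℂ} (hf : f ∈ b.KK k) (hB : Bd b a (n + 1) f)
    (h0 : bd f = 0) : ∃ g ∈ b.KK (k + 1), Bd b a n (f - bd g) := by
  classical
  let I : C → Set B := fun c => {i | cs.length (b.δ a c * cs.simple i) < cs.length (b.δ a c)}
  have hI : ∀ c, ∀ i ∈ I c, cs.length (b.δ a c * cs.simple i) < cs.length (b.δ a c) :=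
    fun c i hi => hi
  let ph : C → C →₀ ℂ := fun c =>
    Finsupp.ofSupportFinite (b.phi a c (I c)) (b.phi_support_finite (hI c))
  have hph : ∀ c y, ph c y = b.phi a c (I c) y := fun c y => rfl
  let top : Finset C := (f.support.image Om.c).filter (fun c => cs.length (b.δ a c) = n + 1)
  have hi : ∀ c : C, cs.length (b.δ a c) = n + 1 → ∃ i, i ∈ I c := by
    intro c hc
    have h1 : b.δ a c ≠ 1 := by
      intro h
      rw [h, cs.length_one] at hc
      omega
    obtain ⟨s, hs⟩ := cs.exists_rightDescent_of_ne_one h1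
    exact ⟨s, hs⟩
  by_cases hemp : top = ∅
  · refine ⟨0, Submodule.zero_mem _, ?_⟩
    rw [map_zero, sub_zero]
    intro T c h
    have h1 := hB T c h
    by_contra h2
    have h3 : c ∈ top := by
      rw [Finset.mem_filter, Finset.mem_image]
      exact ⟨⟨⟨T, c⟩, Finsupp.mem_support_iff.2 h, rfl⟩, by omega⟩
    rw [hemp] at h3
    simp at h3
  obtain ⟨c₁, hc₁⟩ := Finset.nonempty_iff_ne_empty.2 hemp
  obtain ⟨i₁, hi₁⟩ := hi c₁ (Finset.mem_filter.1 hc₁).2
  obtain ⟨j, hj⟩ : ∃ j : C → B, ∀ c, cs.length (b.δ a c) = n + 1 → j c ∈ I c := by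
    refine ⟨fun c => if h : cs.length (b.δ a c) = n + 1 then (hi c h).choose else i₁, ?_⟩
    intro c hc
    show (if h : cs.length (b.δ a c) = n + 1 then (hi c h).choose else i₁) ∈ I c
    rw [dif_pos hc]
    exact (hi c hc).choose_spec
  let co : C → Finset B → ℂ := fun c T => hh (j c) (fun T => f ⟨T, c⟩) T
  let g : Om B C →₀ ℂ := ∑ c ∈ top, ∑ T : Finset B, co c T • emb T (ph c)
  have hg : ∀ T y, g ⟨T, y⟩ = ∑ c ∈ top, co c T * b.phi a c (I c) y := by
    intro T y
    simp only [g]
    rw [Finsupp.finsetSum_apply]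
    refine Finset.sum_congr rfl fun c _ => ?_
    rw [Finsupp.finsetSum_apply, Finset.sum_eq_single T]
    · rw [Finsupp.smul_apply, emb_apply_self, hph, smul_eq_mul]
    · intro T' _ hT'
      rw [Finsupp.smul_apply, emb_apply_ne hT', smul_zero]
    · simp
  have hgm : g ∈ b.KK (k + 1) := by
    refine Submodule.sum_mem _ fun c hc => Submodule.sum_mem _ fun T _ => ?_
    have hlen := (Finset.mem_filter.1 hc).2
    by_cases h1 : co c T = 0
    · rw [h1, zero_smul]
      exact Submodule.zero_mem _
    · refine Submodule.smul_mem _ _ ?_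
      simp only [co] at h1
      unfold hh at h1
      by_cases h2 : j c ∈ T
      · rw [if_pos h2] at h1
        have h3 : f ⟨T.erase (j c), c⟩ ≠ 0 := fun h => h1 (by
          change sgn (j c) (T.erase (j c)) * f ⟨T.erase (j c), c⟩ = 0
          rw [h, mul_zero])
        have h4 := (b.mem_KK.1 hf).1 _ _ h3
        have h5 : ∀ s ∈ T, s ∈ I c := by
          intro s hs
          by_cases h6 : s = j c
          · rw [h6]; exact hj c hlen
          · exact top_sub hf h3 (by rw [hlen]; exact hB) s
              (Finset.mem_erase.2 ⟨h6, hs⟩)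
        refine emb_mem b ?_ ?_ ?_
        · rw [Finset.card_erase_of_mem h2] at h4
          have := Finset.card_pos.2 ⟨_, h2⟩
          omega
        · exact (par_finite_of_top (hI c)).subset (par_mono (fun s hs => h5 s hs))
        · intro s hs
          exact b.phi_PS (hI c) (h5 s hs)
      · rw [if_neg h2] at h1
        exact absurd rfl h1
  refine ⟨g, hgm, ?_⟩
  have hbd : ∀ T y, bd g ⟨T, y⟩ = ∑ c ∈ top, b.phi a c (I c) y * dd (co c) T := by
    intro T y
    rw [bd_apply]
    unfold dd
    simp only [hg]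
    simp only [Finset.mul_sum]
    rw [Finset.sum_comm]
    refine Finset.sum_congr rfl fun i _ => ?_
    split_ifs
    · simp
    · exact Finset.sum_congr rfl fun c _ => by ring
  intro T y h
  by_contra hcon
  push Not at hcon
  apply h
  rw [Finsupp.sub_apply, hbd, sub_eq_zero]
  by_cases hy : y ∈ top
  · rw [Finset.sum_eq_single y]
    · rw [b.phi_self, one_mul]
      have h1 := dd_hh (j y) (fun T => f ⟨T, y⟩) T
      have h2 : hh (j y) (dd fun T => f ⟨T, y⟩) T = 0 := by
        unfold hh
        split_ifs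
        · rw [← bd_apply, h0, Finsupp.zero_apply, mul_zero]
        · rfl
      rw [h2, add_zero] at h1
      exact h1.symm
    · intro c hc hcy
      have h1 : b.phi a c (I c) y = 0 := by
        by_contra h2
        have h3 := Building.phi_len (hI c) h2
        have h4 := (Finset.mem_filter.1 hc).2
        have h5 : cs.length (b.δ c y) = 0 := by omega
        rw [cs.length_eq_zero_iff] at h5
        exact hcy ((b.δ_eq_one_iff _ _).1 h5)
      rw [h1, zero_mul]
    · intro h; exact absurd hy h
  · have h1 : f ⟨T, y⟩ = 0 := by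
      by_contra h2
      have h3 := hB T y h2
      apply hy
      rw [Finset.mem_filter, Finset.mem_image]
      exact ⟨⟨⟨T, y⟩, Finsupp.mem_support_iff.2 h2, rfl⟩, by omega⟩
    rw [h1]
    symm
    refine Finset.sum_eq_zero fun c hc => ?_
    have h4 : b.phi a c (I c) y = 0 := by
      by_contra h2
      have h3 := Building.phi_len (hI c) h2
      have h4 := (Finset.mem_filter.1 hc).2
      have h5 : cs.length (b.δ c y) = 0 := by omega
      rw [cs.length_eq_zero_iff] at h5
      have h6 := (b.δ_eq_one_iff _ _).1 h5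
      rw [h6] at hc
      exact hy hc
    rw [h4, zero_mul]

lemma exact_aux (a : C) : ∀ (n k : ℕ) (f : Om B C →₀ ℂ), f ∈ b.KK k → Bd b a n f → bd f = 0 →
    epsK f = 0 → ∃ g ∈ b.KK (k + 1), bd g = f := by
  intro n
  induction n with
  | zero =>
    intro k f hf hB h0 he
    refine ⟨0, Submodule.zero_mem _, ?_⟩
    rw [map_zero]
    symm
    have h1 : ∀ T c, f ⟨T, c⟩ ≠ 0 → T = ∅ ∧ c = a := by
      intro T c h
      have h2 := hB T c h
      have h3 : cs.length (b.δ a c) = 0 := by omega
      have h4 := (b.δ_eq_one_iff _ _).1 ((cs.length_eq_zero_iff).1 h3)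
      refine ⟨?_, h4.symm⟩
      rw [Finset.eq_empty_iff_forall_notMem]
      intro s hs
      have h5 := top_sub hf h (by rw [h3]; exact hB) s hs
      omega
    have h2 : f = Finsupp.single ⟨∅, a⟩ (f ⟨∅, a⟩) := by
      classical
      ext ⟨T, c⟩
      rw [Finsupp.single_apply]
      split_ifs with h
      · rw [h]
      · by_contra h3
        obtain ⟨h4, h5⟩ := h1 T c h3
        apply h
        rw [h4, h5]
    have h3 : epsK f = f ⟨∅, a⟩ := by
      conv_lhs => rw [h2]
      rw [epsK, Finsupp.linearCombination_single]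
      simp
    rw [h2, ← h3, he, Finsupp.single_zero]
  | succ n ih =>
    intro k f hf hB h0 he
    obtain ⟨g, hg, hgB⟩ := lower hf hB h0
    have h1 : epsK (bd g) = 0 := by
      cases k with
      | zero => exact epsK_bd hg
      | succ k =>
        have h2 := (b.mem_KK.1 (bd_mem_KK hg)).1
        rw [epsK_eq]
        have h3 : row ∅ (bd g) = 0 := by
          ext c
          rw [row_apply, Finsupp.zero_apply]
          by_contra h4
          have := (h2 ∅ c h4).1
          simp at this
        rw [h3, map_zero]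
    obtain ⟨g', hg', hg''⟩ := ih k (f - bd g) (Submodule.sub_mem _ hf (bd_mem_KK hg)) hgB
      (by rw [map_sub, h0, bd_bd, sub_zero]) (by rw [map_sub, he, h1, sub_zero])
    refine ⟨g + g', Submodule.add_mem _ hg hg', ?_⟩
    rw [map_add, hg'']
    abel

lemma exists_Bd (a : C) (f : Om B C →₀ ℂ) : ∃ n, Bd b a n f := by
  classical
  refine ⟨(f.support.image (fun x => cs.length (b.δ a x.c))).sup id, ?_⟩
  intro T c h
  have h1 : cs.length (b.δ a c) ∈ f.support.image (fun x => cs.length (b.δ a x.c)) :=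
    Finset.mem_image.2 ⟨⟨T, c⟩, Finsupp.mem_support_iff.2 h, rfl⟩
  exact Finset.le_sup (f := id) h1

theorem exact_KK [Nonempty C] {k : ℕ} {f : Om B C →₀ ℂ} (hf : f ∈ b.KK k) (h0 : bd f = 0)
    (he : epsK f = 0) : ∃ g ∈ b.KK (k + 1), bd g = f := by
  obtain ⟨a⟩ := ‹Nonempty C›
  obtain ⟨n, hn⟩ := exists_Bd (b := b) a f
  exact exact_aux a n k f hf hn h0 he

end exact

end Pool.Agent.Y476.ZB
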