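import Pool.Agent.Y476.ZB.KCxB
import Pool.Agent.Y476.ZB.Comp

/-!
The resolution of the trivial module given by the chambers of a building.
-/

set_option autoImplicit false
set_option linter.unusedSectionVars false

namespace Pool.Agent.Y476.ZB

open CoxeterSystem Pool.Agent.TH5.BD

variable {B : Type*} {M : CoxeterMatrix B} {W : Type*} [Group W]
variable {cs : CoxeterSystem M W} {C : Type*} (b : Building cs C)

open Classical in
/-- the elements of a finite special subgroup -/
noncomputable def parF (cs : CoxeterSystem M W) (T : Finset B) : Finset W :=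
  if h : Sph cs T then Set.Finite.toFinset h else ∅

lemma mem_parF {T : Finset B} (h : Sph cs T) {u : W} :
    u ∈ parF cs T ↔ u ∈ Par cs (T : Set B) := by
  unfold parF
  rw [dif_pos h]
  exact Set.Finite.mem_toFinset _

lemma one_mem_parF {T : Finset B} (h : Sph cs T) : (1 : W) ∈ parF cs T :=
  (mem_parF h).2 (Subgroup.one_mem _)

namespace Building

section
variable [Nonempty C]

/-- the number of chambers at distance `w` -/
noncomputable def qq (w : W) : ℕ := b.qw (Classical.arbitrary C) w

lemma qw_eq (a : C) (w : W) : b.qw a w = b.qq w := b.qw_indep _ w rfl _ _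

lemma qq_one : b.qq 1 = 1 := b.qw_one _

lemma qq_mul_simple {w : W} {s : B} (h : cs.length (w * cs.simple s) = cs.length w + 1) :
    b.qq (w * cs.simple s) = b.qq w * b.q s := b.qw_mul_simple h

lemma qq_simple_mul {w : W} {s : B} (h : cs.length (cs.simple s * w) = cs.length w + 1) :
    b.qq (cs.simple s * w) = b.q s * b.qq w := b.qw_simple_mul h

lemma qq_pos (w : W) : 0 < b.qq w := b.qw_pos _ _ w rfl

lemma qq_inv : ∀ (n : ℕ) (w : W), cs.length w = n → b.qq w⁻¹ = b.qq w := by
  intro n
  induction n with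
  | zero =>
    intro w hw
    rw [cs.length_eq_zero_iff] at hw
    rw [hw, inv_one]
  | succ n ih =>
    intro w hw
    obtain ⟨s, hs⟩ : ∃ s, cs.length (w * cs.simple s) < cs.length w := by
      have h1 : w ≠ 1 := by
        intro h
        rw [h, cs.length_one] at hw
        omega
      obtain ⟨s, hs⟩ := cs.exists_rightDescent_of_ne_one h1
      exact ⟨s, hs⟩
    have hl : cs.length (w * cs.simple s) = n := by
      rcases cs.length_mul_simple w s with h | h <;> omega
    obtain ⟨v, hv⟩ : ∃ v, v = w * cs.simple s := ⟨_, rfl⟩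
    have e : w = v * cs.simple s := by rw [hv, cs.simple_mul_simple_cancel_right]
    rw [← hv] at hl
    have hl2 : cs.length (v * cs.simple s) = cs.length v + 1 := by rw [← e]; omega
    have hl3 : cs.length (cs.simple s * v⁻¹) = cs.length v⁻¹ + 1 := by
      rw [← cs.length_inv, mul_inv_rev, inv_inv, cs.inv_simple, hl2, cs.length_inv]
    rw [e, mul_inv_rev, cs.inv_simple, b.qq_mul_simple hl2, b.qq_simple_mul hl3, ih v hl, mul_comm]

/-- the weight of a finite special subgroup -/
noncomputable def NT (T : Finset B) : ℂ := ∑ u ∈ parF cs T, ((b.qq u : ℂ))⁻¹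

lemma NT_ne {T : Finset B} (h : Sph cs T) : b.NT T ≠ 0 := by
  have h1 : b.NT T = ((∑ u ∈ parF cs T, ((b.qq u : ℝ))⁻¹ : ℝ) : ℂ) := by
    rw [NT]
    push_cast
    rfl
  rw [h1]
  have h2 : (0 : ℝ) < ∑ u ∈ parF cs T, ((b.qq u : ℝ))⁻¹ :=
    Finset.sum_pos (fun u _ => inv_pos.2 (by exact_mod_cast b.qq_pos u)) ⟨1, one_mem_parF h⟩
  exact_mod_cast h2.ne'

open Classical in
/-- the kernel of the projection -/
noncomputable def kap (T : Finset B) (c d : C) : ℂ :=
  if b.δ c d ∈ Par cs (T : Set B) then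
    (b.NT T)⁻¹ * ((-1) ^ cs.length (b.δ c d) * ((b.qq (b.δ c d) : ℂ))⁻¹) else 0

lemma kap_symm (T : Finset B) (c d : C) : b.kap T c d = b.kap T d c := by
  have h1 : b.δ d c ∈ Par cs (T : Set B) ↔ b.δ c d ∈ Par cs (T : Set B) := by
    rw [b.symm c d]
    exact inv_mem_iff
  unfold kap
  by_cases h : b.δ c d ∈ Par cs (T : Set B)
  · rw [if_pos h, if_pos (h1.2 h), b.symm c d, b.qq_inv _ _ rfl, cs.length_inv]
  · rw [if_neg h, if_neg (fun h' => h (h1.1 h'))]

lemma kap_PS {T : Finset B} {s : B} (hs : s ∈ T) (c : C) : b.PS s (b.kap T c) := by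
  intro x
  obtain ⟨x₀, hx₀, hl⟩ := b.exists_near s c x
  rw [← b.pan_eq hx₀, b.sum_pan]
  have h1 : ∀ y ∈ b.nb s x₀, b.δ c y = b.δ c x₀ * cs.simple s := by
    intro y hy
    exact b.eq_right (b.mem_nb.1 hy) hl
  have h2 : ∀ y ∈ b.nb s x₀, b.kap T c y = - (b.q s : ℂ)⁻¹ * b.kap T c x₀ := by
    intro y hy
    unfold kap
    rw [h1 y hy]
    have h3 : b.δ c x₀ * cs.simple s ∈ Par cs (T : Set B) ↔ b.δ c x₀ ∈ Par cs (T : Set B) :=
      Subgroup.mul_mem_cancel_right _ (simple_mem_par (by exact_mod_cast hs))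
    by_cases h4 : b.δ c x₀ ∈ Par cs (T : Set B)
    · rw [if_pos h4, if_pos (h3.2 h4), hl, b.qq_mul_simple hl, pow_succ]
      push_cast
      rw [mul_inv]
      ring
    · rw [if_neg h4, if_neg (fun h' => h4 (h3.1 h')), mul_zero]
  rw [Finset.sum_congr rfl h2, Finset.sum_const, card_nb, nsmul_eq_mul]
  have : (b.q s : ℂ) ≠ 0 := by exact_mod_cast (b.q_pos s).ne'
  field_simp
  ring

lemma sum_sph_of_PS {T : Finset B} {f : C → ℂ} (hf : ∀ s ∈ T, b.PS s f) [Fintype B]
    [DecidableEq B] (a : C) :
    ∀ (n : ℕ) (u : W), cs.length u = n → u ∈ Par cs (T : Set B) →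
      ∑ y ∈ b.sph a u, f y = (-1) ^ n * f a := by
  intro n
  induction n with
  | zero =>
    intro u hu _
    rw [cs.length_eq_zero_iff] at hu
    rw [hu, sph_one, Finset.sum_singleton, pow_zero, one_mul]
  | succ n ih =>
    intro w hw hwT
    have h1 : w ≠ 1 := by
      intro h
      rw [h, cs.length_one] at hw
      omega
    obtain ⟨s, hs, h⟩ := par_rdescent hwT h1
    have hl : cs.length (w * cs.simple s) = n := by
      rcases cs.length_mul_simple w s with h | h <;> omega
    obtain ⟨v, hv⟩ : ∃ v, v = w * cs.simple s := ⟨_, rfl⟩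
    have e : w = v * cs.simple s := by rw [hv, cs.simple_mul_simple_cancel_right]
    have hvT : v ∈ Par cs (T : Set B) := by
      rw [hv]; exact Subgroup.mul_mem _ hwT (simple_mem_par hs)
    rw [← hv] at hl
    have hl2 : cs.length (v * cs.simple s) = cs.length v + 1 := by rw [← e]; omega
    rw [e, PS.sum_sph b (hf s (by exact_mod_cast hs)) hl2, ih v hl hvT, pow_succ]
    ring

open Classical in
/-- the residue of a chamber -/
noncomputable def res (T : Finset B) (c : C) : Finset C := (parF cs T).biUnion (b.sph c)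

lemma mem_res {T : Finset B} (hT : Sph cs T) {c d : C} :
    d ∈ b.res T c ↔ b.δ c d ∈ Par cs (T : Set B) := by
  classical
  rw [res, Finset.mem_biUnion]
  constructor
  · rintro ⟨u, hu, hd⟩
    rw [b.mem_sph] at hd
    rw [hd]
    exact (mem_parF hT).1 hu
  · intro h
    exact ⟨_, (mem_parF hT).2 h, b.mem_sph.2 rfl⟩

lemma kap_rep {T : Finset B} (hT : Sph cs T) {f : C → ℂ} (hf : ∀ s ∈ T, b.PS s f) [Fintype B]
    [DecidableEq B] (c : C) : ∑ d ∈ b.res T c, b.kap T c d * f d = f c := by
  classical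
  rw [res, Finset.sum_biUnion]
  · have h1 : ∀ u ∈ parF cs T, ∑ d ∈ b.sph c u, b.kap T c d * f d =
        (b.NT T)⁻¹ * (((b.qq u : ℂ))⁻¹ * f c) := by
      intro u hu
      have hu' := (mem_parF hT).1 hu
      have h2 : ∀ d ∈ b.sph c u, b.kap T c d * f d =
          ((b.NT T)⁻¹ * ((-1) ^ cs.length u * ((b.qq u : ℂ))⁻¹)) * f d := by
        intro d hd
        unfold kap
        rw [b.mem_sph.1 hd, if_pos hu']
      rw [Finset.sum_congr rfl h2, ← Finset.mul_sum, b.sum_sph_of_PS hf c _ u rfl hu']
      have h3 : ((-1 : ℂ) ^ cs.length u) * (-1) ^ cs.length u = 1 := by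
        rw [← mul_pow]; norm_num
      linear_combination ((b.NT T)⁻¹ * (b.qq u : ℂ)⁻¹ * f c) * h3
    rw [Finset.sum_congr rfl h1, ← Finset.mul_sum, ← Finset.sum_mul]
    change (b.NT T)⁻¹ * (b.NT T * f c) = f c
    rw [← mul_assoc, inv_mul_cancel₀ (b.NT_ne hT), one_mul]
  · intro u hu u' hu' hne
    change Disjoint (b.sph c u) (b.sph c u')
    rw [Finset.disjoint_left]
    intro d hd hd'
    rw [b.mem_sph] at hd hd'
    exact hne (hd.symm.trans hd')

open Classical in
/-- the kernel as a finitely supported function -/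
noncomputable def kapF (T : Finset B) (c : C) : C →₀ ℂ :=
  Finsupp.onFinset (b.res T c) (fun d => if Sph cs T then b.kap T c d else 0) (by
    intro d h
    split_ifs at h with h1
    · rw [b.mem_res h1]
      by_contra h2
      apply h
      unfold kap
      rw [if_neg h2]
    · exact absurd rfl h)

lemma kapF_apply {T : Finset B} (hT : Sph cs T) (c d : C) : b.kapF T c d = b.kap T c d := by
  rw [kapF, Finsupp.onFinset_apply, if_pos hT]

open Classical in
/-- the projections -/
noncomputable def prj (k : ℕ) : (Om B C →₀ ℂ) →ₗ[ℂ] (Om B C →₀ ℂ) :=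
  Finsupp.linearCombination ℂ (fun x : Om B C =>
    if x.T.card = k ∧ Sph cs x.T then emb x.T (b.kapF x.T x.c) else 0)

lemma prj_mem (k : ℕ) (f : Om B C →₀ ℂ) : b.prj k f ∈ b.KK k := by
  rw [prj, Finsupp.linearCombination_apply]
  refine Submodule.sum_mem _ fun x _ => Submodule.smul_mem _ _ ?_
  split_ifs with h
  · refine emb_mem b h.1 h.2 fun s hs => ?_
    have : (fun d => b.kapF x.T x.c d) = b.kap x.T x.c := funext fun d => b.kapF_apply h.2 _ _
    change b.PS s (fun d => b.kapF x.T x.c d)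
    rw [this]
    exact b.kap_PS hs _
  · exact Submodule.zero_mem _

lemma prj_apply [Fintype B] [DecidableEq B] {k : ℕ} {T : Finset B} (hk : T.card = k)
    (hT : Sph cs T) (f : Om B C →₀ ℂ) (d : C) :
    b.prj k f ⟨T, d⟩ = ∑ c ∈ b.res T d, b.kap T d c * f ⟨T, c⟩ := by
  classical
  induction f using Finsupp.induction_linear with
  | zero => simp
  | add f g hf hg =>
    rw [map_add, Finsupp.add_apply, hf, hg, ← Finset.sum_add_distrib]
    refine Finset.sum_congr rfl fun c _ => ?_
    rw [Finsupp.add_apply, mul_add]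
  | single x r =>
    obtain ⟨T', c'⟩ := x
    rw [prj, Finsupp.linearCombination_single, Finsupp.smul_apply]
    dsimp only
    by_cases h : T' = T
    · subst h
      rw [if_pos ⟨hk, hT⟩, emb_apply_self, b.kapF_apply hT, b.kap_symm]
      by_cases h1 : c' ∈ b.res T' d
      · rw [Finset.sum_eq_single c']
        · rw [Finsupp.single_eq_same, smul_eq_mul, mul_comm]
        · intro c _ hc
          rw [Finsupp.single_eq_of_ne (fun h => hc (Om.mk.inj h).2), mul_zero]
        · exact fun h => absurd h1 h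
      · have h2 : b.kap T' d c' = 0 := by
          unfold kap
          rw [if_neg]
          exact fun h => h1 ((b.mem_res hT).2 h)
        rw [h2, smul_zero]
        symm
        refine Finset.sum_eq_zero fun c hc => ?_
        rw [Finsupp.single_eq_of_ne, mul_zero]
        intro h
        rw [(Om.mk.inj h).2] at hc
        exact h1 hc
    · have h2 : (if T'.card = k ∧ Sph cs T' then emb T' (b.kapF T' c') else 0) ⟨T, d⟩ = 0 := by
        split_ifs
        · exact emb_apply_ne h _ _
        · rfl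
      rw [h2, smul_zero]
      symm
      refine Finset.sum_eq_zero fun c _ => ?_
      rw [Finsupp.single_eq_of_ne, mul_zero]
      intro h'
      exact h (Om.mk.inj h').1.symm

lemma prj_id [Fintype B] [DecidableEq B] {k : ℕ} {f : Om B C →₀ ℂ} (hf : f ∈ b.KK k) :
    b.prj k f = f := by
  ext ⟨T, d⟩
  have h1 := b.mem_KK.1 hf
  have h2 := b.mem_KK.1 (b.prj_mem k f)
  by_cases h : T.card = k ∧ Sph cs T
  · rw [b.prj_apply h.1 h.2]
    exact b.kap_rep h.2 (f := fun c => f ⟨T, c⟩) (fun s hs => h1.2 T s hs) d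
  · have h3 : f ⟨T, d⟩ = 0 := by
      by_contra h3
      exact h (h1.1 T d h3)
    have h4 : b.prj k f ⟨T, d⟩ = 0 := by
      by_contra h3
      exact h (h2.1 T d h3)
    rw [h3, h4]

end

section act

variable {G : Type*} [Group G] [MulAction G C]

variable {b} in
lemma pan_smul (hG : ∀ (g : G) x y, b.δ (g • x) (g • y) = b.δ x y) (g : G) (s : B) (x : C) :
    b.pan s (g • x) = (b.pan s x).map ⟨fun y => g • y, MulAction.injective g⟩ := by
  ext y
  rw [Finset.mem_map]
  constructor
  · intro hy
    refine ⟨g⁻¹ • y, ?_, by simp⟩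
    rw [b.mem_pan] at hy ⊢
    rcases hy with rfl | hy
    · left; simp
    · right
      rw [← hG g, smul_inv_smul]
      exact hy
  · rintro ⟨z, hz, rfl⟩
    rw [b.mem_pan] at hz ⊢
    rcases hz with rfl | hz
    · exact Or.inl rfl
    · right
      change b.δ (g • x) (g • z) = _
      rw [hG]
      exact hz

variable {b} in
lemma KK_smul (hG : ∀ (g : G) x y, b.δ (g • x) (g • y) = b.δ x y) (k : ℕ) (g : G)
    {f : Om B C →₀ ℂ} (hf : f ∈ b.KK k) : pm g f ∈ b.KK k := by
  rw [b.mem_KK] at hf ⊢
  constructor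
  · intro T c h
    rw [pm_apply] at h
    exact hf.1 T _ h
  · intro T s hs x
    have h1 : ∀ y, pm g f ⟨T, y⟩ = f ⟨T, g⁻¹ • y⟩ := fun y => pm_apply g f _
    simp only [h1]
    have h2 := hf.2 T s hs (g⁻¹ • x)
    rw [pan_smul hG, Finset.sum_map] at h2
    exact h2

variable {b} in
lemma kap_smul [Nonempty C] (hG : ∀ (g : G) x y, b.δ (g • x) (g • y) = b.δ x y) (g : G)
    (T : Finset B) (c d : C) : b.kap T (g • c) (g • d) = b.kap T c d := by
  unfold kap
  rw [hG]

variable {b} in
lemma prj_eqv [Nonempty C] (hG : ∀ (g : G) x y, b.δ (g • x) (g • y) = b.δ x y) (k : ℕ) :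
    Eqv (G := G) pm pm (b.prj k) := by
  intro g f
  have key : (b.prj k) ∘ₗ (pm g) = (pm g : (Om B C →₀ ℂ) →ₗ[ℂ] _) ∘ₗ b.prj k := by
    ext ⟨T, c⟩ ⟨T', d⟩
    simp only [LinearMap.comp_apply, Finsupp.lsingle_apply, pm_single, pm_apply]
    rw [smul_Om, smul_Om, prj, Finsupp.linearCombination_single, Finsupp.linearCombination_single,
      one_smul, one_smul]
    dsimp only
    split_ifs with h
    · rw [emb_apply, emb_apply, b.kapF_apply h.2, b.kapF_apply h.2]
      rw [← kap_smul hG g⁻¹ T (g • c) d, inv_smul_smul]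
    · rfl
  exact LinearMap.congr_fun key f

end act

end Building

section bdact

variable [Fintype B] [LinearOrder B] {G : Type*} [Group G] [MulAction G C]

lemma bd_eqv : Eqv (G := G) pm pm (bd : (Om B C →₀ ℂ) →ₗ[ℂ] (Om B C →₀ ℂ)) := by
  intro g f
  ext ⟨T, c⟩
  rw [bd_apply, pm_apply, smul_Om, bd_apply]
  congr 1
  funext T
  rw [pm_apply, smul_Om]

lemma epsK_eqv : Eqv (G := G) pm 1 (epsK : (Om B C →₀ ℂ) →ₗ[ℂ] ℂ) := by
  intro g f
  have key : (epsK : (Om B C →₀ ℂ) →ₗ[ℂ] ℂ) ∘ₗ (pm g) = epsK := by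
    ext ⟨T, c⟩
    simp only [LinearMap.comp_apply, Finsupp.lsingle_apply, pm_single, smul_Om]
    rw [epsK, Finsupp.linearCombination_single, Finsupp.linearCombination_single]
  exact LinearMap.congr_fun key f

variable {b}

/-- the resolution given by the chambers of a building -/
noncomputable def Building.data [Nonempty C] (hfree : ∀ (g : G) (x : C), g • x = x → g = 1)
    (hG : ∀ (g : G) x y, b.δ (g • x) (g • y) = b.δ x y) : KData G (Om B C) where
  K := b.KK
  π := b.prj
  bd := bd
  eps := epsK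
  free g x h := hfree g x.c (by
    have h1 := congrArg Om.c h
    exact h1)
  stable k g x hx := Building.KK_smul hG k g hx
  π_eqv := Building.prj_eqv hG
  π_mem := b.prj_mem
  π_id k x hx := b.prj_id hx
  bd_eqv := bd_eqv
  bd_mem k x hx := bd_mem_KK hx
  bd_bd k x _ := bd_bd x
  eps_eqv := epsK_eqv
  eps_bd x hx := epsK_bd hx
  eps_surj := by
    refine ⟨emb ∅ (Finsupp.single (Classical.arbitrary C) 1), ?_, ?_⟩
    · exact emb_mem b (by simp) (sph_empty cs) (by simp)
    · rw [emb, Finsupp.lmapDomain_apply, Finsupp.mapDomain_single, epsK,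
        Finsupp.linearCombination_single]
      simp
  exact_zero x hx h := by
    refine exact_KK hx ?_ h
    ext ⟨T, c⟩
    rw [bd_apply, Finsupp.zero_apply]
    unfold dd
    refine Finset.sum_eq_zero fun i _ => ?_
    by_cases h1 : i ∉ T
    · have h2 : x ⟨insert i T, c⟩ = 0 := by
        by_contra h3
        have h4 := ((b.mem_KK.1 hx).1 _ _ h3).1
        rw [Finset.card_insert_of_notMem h1] at h4
        omega
      rw [if_pos h1]
      change sgn i T * x ⟨insert i T, c⟩ = 0
      rw [h2, mul_zero]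
    · rw [if_neg h1]
  exact_succ k x hx h := by
    refine exact_KK hx h ?_
    rw [epsK_eq]
    have h3 : row ∅ x = 0 := by
      ext c
      rw [row_apply, Finsupp.zero_apply]
      by_contra h4
      have := ((b.mem_KK.1 hx).1 ∅ c h4).1
      simp at this
    rw [h3, map_zero]

end bdact

end Pool.Agent.Y476.ZB
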