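import Pool.Agent.TH38.ZT.Gen
import Pool.Agent.Y476.ZB.Lift

/-!
Exactness of a finite free resolution over `ℤ[G]` after extension of scalars to `ℂ[G]`.
-/

set_option autoImplicit false
set_option linter.unusedSectionVars false

open scoped Matrix

namespace Pool.Agent.Y476.ZB

open Pool.Agent.H919R4.ZS Pool.Agent.TH38.ZT

variable {G : Type*} [Group G]

/-- `ℤ[G] → ℂ[G]` -/
noncomputable def zc : MonoidAlgebra ℤ G →+* MonoidAlgebra ℂ G :=
  MonoidAlgebra.mapRingHom G (Int.castRingHom ℂ)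

@[simp] lemma zc_coeff (a : MonoidAlgebra ℤ G) (g : G) : (zc a).coeff g = (a.coeff g : ℂ) := by
  simp [zc]

/-- decomposition of a vector over `ℂ[G]` along a `ℤ`-independent family of complex numbers -/
theorem decomp {m : ℕ} (x : Fin m → MonoidAlgebra ℂ G) :
    ∃ (κ : Type) (_ : Fintype κ) (b : κ → ℂ) (z : κ → Fin m → MonoidAlgebra ℤ G),
      LinearIndependent ℤ b ∧ ∀ j, x j = ∑ k, b k • zc (z k j) := by
  classical
  let S : Set ℂ := ⋃ j : Fin m, (((x j).coeff.support.image (x j).coeff : Finset ℂ) : Set ℂ)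
  have hS : S.Finite := Set.finite_iUnion fun j => Finset.finite_toSet _
  let N : Submodule ℤ ℂ := Submodule.span ℤ S
  haveI : Module.Finite ℤ N := Module.Finite.span_of_finite ℤ hS
  let bs := Module.Free.chooseBasis ℤ N
  let ρ : Module.Free.ChooseBasisIndex ℤ N → ℂ → ℤ := fun k c =>
    if h : c ∈ N then bs.repr ⟨c, h⟩ k else 0
  have ρ0 : ∀ k, ρ k 0 = 0 := by
    intro k
    have h0 : (0 : ℂ) ∈ N := N.zero_mem
    have h1 : (⟨0, h0⟩ : N) = 0 := rfl
    simp only [ρ, dif_pos h0, h1, map_zero]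
    rfl
  let e := (Fintype.equivFin (Module.Free.ChooseBasisIndex ℤ N))
  refine ⟨Fin (Fintype.card (Module.Free.ChooseBasisIndex ℤ N)), inferInstance,
    fun k => (bs (e.symm k) : ℂ), fun k j => MonoidAlgebra.ofCoeff
      (Finsupp.mapRange (ρ (e.symm k)) (ρ0 _) (x j).coeff), ?_, ?_⟩
  · have h1 : LinearIndependent ℤ (fun k => (bs k : ℂ)) :=
      bs.linearIndependent.map' N.subtype (Submodule.ker_subtype N)
    exact h1.comp _ e.symm.injective
  · intro j
    apply MonoidAlgebra.coeff_injective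
    ext g
    rw [MonoidAlgebra.coeff_sum, Finsupp.finset_sum_apply]
    have hg : (x j).coeff g ∈ N := by
      by_cases h0 : (x j).coeff g = 0
      · rw [h0]; exact N.zero_mem
      · refine Submodule.subset_span (Set.mem_iUnion.2 ⟨j, ?_⟩)
        exact Finset.mem_coe.2 (Finset.mem_image.2 ⟨g, Finsupp.mem_support_iff.2 h0, rfl⟩)
    have h2 := bs.sum_repr ⟨(x j).coeff g, hg⟩
    have h3 := congrArg (fun u : N => (u : ℂ)) h2
    simp only [Submodule.coe_sum, Submodule.coe_smul] at h3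
    rw [← h3, ← e.symm.sum_comp]
    refine Finset.sum_congr rfl fun k _ => ?_
    rw [MonoidAlgebra.coeff_smul_apply, zc_coeff]
    simp only [Finsupp.mapRange_apply, ρ, dif_pos hg]
    rw [smul_eq_mul, mul_comm, zsmul_eq_mul]

lemma zc_vecMul {a b : ℕ} (x : Fin a → MonoidAlgebra ℤ G)
    (D : Matrix (Fin a) (Fin b) (MonoidAlgebra ℤ G)) (l : Fin b) :
    ((fun j => zc (x j)) ᵥ* D.map zc) l = zc ((x ᵥ* D) l) := by
  simp [Matrix.vecMul, dotProduct, map_sum, map_mul]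

lemma decomp_vecMul {m l : ℕ} {κ : Type} [Fintype κ] {b : κ → ℂ}
    {z : κ → Fin m → MonoidAlgebra ℤ G} {x : Fin m → MonoidAlgebra ℂ G}
    (hx : ∀ j, x j = ∑ k, b k • zc (z k j)) (D : Matrix (Fin m) (Fin l) (MonoidAlgebra ℤ G))
    (i : Fin l) : (x ᵥ* D.map zc) i = ∑ k, b k • zc ((z k ᵥ* D) i) := by
  simp only [← zc_vecMul]
  simp only [Matrix.vecMul, dotProduct, hx, Finset.sum_mul, Finset.smul_sum]
  rw [Finset.sum_comm]
  refine Finset.sum_congr rfl fun k _ => Finset.sum_congr rfl fun j _ => ?_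
  rw [smul_mul_assoc]

lemma indep_zc {κ : Type} [Fintype κ] {b : κ → ℂ} (hb : LinearIndependent ℤ b)
    (z : κ → MonoidAlgebra ℤ G) (h : ∑ k, b k • zc (z k) = 0) : ∀ k, z k = 0 := by
  intro k
  apply MonoidAlgebra.coeff_injective
  ext g
  have h1 := congrArg (fun a : MonoidAlgebra ℂ G => a.coeff g) h
  simp only [MonoidAlgebra.coeff_sum, Finsupp.finset_sum_apply, MonoidAlgebra.coeff_smul_apply,
    zc_coeff, MonoidAlgebra.coeff_zero, Finsupp.coe_zero, Pi.zero_apply] at h1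
  rw [Fintype.linearIndependent_iff] at hb
  have h2 := hb (fun k => (z k).coeff g) (by
    rw [← h1]
    refine Finset.sum_congr rfl fun k _ => ?_
    rw [zsmul_eq_mul, smul_eq_mul, mul_comm])
  exact h2 k

theorem exC_succ (X : FinRes G) (i : ℕ) (x : Fin (X.n (i + 1)) → MonoidAlgebra ℂ G)
    (hx : x ᵥ* (X.d i).map zc = 0) : ∃ y, y ᵥ* (X.d (i + 1)).map zc = x := by
  obtain ⟨κ, hκ, b, z, hb, hz⟩ := decomp x
  have h1 : ∀ k, z k ᵥ* X.d i = 0 := by
    intro k
    funext l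
    refine indep_zc hb (fun k => (z k ᵥ* X.d i) l) ?_ k
    rw [← decomp_vecMul hz, hx]
    rfl
  choose y hy using fun k => (X.exact_succ i (z k)).1 (h1 k)
  refine ⟨fun j => ∑ k, b k • zc (y k j), funext fun j => ?_⟩
  rw [decomp_vecMul (fun j => rfl), hz]
  simp only [hy]

/-- the augmentation of `ℂ[G]^(n 0)` -/
noncomputable def epC (X : FinRes G) : (Fin (X.n 0) → MonoidAlgebra ℂ G) →ₗ[ℂ] ℂ :=
  ev (G := G) (U := ℂ) 1 (fun j => (X.aug j : ℂ))

lemma la_one (a : MonoidAlgebra ℂ G) (c : ℂ) :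
    la (G := G) (U := ℂ) 1 a c = la (G := G) (U := ℂ) 1 a 1 * c := by
  have h := (la (G := G) (U := ℂ) 1 a).map_smul c 1
  rw [smul_eq_mul, mul_one, smul_eq_mul] at h
  rw [h, mul_comm]

lemma la_one_zc (a : MonoidAlgebra ℤ G) : la (G := G) (U := ℂ) 1 (zc a) 1 = (augm G a : ℂ) := by
  refine MonoidAlgebra.induction_linear a ?_ ?_ ?_
  · simp
  · intro x y hx hy
    rw [map_add, map_add, LinearMap.add_apply, hx, hy, map_add]
    push_cast
    rfl
  · intro g r
    have h1 : zc (MonoidAlgebra.single g r) = MonoidAlgebra.single g (r : ℂ) := by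
      simp [zc]
    rw [h1, la_single, augm_single]
    simp

lemma epC_decomp (X : FinRes G) {κ : Type} [Fintype κ] {b : κ → ℂ}
    {z : κ → Fin (X.n 0) → MonoidAlgebra ℤ G} {x : Fin (X.n 0) → MonoidAlgebra ℂ G}
    (hx : ∀ j, x j = ∑ k, b k • zc (z k j)) :
    epC X x = ∑ k, b k * ((∑ j, augm G (z k j) * X.aug j : ℤ) : ℂ) := by
  rw [epC, ev_apply]
  have h1 : ∀ j, la (G := G) (U := ℂ) 1 (x j) (X.aug j : ℂ) =
      ∑ k, b k * ((augm G (z k j) * X.aug j : ℤ) : ℂ) := by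
    intro j
    rw [la_one, hx, map_sum, LinearMap.sum_apply, Finset.sum_mul]
    refine Finset.sum_congr rfl fun k _ => ?_
    rw [map_smul, LinearMap.smul_apply, la_one_zc, smul_eq_mul]
    push_cast
    ring
  rw [Finset.sum_congr rfl fun j _ => h1 j, Finset.sum_comm]
  refine Finset.sum_congr rfl fun k _ => ?_
  rw [Int.cast_sum, Finset.mul_sum]

theorem exC_zero (X : FinRes G) (x : Fin (X.n 0) → MonoidAlgebra ℂ G) (hx : epC X x = 0) :
    ∃ y, y ᵥ* (X.d 0).map zc = x := by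
  obtain ⟨κ, hκ, b, z, hb, hz⟩ := decomp x
  rw [epC_decomp X hz] at hx
  rw [Fintype.linearIndependent_iff] at hb
  have h1 := hb (fun k => ∑ j, augm G (z k j) * X.aug j) (by
    rw [← hx]
    refine Finset.sum_congr rfl fun k _ => ?_
    rw [zsmul_eq_mul, mul_comm])
  choose y hy using fun k => (X.exact_zero (z k)).1 (h1 k)
  refine ⟨fun j => ∑ k, b k • zc (y k j), funext fun j => ?_⟩
  rw [decomp_vecMul (fun j => rfl), hz]
  simp only [hy]

/-- the differential of `ℂ[G] ⊗ X` -/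
noncomputable def dC (X : FinRes G) (i : ℕ) :
    (Fin (X.n (i + 1)) → MonoidAlgebra ℂ G) →ₗ[ℂ] (Fin (X.n i) → MonoidAlgebra ℂ G) :=
  ev (lm (X.n i)) (fun j l => zc (X.d i j l))

lemma dC_apply (X : FinRes G) (i : ℕ) (x : Fin (X.n (i + 1)) → MonoidAlgebra ℂ G) :
    dC X i x = x ᵥ* (X.d i).map zc := by
  rw [dC, ev_apply]
  funext l
  simp [Finset.sum_apply, la_lm, Matrix.vecMul, dotProduct]

lemma dC_eqv (X : FinRes G) (i : ℕ) : Eqv (lm (X.n (i + 1))) (lm (X.n i)) (dC X i) := ev_eqv _ _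

lemma epC_eqv (X : FinRes G) : Eqv (lm (X.n 0)) (1 : G →* Module.End ℂ ℂ) (epC X) := ev_eqv _ _

lemma epC_surj (X : FinRes G) : ∃ x, epC X x = 1 := by
  obtain ⟨x, hx⟩ := X.surj
  refine ⟨fun j => zc (x j), ?_⟩
  have := epC_decomp X (κ := Fin 1) (b := fun _ => 1) (z := fun _ => x)
    (x := fun j => zc (x j)) (fun j => by simp)
  rw [this, Fin.sum_univ_one, hx]
  simp

lemma epC_dC (X : FinRes G) (x : Fin (X.n 1) → MonoidAlgebra ℂ G) : epC X (dC X 0 x) = 0 := by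
  obtain ⟨κ, hκ, b, z, hb, hz⟩ := decomp x
  rw [dC_apply]
  rw [epC_decomp X (b := b) (z := fun k => z k ᵥ* X.d 0) (fun j => decomp_vecMul hz _ j)]
  refine Finset.sum_eq_zero fun k _ => ?_
  rw [(X.exact_zero (z k ᵥ* X.d 0)).2 ⟨z k, rfl⟩]
  simp

lemma dC_dC (X : FinRes G) (i : ℕ) (x : Fin (X.n (i + 2)) → MonoidAlgebra ℂ G) :
    dC X i (dC X (i + 1) x) = 0 := by
  rw [dC_apply, dC_apply, Matrix.vecMul_vecMul, ← Matrix.map_mul, d_mul_d]
  have : (0 : Matrix (Fin (X.n (i + 2))) (Fin (X.n i)) (MonoidAlgebra ℤ G)).map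
      (zc : MonoidAlgebra ℤ G →+* MonoidAlgebra ℂ G) = 0 := by ext; simp
  rw [this, Matrix.vecMul_zero]

end Pool.Agent.Y476.ZB
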