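import Pool.Agent.Y476.ZB.End

/-!
The thin building of a Coxeter system, and the subgroups of finite index of Coxeter groups.
-/

set_option autoImplicit false
set_option linter.unusedSectionVars false

namespace Pool.Agent.Y476.ZB

open CoxeterSystem Pool.Agent.H919R4.ZS Pool.Agent.TH38.ZT

variable {B : Type*} {M : CoxeterMatrix B} {W : Type*} [Group W]

/-- the thin building of a Coxeter system -/
def Building.thin (cs : CoxeterSystem M W) : Building cs W where
  δ x y := x⁻¹ * y
  δ_eq_one_iff x y := by rw [inv_mul_eq_one]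
  δ_mem s x' x y h := by
    left
    rw [← h]
    group
  δ_eq s x' x y h _ := by
    rw [← h]
    group
  exists_δ s x y := ⟨x * cs.simple s, by simp, by simp [mul_assoc]⟩
  q _ := 1
  q_pos _ := one_pos
  card_eq s x := by
    have : Unique {y : W // x⁻¹ * y = cs.simple s} :=
      { default := ⟨x * cs.simple s, by simp⟩
        uniq := by
          rintro ⟨y, hy⟩
          apply Subtype.ext
          change y = x * cs.simple s
          rw [← hy]
          simp }
    exact Nat.card_unique

theorem coxeter_zero_in_spectrum [Finite B] (cs : CoxeterSystem M W) {G : Type*} [Group G]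
    (φ : G →* W) (hφ : Function.Injective φ) (hfin : φ.range.FiniteIndex) (X : FinRes G) :
    ∃ i, Nontrivial (X.homology (toRed G) i) := by
  letI : MulAction G W := MulAction.compHom W φ
  have hs : ∀ (g : G) (x : W), g • x = φ g * x := fun _ _ => rfl
  refine building_zero_in_spectrum (Building.thin cs) (G := G) ?_ ?_ ?_ X
  · intro g x h
    rw [hs] at h
    apply hφ
    rw [map_one]
    exact mul_eq_right.1 h
  · intro g x y
    rw [hs, hs]
    change (φ g * x)⁻¹ * (φ g * y) = x⁻¹ * y
    group
  · have h1 : Finite (W ⧸ φ.range) := inferInstance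
    refine Finite.of_surjective (α := W ⧸ φ.range)
      (fun q => Quotient.mk (MulAction.orbitRel G W) (q.out)⁻¹) ?_
    intro o
    obtain ⟨x, rfl⟩ := Quotient.exists_rep o
    refine ⟨(QuotientGroup.mk x⁻¹ : W ⧸ φ.range), ?_⟩
    apply Quotient.sound
    obtain ⟨⟨_, g, rfl⟩, hg⟩ := QuotientGroup.mk_out_eq_mul φ.range x⁻¹
    change _ ∈ MulAction.orbit G x
    rw [hg]
    refine ⟨g⁻¹, ?_⟩
    dsimp only
    rw [hs, map_inv, mul_inv_rev, inv_inv]

end Pool.Agent.Y476.ZB
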