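import Pool.Agent.Y476.ZB.Wt

/-!
Hecke operators and the trace.
-/

set_option autoImplicit false
set_option linter.unusedSectionVars false

namespace Pool.Agent.Y476.ZB

open CoxeterSystem Pool.Agent.TH5.BD
open scoped InnerProductSpace InnerProduct

variable {B : Type*} {M : CoxeterMatrix B} {W : Type*} [Group W]
variable {cs : CoxeterSystem M W} (p : Wt cs)

/-- left multiplication by a simple reflection -/
def ltp (cs : CoxeterSystem M W) (s : B) : Equiv.Perm (Om B W) where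
  toFun x := ⟨x.T, cs.simple s * x.c⟩
  invFun x := ⟨x.T, cs.simple s * x.c⟩
  left_inv x := by simp
  right_inv x := by simp

namespace Wt

/-- the left Hecke operators -/
noncomputable def Ls (s : B) : EL (Om B W) →L[ℂ] EL (Om B W) :=
  pu (ltp cs s) + mo (fun x : Om B W => if cs.length (cs.simple s * x.c) < cs.length x.c then
    ((p.a s - (p.a s)⁻¹ : ℝ) : ℂ) else 0) |p.a s - (p.a s)⁻¹| (by
      intro x
      split_ifs
      · rw [Complex.norm_real, Real.norm_eq_abs]
      · simp)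

lemma Ls_apply (s : B) (f : EL (Om B W)) (T : Finset B) (w : W) :
    p.Ls s f ⟨T, w⟩ = f ⟨T, cs.simple s * w⟩ +
      (if cs.length (cs.simple s * w) < cs.length w then
        ((p.a s - (p.a s)⁻¹ : ℝ) : ℂ) else 0) * f ⟨T, w⟩ := rfl

lemma Ls_eb {s : B} {w : W} (h : cs.length (cs.simple s * w) = cs.length w + 1) (T : Finset B) :
    p.Ls s (eb ⟨T, w⟩) = eb ⟨T, cs.simple s * w⟩ := by
  ext ⟨T', x⟩
  rw [Ls_apply]
  by_cases h1 : (Om.mk T' x) = ⟨T, cs.simple s * w⟩
  · obtain ⟨h2, h3⟩ := Om.mk.inj h1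
    subst h2 h3
    rw [eb_self, cs.simple_mul_simple_cancel_left, eb_self, eb_ne, mul_zero, add_zero]
    intro h4
    have h5 := (Om.mk.inj h4).2
    rw [h5] at h
    omega
  · rw [eb_ne h1, eb_ne, zero_add]
    · split_ifs with h2
      · rw [eb_ne, mul_zero]
        intro h4
        have h5 := (Om.mk.inj h4).2
        rw [h5] at h2
        omega
      · rw [zero_mul]
    · intro h4
      apply h1
      obtain ⟨h5, h6⟩ := Om.mk.inj h4
      rw [h5, ← h6, cs.simple_mul_simple_cancel_left]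

lemma Ls_symm (s : B) (f g : EL (Om B W)) : ⟪p.Ls s f, g⟫_ℂ = ⟪f, p.Ls s g⟫_ℂ := by
  unfold Ls
  rw [add_apply, add_apply, inner_add_left, inner_add_right,
    inner_pu, inner_mo]
  · rfl
  · intro x
    split_ifs
    · exact Complex.conj_ofReal _
    · simp

lemma Ls_mem (s : B) {f : EL (Om B W)} (hf : f ∈ p.V) : p.Ls s f ∈ p.V := by
  apply p.mem_V'
  · intro T hT w
    rw [Ls_apply, (p.mem_V.1 hf).1 T hT, (p.mem_V.1 hf).1 T hT, mul_zero, add_zero]
  · intro T j hj w hl
    have r1 := p.V_rel hf hj hl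
    rw [Ls_apply, Ls_apply]
    rcases cs.length_simple_mul w s with h1 | h1
    · rcases cs.length_simple_mul (w * cs.simple j) s with h2 | h2
      · -- both up
        rw [if_neg (by omega), if_neg (by omega), zero_mul, zero_mul, add_zero, add_zero,
          ← mul_assoc]
        apply p.V_rel hf hj
        rw [mul_assoc, h2, hl, h1]
      · -- `s w = w j`
        have h3 : cs.simple s * w = w * cs.simple j := by
          apply exchange_eq cs s j w (by omega) _ (by omega)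
          rw [mul_assoc]
          omega
        have h4 : p.a s = p.a j := by
          have e1 := p.A_mul w j hl
          have e2 := p.A_mul' w s h1
          rw [h3, e1, mul_comm] at e2
          exact (mul_right_cancel₀ (p.A_pos w).ne' e2).symm
        have h5 : cs.simple s * (w * cs.simple j) = w := by
          rw [← h3, cs.simple_mul_simple_cancel_left]
        rw [if_neg (by omega), if_pos (by omega), zero_mul, add_zero, h5, h3, h4]
        have h6 : (p.a j : ℂ) ≠ 0 := by exact_mod_cast (p.a_pos j).ne'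
        push_cast
        field_simp
        linear_combination (p.a j : ℂ) * r1
    · rcases cs.length_simple_mul (w * cs.simple j) s with h2 | h2
      · exfalso
        have h3 : cs.length (cs.simple s * w * cs.simple j) ≤ cs.length (cs.simple s * w) + 1 := by
          rcases cs.length_mul_simple (cs.simple s * w) j with h | h <;> omega
        rw [mul_assoc] at h3
        omega
      · rw [if_pos (by omega), if_pos (by omega)]
        have r2 := p.V_rel hf hj (w := cs.simple s * w) (by rw [mul_assoc]; omega)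
        rw [mul_assoc] at r2
        linear_combination r2 + ((p.a s - (p.a s)⁻¹ : ℝ) : ℂ) * r1

section
variable [Fintype B] [LinearOrder B]

lemma Ls_DL (s : B) (f : EL (Om B W)) : DL (p.Ls s f) = p.Ls s (DL f) := by
  ext ⟨T, w⟩
  rw [DL_apply, Ls_apply, DL_apply, DL_apply]
  simp only [Ls_apply]
  unfold dd
  rw [Finset.mul_sum, ← Finset.sum_add_distrib]
  refine Finset.sum_congr rfl fun i _ => ?_
  by_cases h : i ∉ T
  · rw [if_pos h, if_pos h, if_pos h]
    ring
  · rw [if_neg h, if_neg h, if_neg h]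
    ring

lemma Ls_gam (s : B) (f : EL (Om B W)) : gam (p.Ls s f) = p.Ls s (gam f) := by
  ext ⟨T, w⟩
  rw [gam_apply, Ls_apply, Ls_apply, gam_apply, gam_apply]
  ring

lemma DL_mem {f : EL (Om B W)} (hf : f ∈ p.V) : DL f ∈ p.V := by
  rw [p.mem_V] at hf ⊢
  constructor
  · intro T hT w
    rw [DL_apply]
    unfold dd
    refine Finset.sum_eq_zero fun i _ => ?_
    have h1 : f ⟨insert i T, w⟩ = 0 := hf.1 _ (fun h => hT (h.mono (Finset.subset_insert _ _))) w
    change (if i ∉ T then sgn i T * f ⟨insert i T, w⟩ else 0) = 0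
    rw [h1, mul_zero, ite_self]
  · intro T s hs w
    rw [DL_apply, DL_apply]
    unfold dd
    rw [Finset.mul_sum, Finset.mul_sum, ← Finset.sum_neg_distrib]
    refine Finset.sum_congr rfl fun i _ => ?_
    have h1 := hf.2 (insert i T) s (Finset.mem_insert_of_mem hs) w
    by_cases h : i ∉ T
    · rw [if_pos h, if_pos h]
      linear_combination (sgn i T) * h1
    · rw [if_neg h, if_neg h]
      ring

lemma gam_mem {f : EL (Om B W)} (hf : f ∈ p.V) : gam f ∈ p.V := by
  rw [p.mem_V] at hf ⊢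
  constructor
  · intro T hT w
    rw [gam_apply, hf.1 T hT, mul_zero]
  · intro T s hs w
    rw [gam_apply, gam_apply]
    linear_combination (-1) ^ T.card * hf.2 T s hs w

end

/-- products of the left Hecke operators -/
noncomputable def Lam (ω : List B) : EL (Om B W) →L[ℂ] EL (Om B W) := (ω.map p.Ls).prod

lemma Lam_cons (s : B) (ω : List B) (f : EL (Om B W)) : p.Lam (s :: ω) f = p.Ls s (p.Lam ω f) := by
  rw [Lam, List.map_cons, List.prod_cons]
  rfl

lemma Lam_append (ω ω' : List B) (f : EL (Om B W)) :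
    p.Lam (ω ++ ω') f = p.Lam ω (p.Lam ω' f) := by
  rw [Lam, List.map_append, List.prod_append]
  rfl

lemma Lam_nil (f : EL (Om B W)) : p.Lam [] f = f := rfl

lemma Lam_eb (T : Finset B) : ∀ ω : List B, cs.IsReduced ω →
    p.Lam ω (eb ⟨T, 1⟩) = eb ⟨T, cs.wordProd ω⟩ := by
  intro ω
  induction ω with
  | nil => intro _; rw [Lam_nil, cs.wordProd_nil]
  | cons s ω ih =>
    intro h
    have h1 : cs.IsReduced ω := by
      have := h.drop 1
      simpa using this
    rw [Lam_cons, ih h1, cs.wordProd_cons]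
    apply p.Ls_eb
    have h2 : cs.length (cs.wordProd (s :: ω)) = (s :: ω).length := h
    have h3 : cs.length (cs.wordProd ω) = ω.length := h1
    rw [cs.wordProd_cons, List.length_cons] at h2
    omega

lemma Lam_symm : ∀ (ω : List B) (f g : EL (Om B W)),
    ⟪p.Lam ω f, g⟫_ℂ = ⟪f, p.Lam ω.reverse g⟫_ℂ := by
  intro ω
  induction ω with
  | nil => intro f g; rfl
  | cons s ω ih =>
    intro f g
    rw [Lam_cons, Ls_symm, ih, List.reverse_cons, Lam_append]
    rfl

/-- operators commuting with the left Hecke operators -/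
def Cm (Y : EL (Om B W) →L[ℂ] EL (Om B W)) : Prop := ∀ s f, Y (p.Ls s f) = p.Ls s (Y f)

variable {p}

lemma Cm.lam {Y : EL (Om B W) →L[ℂ] EL (Om B W)} (hY : p.Cm Y) :
    ∀ (ω : List B) (f : EL (Om B W)), Y (p.Lam ω f) = p.Lam ω (Y f) := by
  intro ω
  induction ω with
  | nil => intro f; rfl
  | cons s ω ih =>
    intro f
    rw [Lam_cons, hY, ih, Lam_cons]

lemma Cm.key {Y : EL (Om B W) →L[ℂ] EL (Om B W)} (hY : p.Cm Y) (T T' : Finset B) (w : W) :
    Y (eb ⟨T, w⟩) ⟨T', 1⟩ = Y (eb ⟨T, 1⟩) ⟨T', w⁻¹⟩ := by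
  obtain ⟨ω, hω, rfl⟩ := cs.exists_isReduced w
  rw [← p.Lam_eb T ω hω, hY.lam, ← inner_eb, ← List.reverse_reverse ω, ← p.Lam_symm,
    p.Lam_eb T' ω.reverse ((cs.isReduced_reverse_iff ω).2 hω), inner_eb, cs.wordProd_reverse,
    List.reverse_reverse]

lemma tsum_Om [Fintype B] {F : Om B W → ℂ} (hF : Summable F) :
    ∑' x, F x = ∑ T : Finset B, ∑' w : W, F ⟨T, w⟩ := by
  let e : Finset B × W ≃ Om B W :=
    ⟨fun x => ⟨x.1, x.2⟩, fun x => ⟨x.T, x.c⟩, fun _ => rfl, fun _ => rfl⟩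
  rw [← e.tsum_eq, Summable.tsum_prod, tsum_fintype]
  · rfl
  · exact (e.summable_iff (f := F)).2 hF

/-- the trace -/
noncomputable def tr [Fintype B] (X : EL (Om B W) →L[ℂ] EL (Om B W)) : ℂ :=
  ∑ T : Finset B, X (eb ⟨T, 1⟩) ⟨T, 1⟩

lemma tr_aux [Fintype B] {X Y : EL (Om B W) →L[ℂ] EL (Om B W)} (hX : p.Cm X) :
    tr (X ∘L Y) = ∑ T : Finset B, ∑ T' : Finset B, ∑' w : W,
      X (eb ⟨T', 1⟩) ⟨T, w⁻¹⟩ * Y (eb ⟨T, 1⟩) ⟨T', w⟩ := by
  unfold tr
  refine Finset.sum_congr rfl fun T _ => ?_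
  have h1 : (X ∘L Y) (eb ⟨T, 1⟩) ⟨T, 1⟩ = ⟪(X†) (eb ⟨T, 1⟩), Y (eb ⟨T, 1⟩)⟫_ℂ := by
    rw [ContinuousLinearMap.adjoint_inner_left, inner_eb]
    rfl
  have h2 : ∀ x : Om B W, ⟪((X†) (eb ⟨T, 1⟩) : EL (Om B W)) x, (Y (eb ⟨T, 1⟩)) x⟫_ℂ =
      X (eb ⟨x.T, 1⟩) ⟨T, x.c⁻¹⟩ * Y (eb ⟨T, 1⟩) x := by
    intro x
    have h3 : (starRingEnd ℂ) (((X†) (eb ⟨T, 1⟩) : EL (Om B W)) x) =
        X (eb ⟨x.T, 1⟩) ⟨T, x.c⁻¹⟩ := by
      have h4 := inner_eb' x ((X†) (eb ⟨T, 1⟩))
      rw [ContinuousLinearMap.adjoint_inner_left, inner_eb] at h4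
      rw [← hX.key]
      exact h4.symm
    rw [RCLike.inner_apply, h3, mul_comm]
  have h5 := lp.hasSum_inner (𝕜 := ℂ) ((X†) (eb (Om.mk T (1 : W)))) (Y (eb ⟨T, 1⟩))
  simp only [h2] at h5
  rw [h1, ← h5.tsum_eq, tsum_Om h5.summable]

lemma tr_comm [Fintype B] {X Y : EL (Om B W) →L[ℂ] EL (Om B W)} (hX : p.Cm X) (hY : p.Cm Y) :
    tr (X ∘L Y) = tr (Y ∘L X) := by
  rw [tr_aux hX, tr_aux hY, Finset.sum_comm]
  refine Finset.sum_congr rfl fun T _ => Finset.sum_congr rfl fun T' _ => ?_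
  rw [← Equiv.tsum_eq (Equiv.inv W)]
  refine tsum_congr fun w => ?_
  rw [Equiv.inv_apply, inv_inv, mul_comm]

end Wt

end Pool.Agent.Y476.ZB
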