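import Pool.Agent.Y476.ZB.KCxC
import Pool.Agent.Y476.ZB.Ell
import Pool.Agent.Y476.ZB.Hilb

/-!
Weighted square summable functions on a Coxeter group.
-/

set_option autoImplicit false
set_option linter.unusedSectionVars false

namespace Pool.Agent.Y476.ZB

open CoxeterSystem Pool.Agent.TH5.BD
open scoped InnerProductSpace InnerProduct

section DL

variable {B C : Type*} [Fintype B] [LinearOrder B]

/-- toggling an element of the type -/
def tog (i : B) : Equiv.Perm (Om B C) where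
  toFun x := ⟨if i ∈ x.T then x.T.erase i else insert i x.T, x.c⟩
  invFun x := ⟨if i ∈ x.T then x.T.erase i else insert i x.T, x.c⟩
  left_inv := by
    rintro ⟨T, c⟩
    by_cases h : i ∈ T <;> simp [h]
  right_inv := by
    rintro ⟨T, c⟩
    by_cases h : i ∈ T <;> simp [h]

/-- the differential on `ℓ²` -/
noncomputable def DL : EL (Om B C) →L[ℂ] EL (Om B C) :=
  ∑ i : B, (mo (fun x : Om B C => if i ∉ x.T then sgn i x.T else 0) 1 (by
    intro x
    split_ifs
    · simp
    · exact (norm_sgn i x.T).le)) ∘L pu (tog i)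

lemma DL_apply (f : EL (Om B C)) (T : Finset B) (c : C) :
    DL f ⟨T, c⟩ = dd (fun T => f ⟨T, c⟩) T := by
  unfold DL dd
  rw [sum_apply, EL_sum_apply]
  refine Finset.sum_congr rfl fun i _ => ?_
  rw [ContinuousLinearMap.comp_apply, mo_apply, pu_apply]
  by_cases h : i ∉ T
  · rw [if_pos h, if_pos h]
    simp [tog, h]
  · rw [if_neg h, if_neg h, zero_mul]

lemma DL_io (h : Om B C →₀ ℂ) : DL (io h) = io (bd h) := by
  ext ⟨T, c⟩
  rw [DL_apply, io_apply, bd_apply]
  simp only [io_apply]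

lemma DL_DL (f : EL (Om B C)) : DL (DL f) = 0 := by
  ext ⟨T, c⟩
  rw [DL_apply]
  simp only [DL_apply]
  rw [dd_dd]
  rfl

/-- the grading -/
noncomputable def gam : EL (Om B C) →L[ℂ] EL (Om B C) :=
  mo (fun x : Om B C => (-1) ^ x.T.card) 1 (by intro x; simp)

lemma gam_apply (f : EL (Om B C)) (x : Om B C) : gam f x = (-1) ^ x.T.card * f x := rfl

lemma gam_DL (f : EL (Om B C)) : gam (DL f) = - DL (gam f) := by
  ext ⟨T, c⟩
  rw [gam_apply, DL_apply, lp.coeFn_neg, Pi.neg_apply, DL_apply]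
  unfold dd
  rw [Finset.mul_sum, ← Finset.sum_neg_distrib]
  refine Finset.sum_congr rfl fun i _ => ?_
  by_cases h : i ∉ T
  · rw [if_pos h, if_pos h]
    change (-1) ^ T.card * (sgn i T * f ⟨insert i T, c⟩) =
      -(sgn i T * ((-1) ^ (insert i T).card * f ⟨insert i T, c⟩))
    rw [Finset.card_insert_of_notMem h, pow_succ]
    ring
  · rw [if_neg h, if_neg h]
    simp

end DL

lemma ev_cont {Ω : Type*} (x : Ω) : Continuous fun f : EL Ω => f x := by
  have : (fun f : EL Ω => f x) = fun f : EL Ω => ⟪eb x, f⟫_ℂ := by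
    funext f; rw [inner_eb]
  rw [this]
  exact continuous_const.inner continuous_id

lemma inner_pu {Ω : Type*} (σ : Equiv.Perm Ω) (f g : EL Ω) :
    ⟪pu σ f, g⟫_ℂ = ⟪f, pu σ.symm g⟫_ℂ := by
  rw [lp.inner_eq_tsum, lp.inner_eq_tsum, ← Equiv.tsum_eq σ.symm]
  refine tsum_congr fun x => ?_
  rw [pu_apply, pu_apply, Equiv.apply_symm_apply]

lemma inner_mo {Ω : Type*} (m : Ω → ℂ) (K : ℝ) (hm : ∀ x, ‖m x‖ ≤ K) (hr : ∀ x, star (m x) = m x)
    (f g : EL Ω) : ⟪mo m K hm f, g⟫_ℂ = ⟪f, mo m K hm g⟫_ℂ := by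
  rw [lp.inner_eq_tsum, lp.inner_eq_tsum]
  refine tsum_congr fun x => ?_
  rw [mo_apply, mo_apply]
  simp only [RCLike.inner_apply, map_mul]
  have : (starRingEnd ℂ) (m x) = m x := hr x
  rw [this]
  ring

lemma gam_symm {B C : Type*} [Fintype B] [LinearOrder B] (f g : EL (Om B C)) :
    ⟪gam f, g⟫_ℂ = ⟪f, gam g⟫_ℂ := by
  unfold gam
  exact inner_mo _ _ _ (fun x => by simp) _ _

variable {B : Type*} {M : CoxeterMatrix B} {W : Type*} [Group W]

/-- weights on a Coxeter group -/
structure Wt (cs : CoxeterSystem M W) where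
  /-- the weights of the simple reflections -/
  a : B → ℝ
  /-- the weights of the elements -/
  A : W → ℝ
  A_one : A 1 = 1
  A_pos : ∀ w, 0 < A w
  a_pos : ∀ s, 0 < a s
  A_mul : ∀ w s, cs.length (w * cs.simple s) = cs.length w + 1 → A (w * cs.simple s) = A w * a s
  A_mul' : ∀ w s, cs.length (cs.simple s * w) = cs.length w + 1 → A (cs.simple s * w) = a s * A w

variable {cs : CoxeterSystem M W} (p : Wt cs)

namespace Wt

/-- the space of the weighted functions -/
noncomputable def V : Submodule ℂ (EL (Om B W)) where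
  carrier := {f | (∀ T, ¬ Sph cs T → ∀ w, f ⟨T, w⟩ = 0) ∧ ∀ T, ∀ s ∈ T, ∀ w,
    (p.A (w * cs.simple s) : ℂ) * f ⟨T, w * cs.simple s⟩ = - ((p.A w : ℂ) * f ⟨T, w⟩)}
  zero_mem' := by
    refine ⟨fun T _ w => rfl, fun T s _ w => ?_⟩
    rw [lp.coeFn_zero]
    simp
  add_mem' := by
    rintro f g ⟨hf, hf'⟩ ⟨hg, hg'⟩
    refine ⟨fun T hT w => ?_, fun T s hs w => ?_⟩
    · rw [lp.coeFn_add, Pi.add_apply, hf T hT, hg T hT, add_zero]
    · rw [lp.coeFn_add, Pi.add_apply, Pi.add_apply, mul_add, hf' T s hs, hg' T s hs]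
      ring
  smul_mem' := by
    rintro r f ⟨hf, hf'⟩
    refine ⟨fun T hT w => ?_, fun T s hs w => ?_⟩
    · rw [lp.coeFn_smul, Pi.smul_apply, hf T hT, smul_zero]
    · rw [lp.coeFn_smul, Pi.smul_apply, Pi.smul_apply, smul_eq_mul, smul_eq_mul]
      linear_combination r * hf' T s hs w

lemma mem_V {f : EL (Om B W)} : f ∈ p.V ↔ (∀ T, ¬ Sph cs T → ∀ w, f ⟨T, w⟩ = 0) ∧
    ∀ T, ∀ s ∈ T, ∀ w,
    (p.A (w * cs.simple s) : ℂ) * f ⟨T, w * cs.simple s⟩ = - ((p.A w : ℂ) * f ⟨T, w⟩) := Iff.rfl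

lemma isClosed_V : IsClosed (p.V : Set (EL (Om B W))) := by
  have : (p.V : Set (EL (Om B W))) = {f | ∀ T, ¬ Sph cs T → ∀ w, f ⟨T, w⟩ = 0} ∩
      {f | ∀ T, ∀ s ∈ T, ∀ w, (p.A (w * cs.simple s) : ℂ) * f ⟨T, w * cs.simple s⟩ =
        - ((p.A w : ℂ) * f ⟨T, w⟩)} := by
    ext f
    exact p.mem_V
  rw [this]
  refine IsClosed.inter ?_ ?_
  · simp only [Set.ofPred_forall]
    exact isClosed_iInter fun T => isClosed_iInter fun _ => isClosed_iInter fun w =>
      isClosed_eq (ev_cont _) continuous_const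
  · simp only [Set.ofPred_forall]
    exact isClosed_iInter fun T => isClosed_iInter fun s => isClosed_iInter fun _ =>
      isClosed_iInter fun w => isClosed_eq (continuous_const.mul (ev_cont _))
        (continuous_const.mul (ev_cont _)).neg

noncomputable instance : CompleteSpace p.V := p.isClosed_V.completeSpace_coe

lemma mem_V' {f : EL (Om B W)} (h1 : ∀ T, ¬ Sph cs T → ∀ w, f ⟨T, w⟩ = 0)
    (h2 : ∀ T, ∀ s ∈ T, ∀ w, cs.length (w * cs.simple s) = cs.length w + 1 →
      f ⟨T, w⟩ + p.a s * f ⟨T, w * cs.simple s⟩ = 0) : f ∈ p.V := by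
  refine ⟨h1, fun T s hs w => ?_⟩
  rcases cs.length_mul_simple w s with h | h
  · have h3 := h2 T s hs w h
    rw [p.A_mul w s h]
    push_cast
    linear_combination (p.A w : ℂ) * h3
  · obtain ⟨v, hv⟩ : ∃ v, v = w * cs.simple s := ⟨_, rfl⟩
    have e : w = v * cs.simple s := by rw [hv, cs.simple_mul_simple_cancel_right]
    have hl : cs.length (v * cs.simple s) = cs.length v + 1 := by rw [← e, hv]; omega
    have h3 := h2 T s hs v hl
    rw [← hv, e, p.A_mul v s hl]
    push_cast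
    linear_combination (p.A v : ℂ) * h3

lemma V_rel {f : EL (Om B W)} (hf : f ∈ p.V) {T : Finset B} {s : B} (hs : s ∈ T) {w : W}
    (h : cs.length (w * cs.simple s) = cs.length w + 1) :
    f ⟨T, w⟩ + p.a s * f ⟨T, w * cs.simple s⟩ = 0 := by
  have h1 := (p.mem_V.1 hf).2 T s hs w
  rw [p.A_mul w s h] at h1
  push_cast at h1
  have h2 : (p.A w : ℂ) ≠ 0 := by exact_mod_cast (p.A_pos w).ne'
  have h3 : (p.A w : ℂ) * (f ⟨T, w⟩ + p.a s * f ⟨T, w * cs.simple s⟩) = 0 := by
    linear_combination h1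
  rcases mul_eq_zero.1 h3 with h4 | h4
  · exact absurd h4 h2
  · exact h4

lemma V_par [Fintype B] [DecidableEq B] {f : EL (Om B W)} (hf : f ∈ p.V) {T : Finset B} (w : W) :
    ∀ (n : ℕ) (u : W), cs.length u = n → u ∈ Par cs (T : Set B) →
      (p.A (w * u) : ℂ) * f ⟨T, w * u⟩ = (-1) ^ n * ((p.A w : ℂ) * f ⟨T, w⟩) := by
  intro n
  induction n with
  | zero =>
    intro u hu _
    rw [cs.length_eq_zero_iff] at hu
    rw [hu, mul_one, pow_zero, one_mul]
  | succ n ih =>
    intro u hu huT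
    have h1 : u ≠ 1 := by
      intro h
      rw [h, cs.length_one] at hu
      omega
    obtain ⟨s, hs, h⟩ := par_rdescent huT h1
    have hl : cs.length (u * cs.simple s) = n := by
      rcases cs.length_mul_simple u s with h | h <;> omega
    obtain ⟨v, hv⟩ : ∃ v, v = u * cs.simple s := ⟨_, rfl⟩
    have e : u = v * cs.simple s := by rw [hv, cs.simple_mul_simple_cancel_right]
    have hvT : v ∈ Par cs (T : Set B) := by
      rw [hv]; exact Subgroup.mul_mem _ huT (simple_mem_par hs)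
    rw [← hv] at hl
    rw [e, ← mul_assoc, (p.mem_V.1 hf).2 T s (by exact_mod_cast hs) (w * v), ih v hl hvT, pow_succ]
    ring

/-- the square of the norm of the kernel -/
noncomputable def N (T : Finset B) (w : W) : ℝ := ∑ u ∈ parF cs T, (p.A w / p.A (w * u)) ^ 2

lemma N_pos {T : Finset B} (hT : Sph cs T) (w : W) : 0 < p.N T w :=
  Finset.sum_pos (fun u _ => by
    have h1 := p.A_pos w
    have h2 := p.A_pos (w * u)
    positivity) ⟨1, one_mem_parF hT⟩

open Classical in
/-- the reproducing kernel -/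
noncomputable def kw (T : Finset B) (w x : W) : ℂ :=
  if w⁻¹ * x ∈ Par cs (T : Set B) ∧ Sph cs T then
    (-1) ^ cs.length (w⁻¹ * x) * ((p.A w / p.A x / p.N T w : ℝ) : ℂ) else 0

open Classical in
/-- the reproducing kernel as a finitely supported function -/
noncomputable def kF (T : Finset B) (w : W) : W →₀ ℂ :=
  Finsupp.onFinset ((parF cs T).image (fun u => w * u)) (p.kw T w) (by
    intro x h
    unfold kw at h
    split_ifs at h with h1
    · rw [Finset.mem_image]
      exact ⟨w⁻¹ * x, (mem_parF h1.2).2 h1.1, by simp⟩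
    · exact absurd rfl h)

lemma kF_apply (T : Finset B) (w x : W) : p.kF T w x = p.kw T w x := rfl

lemma ker_mem (T : Finset B) (w : W) : io (emb T (p.kF T w)) ∈ p.V := by
  classical
  rw [p.mem_V]
  constructor
  · intro T' hT' x
    rw [io_apply, emb_apply, kF_apply]
    split_ifs with h
    · unfold kw
      rw [if_neg]
      rintro ⟨-, h1⟩
      rw [h] at h1
      exact hT' h1
    · rfl
  · intro T' s hs x
    rw [io_apply, io_apply, emb_apply, emb_apply, kF_apply, kF_apply]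
    split_ifs with h
    · subst h
      have h3 : w⁻¹ * (x * cs.simple s) ∈ Par cs (T : Set B) ↔ w⁻¹ * x ∈ Par cs (T : Set B) := by
        rw [← mul_assoc]
        exact Subgroup.mul_mem_cancel_right _ (simple_mem_par (by exact_mod_cast hs))
      unfold kw
      by_cases h4 : w⁻¹ * x ∈ Par cs (T : Set B) ∧ Sph cs T
      · rw [if_pos h4, if_pos ⟨h3.2 h4.1, h4.2⟩]
        have h5 : ((-1 : ℂ)) ^ cs.length (w⁻¹ * (x * cs.simple s)) =
            - (-1) ^ cs.length (w⁻¹ * x) := by
          rw [← mul_assoc]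
          rcases cs.length_mul_simple (w⁻¹ * x) s with h | h
          · rw [h, pow_succ]; ring
          · rw [← h, pow_succ]; ring
        rw [h5]
        have h6 := (p.A_pos x).ne'
        have h7 := (p.A_pos (x * cs.simple s)).ne'
        have h8 : (p.A x : ℂ) ≠ 0 := by exact_mod_cast h6
        have h9 : (p.A (x * cs.simple s) : ℂ) ≠ 0 := by exact_mod_cast h7
        push_cast
        field_simp
      · rw [if_neg h4, if_neg (fun h' => h4 ⟨h3.1 h'.1, h'.2⟩)]
        simp
    · simp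

lemma ker_inner [Fintype B] [DecidableEq B] {f : EL (Om B W)} (hf : f ∈ p.V) {T : Finset B}
    (hT : Sph cs T) (w : W) : ⟪io (emb T (p.kF T w)), f⟫_ℂ = f ⟨T, w⟩ := by
  classical
  have h1 : emb T (p.kF T w) =
      ∑ u ∈ parF cs T, Finsupp.single (Om.mk T (w * u)) (p.kw T w (w * u)) := by
    ext ⟨T', x⟩
    rw [emb_apply, kF_apply, Finsupp.finsetSum_apply]
    by_cases h : T = T'
    · subst h
      rw [if_pos rfl]
      by_cases h2 : w⁻¹ * x ∈ Par cs (T : Set B)
      · rw [Finset.sum_eq_single (w⁻¹ * x)]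
        · simp
        · intro u _ hu
          rw [Finsupp.single_eq_of_ne]
          intro h3
          apply hu
          rw [(Om.mk.inj h3).2]
          simp
        · intro h3
          exact absurd ((mem_parF hT).2 h2) h3
      · have h3 : p.kw T w x = 0 := by
          unfold kw
          rw [if_neg (fun h => h2 h.1)]
        rw [h3]
        symm
        refine Finset.sum_eq_zero fun u hu => ?_
        rw [Finsupp.single_eq_of_ne]
        intro h4
        apply h2
        rw [(Om.mk.inj h4).2]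
        simpa using (mem_parF hT).1 hu
    · rw [if_neg h]
      symm
      refine Finset.sum_eq_zero fun u _ => ?_
      rw [Finsupp.single_eq_of_ne]
      exact fun h4 => h (Om.mk.inj h4).1.symm
  rw [h1, map_sum, sum_inner]
  have h2 : ∀ u ∈ parF cs T, ⟪io (Finsupp.single (Om.mk T (w * u)) (p.kw T w (w * u))), f⟫_ℂ =
      (((p.A w / p.A (w * u)) ^ 2 : ℝ) : ℂ) * (((p.N T w)⁻¹ : ℝ) : ℂ) * f ⟨T, w⟩ := by
    intro u hu
    have hu' := (mem_parF hT).1 hu
    rw [io_single, inner_smul_left, inner_eb]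
    have h3 := p.V_par hf w _ u rfl hu'
    have h4 : (p.A (w * u) : ℂ) ≠ 0 := by exact_mod_cast (p.A_pos (w * u)).ne'
    have h5 : f ⟨T, w * u⟩ = (-1) ^ cs.length u * ((p.A w : ℂ) / p.A (w * u)) * f ⟨T, w⟩ := by
      field_simp
      linear_combination h3
    have h6 : (starRingEnd ℂ) (p.kw T w (w * u)) = (-1) ^ cs.length u *
        ((p.A w / p.A (w * u) / p.N T w : ℝ) : ℂ) := by
      unfold kw
      rw [inv_mul_cancel_left, if_pos ⟨hu', hT⟩, map_mul, map_pow, map_neg, map_one,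
        Complex.conj_ofReal]
    rw [h6, h5]
    have h7 : ((-1 : ℂ) ^ cs.length u) * (-1) ^ cs.length u = 1 := by
      rw [← mul_pow]; norm_num
    push_cast
    linear_combination ((p.A w : ℂ) / p.A (w * u)) ^ 2 * (p.N T w : ℂ)⁻¹ * f ⟨T, w⟩ * h7
  rw [Finset.sum_congr rfl h2, ← Finset.sum_mul, ← Finset.sum_mul]
  have h8 : (∑ u ∈ parF cs T, (((p.A w / p.A (w * u)) ^ 2 : ℝ) : ℂ)) = (p.N T w : ℂ) := by
    rw [N]
    push_cast
    rfl
  have h9 : (p.N T w : ℂ) ≠ 0 := by exact_mod_cast (p.N_pos hT w).ne'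
  rw [h8]
  push_cast
  rw [mul_inv_cancel₀ h9, one_mul]

/-- the orthogonal projection of a basis vector -/
lemma proj_eb [Fintype B] [DecidableEq B] {T : Finset B} (hT : Sph cs T) (w : W) :
    ((p.V.orthogonalProjectionOnto (eb (Om.mk T w)) : p.V) : EL (Om B W)) =
      io (emb T (p.kF T w)) := by
  have hK := p.ker_mem T w
  have h1 : (p.V.orthogonalProjectionOnto (eb (Om.mk T w))) = ⟨_, hK⟩ := by
    refine ext_inner_right ℂ fun f => ?_
    rw [Submodule.inner_orthogonalProjectionOnto_eq_of_mem_right, inner_eb]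
    exact (p.ker_inner f.2 hT w).symm
  rw [h1]

lemma proj_eb' {T : Finset B} (hT : ¬ Sph cs T) (w : W) :
    (p.V.orthogonalProjectionOnto (eb (Om.mk T w)) : p.V) = 0 := by
  refine ext_inner_right ℂ fun f => ?_
  rw [Submodule.inner_orthogonalProjectionOnto_eq_of_mem_right, inner_eb, inner_zero_left]
  exact (p.mem_V.1 f.2).1 T hT w

end Wt

end Pool.Agent.Y476.ZB
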